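import Pool.Agent.Lib.H17S.FDefs
import Pool.Agent.Lib.H17U.TC3
import Pool.Agent.Lib.H17U.RD
import Pool.Agent.Lib.H17U.FX
import Pool.Agent.Lib.H17U.AS1
import Pool.Agent.Lib.H17U.AS2

set_option autoImplicit false

/-!
H17S, module F (frames at infinity): internal definitions.
-/

open MeasureTheory Filter Topology Set
open scoped ContDiff ComplexConjugate

namespace H17S.Fr

open NullPen (E3 S2 sm proj pd MatterData NullData)
open NullU (Frm Tng dtB rotB crs cf mh dB rl hh)

/-- Squared norm of the anticonformal part of the null second fundamental form. -/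
noncomputable def kk (D : MatterData) (s : ℝ) (n : E3) : ℝ := (D.chiSq s n - D.exL s n ^ 2 / 2) / 2

/-- `r - s r'`, `r = sqrt dA`. -/
noncomputable def fq (D : MatterData) (s : ℝ) (n : E3) : ℝ :=
  Real.sqrt (D.dA s n) - s * (D.exL s n * Real.sqrt (D.dA s n) / 2)

/-- Transposed matrix. -/
def tp (M : Fin 3 → Fin 3 → ℝ) (i j : Fin 3) : ℝ := M j i

/-- Matrix of `e_j ×`. -/
def kx (j i m : Fin 3) : ℝ := if i = j + 2 ∧ m = j + 1 then 1 else if i = j + 1 ∧ m = j + 2 then -1 else 0

/-- Lie derivative along the rotation field `e_j × n`. -/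
noncomputable def LD (j : Fin 3) (F : E3 → Fin 3 → Fin 3 → ℝ) (n : E3) (i k : Fin 3) : ℝ :=
  rl j (fun y => F y i k) n - ((∑ m, kx j i m * F n m k) - ∑ m, F n i m * kx j m k)

/-- Coefficient of `J` in `(D B) B⁻¹`. -/
noncomputable def sg (D : MatterData) (B : ℝ → E3 → Fin 3 → Fin 3 → ℝ) (j : Fin 3) (n : E3) (e : Fin 3 → ℝ) (s : ℝ) : ℝ :=
  (conj (ale n (B s n)) * ale n (LD j (B s) n) + bec n e (B s n) * conj (bec n e (LD j (B s) n))).im / D.dA s n

/-- Conformal part of the Lie derivative of the metric. -/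
noncomputable def gm (D : MatterData) (j : Fin 3) (n : E3) (s : ℝ) : ℝ := (ale n (LD j (D.g s) n)).re

/-- Anticonformal part of the Lie derivative of the metric. -/
noncomputable def et (D : MatterData) (j : Fin 3) (n : E3) (e : Fin 3 → ℝ) (s : ℝ) : ℂ := bec n e (LD j (D.g s) n)

/-- The rotated frame `w B`. -/
noncomputable def wB (w : S2 → ℂ) (B : ℝ → E3 → Fin 3 → Fin 3 → ℝ) (s : ℝ) (n : S2) : Fin 3 → Fin 3 → ℝ :=
  rotB n (w n).re (w n).im (B s n)

end H17S.Fr
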