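import Pool.Agent.Lib.H17S.F.F0

set_option autoImplicit false

/-!
Chunk F1 (S/M, many small). Linear algebra in the tangent plane: the basis `e`, `f = n × e` (`Ut n e`: `e` unit tangent). No analysis.
Write `f := nx n e`. `nx n e i = n (i+1) e (i+2) - n (i+2) e (i+1)` (`nx`, `crs` unfold). Facts: `|n| = 1`, `n.e = 0`, `|e| = 1` give `|f| = 1`, `n.f = 0`, `e.f = 0` (Lagrange identities) and the completeness relation
`e i e j + f i f j + n i n j = δ i j` (`ut_id`; the matrix with rows `e, f, n` satisfies `Q Qᵀ = 1`, hence `Qᵀ Q = 1`: `Matrix.mul_eq_one_comm`).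
`exists_ut`: some coordinate vector is not parallel to `n`: if `n 0 ^ 2 + n 1 ^ 2 > 0` take `e = (-n 1, n 0, 0)/sqrt(n 0 ^ 2 + n 1 ^ 2)`, otherwise `e = (1,0,0)`.
`ut_vec`, `f1_mat`: insert the completeness relation (`proj n i j = e i e j + f i f j`; `Tng`: `∑ M i j n j = 0`, `∑ n i M i j = 0`, so `M i j = ∑ ∑ proj n i k M k l proj n l j`).
`f1_sq`, `f1_tr`, `f1_J`, `f1_dt`: insert `f1_mat` and the orthonormality relations (for `f1_J`: `n (i+1) e (i+2) - n (i+2) e (i+1) = f i`, `n × f = - e`); `dtB M = ((tr M)^2 - tr (M M))/2` and `f1_mul` for `tr (M M)`.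
`f1_mul`: `∑_k M i k N k j` with `δ = e e + f f + n n` in the middle. `f1_rot`: `e.(n × w) = - f.w`, `f.(n × w) = e.w`.
-/

open MeasureTheory Filter Topology Set
open scoped ContDiff ComplexConjugate

namespace H17S.Fr

open NullPen (E3 S2 sm proj pd MatterData NullData)
open NullU (Frm Tng dtB rotB crs cf mh dB rl hh)

theorem nsq1 (n : S2) : ∑ i, (n : E3) i ^ 2 = 1 := by
  have h := EuclideanSpace.norm_sq_eq (n : E3)
  have hn : ‖(n : E3)‖ = 1 := by simp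
  rw [hn] at h
  simpa using h.symm

theorem f1_eval (v : Fin 3 → ℝ) (a b c : ℝ) :
    ∑ i, v i * (![a, b, c] : Fin 3 → ℝ) i = v 0 * a + v 1 * b + v 2 * c := by
  simp [Fin.sum_univ_three]

theorem exists_ut (n : S2) : ∃ e, Ut n e := by
  have h1 := nsq1 n
  simp only [Fin.sum_univ_three] at h1
  set a := (n : E3) 0
  set b := (n : E3) 1
  by_cases h : 0 < a ^ 2 + b ^ 2
  · have hs : 0 < Real.sqrt (a ^ 2 + b ^ 2) := Real.sqrt_pos.2 h
    have hsq : Real.sqrt (a ^ 2 + b ^ 2) ^ 2 = a ^ 2 + b ^ 2 := Real.sq_sqrt h.le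
    refine ⟨![-b / Real.sqrt (a ^ 2 + b ^ 2), a / Real.sqrt (a ^ 2 + b ^ 2), 0], ?_, ?_⟩
    · rw [f1_eval (fun i => (n : E3) i)]
      show a * (-b / Real.sqrt (a ^ 2 + b ^ 2)) + b * (a / Real.sqrt (a ^ 2 + b ^ 2)) + (n : E3) 2 * 0 = 0
      ring
    · simp only [Fin.sum_univ_three]
      show (-b / Real.sqrt (a ^ 2 + b ^ 2)) ^ 2 + (a / Real.sqrt (a ^ 2 + b ^ 2)) ^ 2 + (0 : ℝ) ^ 2 = 1
      rw [div_pow, div_pow, hsq]
      field_simp
      ring
  · have ha : a = 0 := by nlinarith [sq_nonneg a, sq_nonneg b]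
    have hb : b = 0 := by nlinarith [sq_nonneg a, sq_nonneg b]
    refine ⟨![1, 0, 0], ?_, ?_⟩
    · rw [f1_eval (fun i => (n : E3) i)]
      show a * 1 + b * 0 + (n : E3) 2 * 0 = 0
      rw [ha]
      ring
    · simp [Fin.sum_univ_three]

theorem nx_0 (n : E3) (e : Fin 3 → ℝ) : nx n e 0 = n 1 * e 2 - n 2 * e 1 := rfl

theorem nx_1 (n : E3) (e : Fin 3 → ℝ) : nx n e 1 = n 2 * e 0 - n 0 * e 2 := rfl

theorem nx_2 (n : E3) (e : Fin 3 → ℝ) : nx n e 2 = n 0 * e 1 - n 1 * e 0 := rfl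

theorem ut_nx (n : S2) {e : Fin 3 → ℝ} (he : Ut n e) : Ut n (nx n e) := by
  have h1 := nsq1 n
  have h2 := he.tan
  have h3 := he.unit
  simp only [Fin.sum_univ_three] at h1 h2 h3
  constructor
  · simp only [Fin.sum_univ_three, nx_0, nx_1, nx_2]
    ring
  · simp only [Fin.sum_univ_three, nx_0, nx_1, nx_2]
    linear_combination (e 0 ^ 2 + e 1 ^ 2 + e 2 ^ 2) * h1 + h3 -
      ((n : E3) 0 * e 0 + (n : E3) 1 * e 1 + (n : E3) 2 * e 2) * h2

theorem ut_orth (n : S2) {e : Fin 3 → ℝ} (he : Ut n e) : dt3 e (nx n e) = 0 := by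
  unfold dt3
  simp only [Fin.sum_univ_three, nx_0, nx_1, nx_2]
  ring

theorem ut_full (n : S2) {e : Fin 3 → ℝ} (he : Ut n e) (i j : Fin 3) :
    e i * e j + nx n e i * nx n e j + (n : E3) i * (n : E3) j = if i = j then 1 else 0 := by
  have h1 := nsq1 n
  have h2 := he.tan
  have h3 := he.unit
  have h4 := ut_orth n he
  have h5 := (ut_nx n he).tan
  have h6 := (ut_nx n he).unit
  unfold dt3 at h4
  simp only [Fin.sum_univ_three] at h1 h2 h3 h4 h5 h6
  set f := nx n e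
  let Q : Matrix (Fin 3) (Fin 3) ℝ := !![e 0, e 1, e 2; f 0, f 1, f 2; (n : E3) 0, (n : E3) 1, (n : E3) 2]
  have hQ : Q * Q.transpose = 1 := by
    ext a b
    fin_cases a <;> fin_cases b <;> simp [Q, Matrix.mul_apply, Fin.sum_univ_three] <;> linarith
  have hQ' : Q.transpose * Q = 1 := mul_eq_one_comm.mp hQ
  have h := congrFun (congrFun hQ' i) j
  rw [Matrix.mul_apply, Matrix.one_apply] at h
  rw [← h]
  fin_cases i <;> fin_cases j <;> simp [Q, Fin.sum_univ_three]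

theorem ut_id (n : S2) {e : Fin 3 → ℝ} (he : Ut n e) (i j : Fin 3) : e i * e j + nx n e i * nx n e j = proj n i j := by
  have h := ut_full n he i j
  unfold NullPen.proj
  linarith

/-- insertion of the completeness relation -/
theorem ut_ins (n : S2) {e : Fin 3 → ℝ} (he : Ut n e) (a b : Fin 3 → ℝ) :
    ∑ k, a k * b k = dt3 a e * dt3 e b + dt3 a (nx n e) * dt3 (nx n e) b +
      (∑ k, a k * (n : E3) k) * ∑ k, (n : E3) k * b k := by
  have h : ∑ k, ∑ l, a k * b l * (e k * e l + nx n e k * nx n e l + (n : E3) k * (n : E3) l) = ∑ k, a k * b k := by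
    simp only [ut_full n he]
    simp
  rw [← h]
  unfold dt3
  simp only [Fin.sum_univ_three]
  ring

theorem ut_vec (n : S2) {e : Fin 3 → ℝ} (he : Ut n e) {w : Fin 3 → ℝ} (hw : ∑ i, (n : E3) i * w i = 0) (i : Fin 3) :
    w i = dt3 e w * e i + dt3 (nx n e) w * nx n e i := by
  have h := ut_ins n he (fun k => if k = i then 1 else 0) w
  rw [hw] at h
  have h1 : ∑ k, (if k = i then (1 : ℝ) else 0) * w k = w i := by simp
  have h2 : dt3 (fun k => if k = i then 1 else 0) e = e i := by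
    unfold dt3
    simp
  have h3 : dt3 (fun k => if k = i then 1 else 0) (nx n e) = nx n e i := by
    unfold dt3
    simp
  rw [h1, h2, h3] at h
  linarith

theorem f1_mat (n : S2) {e : Fin 3 → ℝ} (he : Ut n e) {M : Fin 3 → Fin 3 → ℝ} (hM : Tng n M) (i j : Fin 3) :
    M i j = dt3 e (mv3 M e) * (e i * e j) + dt3 e (mv3 M (nx n e)) * (e i * nx n e j) +
      dt3 (nx n e) (mv3 M e) * (nx n e i * e j) + dt3 (nx n e) (mv3 M (nx n e)) * (nx n e i * nx n e j) := by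
  have hr := hM.r i
  have ht : ∀ q : Fin 3 → ℝ, ∑ a, (n : E3) a * mv3 M q a = 0 := by
    intro q
    have h0 := hM.l 0
    have h1 := hM.l 1
    have h2 := hM.l 2
    unfold mv3
    simp only [Fin.sum_univ_three] at h0 h1 h2 ⊢
    linear_combination q 0 * h0 + q 1 * h1 + q 2 * h2
  have h := ut_ins n he (fun k => M i k) (fun k => if k = j then 1 else 0)
  have h1 : ∑ k, M i k * (if k = j then (1 : ℝ) else 0) = M i j := by simp
  have h2 : dt3 e (fun k => if k = j then 1 else 0) = e j := by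
    unfold dt3
    simp
  have h3 : dt3 (nx n e) (fun k => if k = j then 1 else 0) = nx n e j := by
    unfold dt3
    simp
  have h4 : dt3 (fun k => M i k) e = mv3 M e i := rfl
  have h5 : dt3 (fun k => M i k) (nx n e) = mv3 M (nx n e) i := rfl
  rw [h1, h2, h3, h4, h5, hr] at h
  have h6 := ut_vec n he (ht e) i
  have h7 := ut_vec n he (ht (nx n e)) i
  rw [h, h6, h7]
  ring

theorem f1_tr (n : S2) {e : Fin 3 → ℝ} (he : Ut n e) {M : Fin 3 → Fin 3 → ℝ} (hM : Tng n M) :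
    ∑ i, M i i = dt3 e (mv3 M e) + dt3 (nx n e) (mv3 M (nx n e)) := by
  have h3 := he.unit
  have h4 := ut_orth n he
  have h6 := (ut_nx n he).unit
  have hm := f1_mat n he hM
  generalize dt3 e (mv3 M e) = a at hm ⊢
  generalize dt3 e (mv3 M (nx n e)) = b at hm
  generalize dt3 (nx n e) (mv3 M e) = c at hm
  generalize dt3 (nx n e) (mv3 M (nx n e)) = d at hm ⊢
  simp only [hm]
  unfold dt3 at h4
  simp only [Fin.sum_univ_three] at h3 h4 h6 ⊢
  linear_combination a * h3 + (b + c) * h4 + d * h6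

theorem f1_J (n : S2) {e : Fin 3 → ℝ} (he : Ut n e) {M : Fin 3 → Fin 3 → ℝ} (hM : Tng n M) :
    ∑ i, ((n : E3) (i + 1) * M i (i + 2) - (n : E3) (i + 2) * M i (i + 1)) =
      dt3 (nx n e) (mv3 M e) - dt3 e (mv3 M (nx n e)) := by
  have h1 := nsq1 n
  have h2 := he.tan
  have h3 := he.unit
  have h4 := ut_orth n he
  have h6 := (ut_nx n he).unit
  have hm := f1_mat n he hM
  generalize dt3 e (mv3 M e) = a at hm ⊢
  generalize dt3 e (mv3 M (nx n e)) = b at hm ⊢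
  generalize dt3 (nx n e) (mv3 M e) = c at hm ⊢
  generalize dt3 (nx n e) (mv3 M (nx n e)) = d at hm ⊢
  simp only [hm]
  simp only [Fin.sum_univ_three, nx_0, nx_1, nx_2] at h1 h2 h3 h6 ⊢
  simp only [show (0 : Fin 3) + 1 = 1 from rfl, show (0 : Fin 3) + 2 = 2 from rfl,
    show (1 : Fin 3) + 1 = 2 from rfl, show (1 : Fin 3) + 2 = 0 from rfl,
    show (2 : Fin 3) + 1 = 0 from rfl, show (2 : Fin 3) + 2 = 1 from rfl, nx_0, nx_1, nx_2]
  linear_combination (c - b) * h6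

theorem f1_sq (n : S2) {e : Fin 3 → ℝ} (he : Ut n e) {M : Fin 3 → Fin 3 → ℝ} (hM : Tng n M) :
    ∑ i, ∑ j, M i j ^ 2 = dt3 e (mv3 M e) ^ 2 + dt3 e (mv3 M (nx n e)) ^ 2 + dt3 (nx n e) (mv3 M e) ^ 2 +
      dt3 (nx n e) (mv3 M (nx n e)) ^ 2 := by
  have h3 := he.unit
  have h4 := ut_orth n he
  have h6 := (ut_nx n he).unit
  have hm := f1_mat n he hM
  generalize dt3 e (mv3 M e) = a at hm ⊢
  generalize dt3 e (mv3 M (nx n e)) = b at hm ⊢
  generalize dt3 (nx n e) (mv3 M e) = c at hm ⊢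
  generalize dt3 (nx n e) (mv3 M (nx n e)) = d at hm ⊢
  simp only [hm]
  unfold dt3 at h4
  generalize nx n e = f at h4 h6 ⊢
  have hexp : ∑ i, ∑ j, (a * (e i * e j) + b * (e i * f j) + c * (f i * e j) + d * (f i * f j)) ^ 2 =
      a ^ 2 * ((∑ i, e i ^ 2) * ∑ i, e i ^ 2) + b ^ 2 * ((∑ i, e i ^ 2) * ∑ i, f i ^ 2) +
      c ^ 2 * ((∑ i, e i ^ 2) * ∑ i, f i ^ 2) + d ^ 2 * ((∑ i, f i ^ 2) * ∑ i, f i ^ 2) +
      (2 * (a * b + a * c) * (∑ i, e i ^ 2) + 2 * (b * c + a * d) * (∑ i, e i * f i) + 2 * (b * d + c * d) * (∑ i, f i ^ 2)) *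
        ∑ i, e i * f i := by
    simp only [Fin.sum_univ_three]
    ring
  rw [hexp, h3, h6, h4]
  ring

theorem f1_mul (n : S2) {e : Fin 3 → ℝ} (he : Ut n e) {M N : Fin 3 → Fin 3 → ℝ} (hM : Tng n M) (hN : Tng n N) (p q : Fin 3 → ℝ) :
    dt3 p (mv3 (mm3 M N) q) = dt3 p (mv3 M e) * dt3 e (mv3 N q) + dt3 p (mv3 M (nx n e)) * dt3 (nx n e) (mv3 N q) := by
  have h := ut_ins n he (fun k => ∑ i, p i * M i k) (mv3 N q)
  have hz : ∑ k, (∑ i, p i * M i k) * (n : E3) k = 0 := by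
    have h0 := hM.r 0
    have h1 := hM.r 1
    have h2 := hM.r 2
    simp only [Fin.sum_univ_three] at h0 h1 h2 ⊢
    linear_combination p 0 * h0 + p 1 * h1 + p 2 * h2
  rw [hz, zero_mul, add_zero] at h
  have e1 : dt3 p (mv3 (mm3 M N) q) = ∑ k, (∑ i, p i * M i k) * mv3 N q k := by
    unfold dt3 mv3 mm3
    simp only [Fin.sum_univ_three]
    ring
  have e2 : ∀ r : Fin 3 → ℝ, dt3 (fun k => ∑ i, p i * M i k) r = dt3 p (mv3 M r) := by
    intro r
    unfold dt3 mv3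
    simp only [Fin.sum_univ_three]
    ring
  rw [e1, h, e2, e2]

theorem f1_dt (n : S2) {e : Fin 3 → ℝ} (he : Ut n e) {M : Fin 3 → Fin 3 → ℝ} (hM : Tng n M) :
    dtB M = dt3 e (mv3 M e) * dt3 (nx n e) (mv3 M (nx n e)) - dt3 e (mv3 M (nx n e)) * dt3 (nx n e) (mv3 M e) := by
  have h3 := he.unit
  have h4 := ut_orth n he
  have h6 := (ut_nx n he).unit
  have htr := f1_tr n he hM
  have hm := f1_mat n he hM
  unfold dtB
  rw [htr]
  generalize dt3 e (mv3 M e) = a at hm ⊢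
  generalize dt3 e (mv3 M (nx n e)) = b at hm ⊢
  generalize dt3 (nx n e) (mv3 M e) = c at hm ⊢
  generalize dt3 (nx n e) (mv3 M (nx n e)) = d at hm ⊢
  simp only [hm]
  unfold dt3 at h4
  generalize nx n e = f at h4 h6 ⊢
  have hexp : ∑ i, ∑ j, (a * (e i * e j) + b * (e i * f j) + c * (f i * e j) + d * (f i * f j)) *
      (a * (e j * e i) + b * (e j * f i) + c * (f j * e i) + d * (f j * f i)) =
      a ^ 2 * ((∑ i, e i ^ 2) * ∑ i, e i ^ 2) + 2 * b * c * ((∑ i, e i ^ 2) * ∑ i, f i ^ 2) +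
      d ^ 2 * ((∑ i, f i ^ 2) * ∑ i, f i ^ 2) +
      (2 * (a * b + a * c) * (∑ i, e i ^ 2) + (b ^ 2 + c ^ 2 + 2 * a * d) * (∑ i, e i * f i) + 2 * (b * d + c * d) * (∑ i, f i ^ 2)) *
        ∑ i, e i * f i := by
    simp only [Fin.sum_univ_three]
    ring
  rw [hexp, h3, h6, h4]
  ring

theorem f1_tp (M : Fin 3 → Fin 3 → ℝ) (p q : Fin 3 → ℝ) : dt3 p (mv3 (tp M) q) = dt3 q (mv3 M p) := by
  unfold dt3 mv3 tp
  simp only [Fin.sum_univ_three]
  ring

theorem f1_rot1 (n : S2) {e : Fin 3 → ℝ} (he : Ut n e) (M : Fin 3 → Fin 3 → ℝ) (c σ : ℝ) (q : Fin 3 → ℝ) :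
    dt3 e (mv3 (rotB n c σ M) q) = c * dt3 e (mv3 M q) - σ * dt3 (nx n e) (mv3 M q) := by
  unfold dt3 mv3 NullU.rotB NullU.crs
  simp only [Fin.sum_univ_three, nx_0, nx_1, nx_2]
  simp only [show (0 : Fin 3) + 1 = 1 from rfl, show (0 : Fin 3) + 2 = 2 from rfl,
    show (1 : Fin 3) + 1 = 2 from rfl, show (1 : Fin 3) + 2 = 0 from rfl,
    show (2 : Fin 3) + 1 = 0 from rfl, show (2 : Fin 3) + 2 = 1 from rfl]
  ring

/-- Uses `(n × e) × n = e` for `e` tangent. -/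
theorem f1_rot2 (n : S2) {e : Fin 3 → ℝ} (he : Ut n e) (M : Fin 3 → Fin 3 → ℝ) (c σ : ℝ) (q : Fin 3 → ℝ) :
    dt3 (nx n e) (mv3 (rotB n c σ M) q) = c * dt3 (nx n e) (mv3 M q) + σ * dt3 e (mv3 M q) := by
  have h1 := nsq1 n
  have h2 := he.tan
  have e1 : ∀ w : Fin 3 → ℝ, dt3 (nx n e) (fun i => crs (fun k => (n : E3) k) w i) = dt3 e w := by
    intro w
    unfold dt3 NullU.crs
    simp only [Fin.sum_univ_three, nx_0, nx_1, nx_2] at h1 h2 ⊢
    simp only [show (0 : Fin 3) + 1 = 1 from rfl, show (0 : Fin 3) + 2 = 2 from rfl,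
      show (1 : Fin 3) + 1 = 2 from rfl, show (1 : Fin 3) + 2 = 0 from rfl,
      show (2 : Fin 3) + 1 = 0 from rfl, show (2 : Fin 3) + 2 = 1 from rfl]
    linear_combination (w 0 * e 0 + w 1 * e 1 + w 2 * e 2) * h1 -
      (w 0 * (n : E3) 0 + w 1 * (n : E3) 1 + w 2 * (n : E3) 2) * h2
  rw [← e1 (mv3 M q)]
  unfold dt3 mv3 NullU.rotB NullU.crs
  simp only [Fin.sum_univ_three]
  ring

end H17S.Fr
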