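import Pool.Agent.Lib.H17S.F.F6

set_option autoImplicit false

/-!
Chunk F10 (M). The rotated frame `wB w B s n = rotB n (w n).re (w n).im (B s n)`, `‖w n‖ = 1`.
Proof. In complex coordinates (`ale_rot`, `bec_rot`): `ale n (wB w B s n) = w n * ale n (B s n)`, `bec n e (wB w B s n) = w n * bec n e (B s n)` (`(⟨(w n).re, (w n).im⟩ : ℂ) = w n`).
`wb_cont`: `fr_con`, continuity of `w` and of the coordinates of `n`, `rotB` is a polynomial. `wb_tng`: `NullU.rot_tng`. `wb_gram`: `NullU.rot_gram` (`re^2 + im^2 = 1`) and `Frm.gram`. `wb_dt`: `dtB_ab` for `wB` and `B` with some basis (`exists_ut`), `Frm.dt`.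
`wb_der`: `M0` from `fr_chi`, `R = ` rotation by `w`; `M = R M0 Rᵀ = rotB n c σ (tp (rotB n c σ (tp M0)))`, `c = (w n).re`, `σ = (w n).im`: `Tng` (`NullU.rot_tng`, `tng_tp`), `ale n M = w conj (w conj (ale M0)) = ale n M0` (`‖w‖ = 1`), `bec n e M = w^2 bec n e M0`. Symmetric: `ab_ext` for `M` and `tp M`
(`ale_tp`: `ale n M0` is real). Trace: twice the real part of `ale`. `∑ M^2`: `sq_ab`. Derivative: `rotB` is linear in the matrix with constant coefficients, so the derivative of `wB w B t n` at `s` is `rotB n c σ (dB B s n) = rotB n c σ (mm3 M0 (B s n))` (`NullU.dB_der`), and it is equal to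
`mm3 M (wB w B s n)` by `ab_ext`: `ale: w (a0 z + m0 conj b) = a0 (w z) + (w^2 m0) conj (w b)`, `bec: w (a0 b + m0 conj z) = a0 (w b) + (w^2 m0) conj (w z)`.
-/

open MeasureTheory Filter Topology Set
open scoped ContDiff ComplexConjugate

namespace H17S.Fr

open NullPen (E3 S2 sm proj pd MatterData NullData)
open NullU (Frm Tng dtB rotB crs cf mh dB rl hh)

variable {D : MatterData} {δ T : ℝ} {B : ℝ → E3 → Fin 3 → Fin 3 → ℝ} {w : S2 → ℂ}

theorem wb_ale (hB : Frm D δ T B) {s : ℝ} (hs : δ ≤ s) (n : S2) : ale n (wB w B s n) = w n * ale n (B s n) := by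
  unfold wB
  rw [ale_rot n (hB.tng s hs n)]

theorem wb_bec (n : S2) {e : Fin 3 → ℝ} (he : Ut n e) (s : ℝ) : bec n e (wB w B s n) = w n * bec n e (B s n) := by
  unfold wB
  rw [bec_rot n he]

theorem wb_cont (hB : Frm D δ T B) (hw : Continuous w) (i j : Fin 3) : Continuous (fun p : ℝ × S2 => wB w B p.1 p.2 i j) := by
  have h1 := fun i j => fr_con hB i j
  have h2 : Continuous (fun p : ℝ × S2 => (w p.2).re) := Complex.continuous_re.comp (hw.comp continuous_snd)
  have h3 : Continuous (fun p : ℝ × S2 => (w p.2).im) := Complex.continuous_im.comp (hw.comp continuous_snd)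
  have h4 : ∀ k : Fin 3, Continuous (fun p : ℝ × S2 => (p.2 : E3) k) := fun k =>
    (EuclideanSpace.proj k : E3 →L[ℝ] ℝ).continuous.comp (continuous_subtype_val.comp continuous_snd)
  unfold wB rotB crs
  exact (h2.mul (h1 i j)).add (h3.mul (((h4 _).mul (h1 _ _)).sub ((h4 _).mul (h1 _ _))))

theorem wb_tng (hB : Frm D δ T B) {s : ℝ} (hs : δ ≤ s) (n : S2) : Tng n (wB w B s n) := by
  exact NullU.rot_tng (NullU.fx_norm n) (hB.tng s hs n) _ _

theorem f10_one {z : ℂ} (hz : ‖z‖ = 1) : z.re ^ 2 + z.im ^ 2 = 1 := by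
  have h1 := Complex.sq_norm z
  rw [hz, Complex.normSq_apply] at h1
  linarith

theorem wb_gram (hB : Frm D δ T B) (hw : ∀ n, ‖w n‖ = 1) {s : ℝ} (hs : δ ≤ s) (n : S2) (i j : Fin 3) :
    ∑ k, wB w B s n k i * wB w B s n k j = D.g s n i j := by
  unfold wB
  rw [NullU.rot_gram (NullU.fx_norm n) (hB.tng s hs n) (f10_one (hw n))]
  exact hB.gram s hs n i j

theorem wb_dt (hB : Frm D δ T B) (hw : ∀ n, ‖w n‖ = 1) {s : ℝ} (hs : δ ≤ s) (n : S2) : dtB (wB w B s n) = D.dA s n := by
  obtain ⟨e, he⟩ := exists_ut n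
  have h1 := hB.dt s hs n
  rw [dtB_ab n he (wb_tng hB hs n), wb_ale hB hs n, wb_bec n he, norm_mul, norm_mul, hw n, one_mul, one_mul,
    ← dtB_ab n he (hB.tng s hs n), h1]

theorem wb_der (hD : D.IsNull) (hB : Frm D δ T B) (hw : ∀ n, ‖w n‖ = 1) {s : ℝ} (hs : δ < s) (n : S2) :
    ∃ M : Fin 3 → Fin 3 → ℝ, Tng n M ∧ (∀ i j, M i j = M j i) ∧ (∑ k, M k k = D.exL s n) ∧ (∑ i, ∑ j, M i j ^ 2 = D.chiSq s n) ∧
      ∀ i j, HasDerivAt (fun t => wB w B t n i j) (mm3 M (wB w B s n) i j) s := by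
  obtain ⟨e, he⟩ := exists_ut n
  obtain ⟨M0, h1, h2, h3, h4, h5⟩ := fr_chi hD hB hs n
  have hn := NullU.fx_norm n
  have ht := hB.tng s hs.le n
  have h6 : ale n (dB B s n) = ale n M0 * ale n (B s n) + bec n e M0 * conj (bec n e (B s n)) := by
    have e1 : dB B s n = mm3 M0 (B s n) := by
      funext i j
      exact h5 i j
    rw [e1, ale_mul n he h1 ht]
  have h7 : bec n e (dB B s n) = ale n M0 * bec n e (B s n) + bec n e M0 * conj (ale n (B s n)) := by
    have e1 : dB B s n = mm3 M0 (B s n) := by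
      funext i j
      exact h5 i j
    rw [e1, bec_mul n he h1 ht]
  have hww : w n * conj (w n) = 1 := by
    rw [Complex.mul_conj, ← Complex.sq_norm, hw n]
    simp
  have h8 : Tng n (rotB n (w n).re (w n).im (tp M0)) := NullU.rot_tng hn (tng_tp n h1) _ _
  have h9 : Tng n (rotB n (w n).re (w n).im (tp (rotB n (w n).re (w n).im (tp M0)))) := NullU.rot_tng hn (tng_tp n h8) _ _
  set M : Fin 3 → Fin 3 → ℝ := rotB n (w n).re (w n).im (tp (rotB n (w n).re (w n).im (tp M0))) with hM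
  have hale : ale n M = ale n M0 := by
    rw [hM, ale_rot n (tng_tp n h8), ale_tp, ale_rot n (tng_tp n h1), ale_tp, Complex.eta, map_mul, Complex.conj_conj]
    linear_combination (ale n M0) * hww
  have hbec : bec n e M = w n * (w n * bec n e M0) := by
    rw [hM, bec_rot n he, bec_tp, bec_rot n he, bec_tp, Complex.eta]
  have him : (ale n M0).im = 0 := ale_sym n h2
  refine ⟨M, h9, fun i j => ?_, ?_, ?_, fun i j => ?_⟩
  · have := ab_ext n he h9 (tng_tp n h9) (by
      rw [ale_tp, hale]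
      exact (Complex.conj_eq_iff_im.2 him).symm) (by rw [bec_tp]) i j
    exact this
  · have e1 : (ale n M).re = (∑ k, M k k) / 2 := rfl
    have e2 : (ale n M0).re = (∑ k, M0 k k) / 2 := rfl
    rw [hale, e2] at e1
    linarith
  · rw [sq_ab n he h9, hale, hbec, norm_mul, norm_mul, hw n, one_mul, one_mul, ← sq_ab n he h1, h4]
  · have e1 : HasDerivAt (fun t => wB w B t n i j) (rotB n (w n).re (w n).im (dB B s n) i j) s := by
      unfold wB rotB crs
      have d := fun i j => NullU.dB_der hB s n i j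
      exact ((d i j).const_mul _).add ((((d (i + 2) j).const_mul _).sub ((d (i + 1) j).const_mul _)).const_mul _)
    refine e1.congr_deriv ?_
    refine ab_ext n he (NullU.rot_tng hn (NullU.dB_tng hB hs n) _ _) (tng_mm3 n h9 (wb_tng hB hs.le n)) ?_ ?_ i j
    · rw [ale_rot n (NullU.dB_tng hB hs n), ale_mul n he h9 (wb_tng hB hs.le n), wb_ale hB hs.le n, wb_bec n he, hale, hbec,
        h6, Complex.eta, map_mul]
      linear_combination (-(w n * bec n e M0 * conj (bec n e (B s n)))) * hww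
    · rw [bec_rot n he, bec_mul n he h9 (wb_tng hB hs.le n), wb_ale hB hs.le n, wb_bec n he, hale, hbec,
        h7, Complex.eta, map_mul]
      linear_combination (-(w n * bec n e M0 * conj (ale n (B s n)))) * hww

end H17S.Fr
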