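import Pool.Agent.Lib.H17S.F.F6

set_option autoImplicit false

/-!
Chunk F9 (M). Two parallel frames differ by a rotation which is constant along the generators.
Proof. Fix `n` and one basis `e` (`exists_ut`). `z, b` for `B`, `z0, b0` for `B0`, `s >= δ`. `‖z‖ = ‖z0‖` (`fz_norm`), and both Gram matrices are `g`: `bec n e (mm3 (tp B) B) = 2 conj z b` (`bec_mul`, `ale_tp`, `bec_tp`), so
`conj z b = conj z0 b0`. With `w s = z s/z0 s` (`z0 ≠ 0`, `fz_pos`): `‖w‖ = 1`, `z = w z0`, `conj w conj z0 b = conj z0 b0`, so `b = w b0`.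
For `s > δ`: `w` is differentiable (`fz_der`), and `b' = (w b0)'`. By `fr_par` for `B` (`m`) and `B0` (`m0`): `w' z0 = (m conj w - w m0) conj b0` and `w' b0 = (m conj w - w m0) conj z0`. Multiply by `conj z0` and by `conj b0` and subtract:
`w' (‖z0‖^2 - ‖b0‖^2) = 0`, and `‖z0‖^2 - ‖b0‖^2 = dA > 0` (`fz_norm`, `fb_norm`, `NullU.dA_pos`). So `w' = 0` on `(δ, ∞)`, and `w` is continuous on `[δ, ∞)`: constant.
Another basis `e'`: `w` is determined by the conformal parts, which do not depend on the basis; `b' = w b0'` holds by the same argument with `e'` and the same `w s`.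
-/

open MeasureTheory Filter Topology Set
open scoped ContDiff ComplexConjugate

namespace H17S.Fr

open NullPen (E3 S2 sm proj pd MatterData NullData)
open NullU (Frm Tng dtB rotB crs cf mh dB rl hh)

variable {D : MatterData} {δ T : ℝ} {B : ℝ → E3 → Fin 3 → Fin 3 → ℝ}

/-- pure algebra: the anticonformal parts -/
theorem f9_alg {z z0 b b0 : ℂ} (hn : ‖z‖ = ‖z0‖) (h0 : z0 ≠ 0) (hg : conj z * b = conj z0 * b0) : b = z / z0 * b0 := by
  have hz0 : conj z0 ≠ 0 := (map_ne_zero _).2 h0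
  have h1 : z * conj z = z0 * conj z0 := by
    rw [Complex.mul_conj, Complex.mul_conj, Complex.normSq_eq_norm_sq, Complex.normSq_eq_norm_sq, hn]
  have h2 : z0 * conj z0 * b = z * (conj z0 * b0) := by
    rw [← h1, ← hg]
    ring
  have h3 : conj z0 * (z0 * b) = conj z0 * (z * b0) := by
    linear_combination h2
  have h4 := mul_left_cancel₀ hz0 h3
  rw [div_mul_eq_mul_div, eq_div_iff h0, ← h4]
  ring

/-- pure algebra: the derivative vanishes -/
theorem f9_der {w w' z0 b0 m m0 k : ℂ} (h1 : w' * z0 + w * (k * z0 + m0 * conj b0) = k * (w * z0) + m * conj (w * b0))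
    (h2 : w' * b0 + w * (k * b0 + m0 * conj z0) = k * (w * b0) + m * conj (w * z0))
    (h3 : z0 * conj z0 - b0 * conj b0 ≠ 0) : w' = 0 := by
  rw [map_mul] at h1 h2
  have h4 : w' * (z0 * conj z0 - b0 * conj b0) = 0 := by
    linear_combination conj z0 * h1 - conj b0 * h2
  exact (mul_eq_zero.1 h4).resolve_right h3

theorem f9_gram (hB : Frm D δ T B) {δ0 T0 : ℝ} {B0 : ℝ → E3 → Fin 3 → Fin 3 → ℝ} (hB0 : Frm D δ0 T0 B0)
    (n : S2) {e : Fin 3 → ℝ} (he : Ut n e) {s : ℝ} (hs : δ ≤ s) (hs0 : δ0 ≤ s) :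
    conj (ale n (B s n)) * bec n e (B s n) = conj (ale n (B0 s n)) * bec n e (B0 s n) := by
  have key : ∀ M : Fin 3 → Fin 3 → ℝ, Tng n M →
      bec n e (mm3 (tp M) M) = 2 * (conj (ale n M) * bec n e M) := by
    intro M hM
    rw [bec_mul n he (tng_tp n hM) hM, ale_tp, bec_tp]
    ring
  have h1 : mm3 (tp (B s n)) (B s n) = mm3 (tp (B0 s n)) (B0 s n) := by
    funext i j
    have e1 := hB.gram s hs n i j
    have e2 := hB0.gram s hs0 n i j
    exact e1.trans e2.symm
  have h2 := congrArg (bec n e) h1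
  rw [key _ (hB.tng s hs n), key _ (hB0.tng s hs0 n)] at h2
  exact mul_left_cancel₀ two_ne_zero h2

theorem rot_const (hD : D.IsNull) (hB : Frm D δ T B) {δ0 T0 : ℝ} {B0 : ℝ → E3 → Fin 3 → Fin 3 → ℝ} (hB0 : Frm D δ0 T0 B0)
    (h0 : δ0 < δ) (n : S2) : ∃ w : ℂ, ‖w‖ = 1 ∧ ∀ s, δ ≤ s → ale n (B s n) = w * ale n (B0 s n) ∧
      ∀ e, Ut n e → bec n e (B s n) = w * bec n e (B0 s n) := by
  have hs0 : ∀ s, δ ≤ s → δ0 < s := fun s hs => lt_of_lt_of_le h0 hs
  have hne : ∀ s, δ ≤ s → ale n (B0 s n) ≠ 0 := fun s hs => norm_pos_iff.1 (fz_pos hD hB0 (hs0 s hs).le n)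
  have hnorm : ∀ s, δ ≤ s → ‖ale n (B s n)‖ = ‖ale n (B0 s n)‖ := by
    intro s hs
    have h1 := fz_norm hB hs n
    have h2 := fz_norm hB0 (hs0 s hs).le n
    rw [← h2] at h1
    exact (pow_left_inj₀ (norm_nonneg _) (norm_nonneg _) two_ne_zero).1 h1
  obtain ⟨W, hW⟩ : ∃ W : ℝ → ℂ, W = fun s => ale n (B s n) / ale n (B0 s n) := ⟨_, rfl⟩
  have hWn : ∀ s, δ ≤ s → ‖W s‖ = 1 := by
    intro s hs
    rw [hW]
    show ‖ale n (B s n) / ale n (B0 s n)‖ = 1
    rw [norm_div, hnorm s hs, div_self]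
    exact norm_ne_zero_iff.2 (hne s hs)
  have hz : ∀ s, δ ≤ s → ale n (B s n) = W s * ale n (B0 s n) := by
    intro s hs
    rw [hW]
    show ale n (B s n) = ale n (B s n) / ale n (B0 s n) * ale n (B0 s n)
    rw [div_mul_cancel₀ _ (hne s hs)]
  have hb : ∀ s, δ ≤ s → ∀ e, Ut n e → bec n e (B s n) = W s * bec n e (B0 s n) := by
    intro s hs e he
    rw [hW]
    exact f9_alg (hnorm s hs) (hne s hs) (f9_gram hB hB0 n he hs (hs0 s hs).le)
  -- derivative
  have hWd : ∀ s, δ ≤ s → ∃ w', HasDerivAt W w' s := by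
    intro s hs
    rw [hW]
    exact ⟨_, (fz_der hB s n).div (fz_der hB0 s n) (hne s hs)⟩
  have hWd0 : ∀ s, δ < s → HasDerivAt W 0 s := by
    intro s hs
    obtain ⟨w', hw'⟩ := hWd s hs.le
    obtain ⟨e, he⟩ := exists_ut n
    obtain ⟨m, -, hm1, hm2⟩ := fr_par hD hB hs n he
    obtain ⟨m0, -, hn1, hn2⟩ := fr_par hD hB0 (hs0 s hs.le) n he
    have d1 : ale n (dB B s n) = w' * ale n (B0 s n) + W s * ale n (dB B0 s n) := by
      have e1 := hw'.mul (fz_der hB0 s n)
      have e2 : HasDerivAt (fun t => ale n (B t n)) (w' * ale n (B0 s n) + W s * ale n (dB B0 s n)) s := by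
        refine e1.congr_of_eventuallyEq ?_
        filter_upwards [lt_mem_nhds hs] with t ht
        exact hz t ht.le
      exact (fz_der hB s n).unique e2
    have d2 : bec n e (dB B s n) = w' * bec n e (B0 s n) + W s * bec n e (dB B0 s n) := by
      have e1 := hw'.mul (fb_der hB0 s n e)
      have e2 : HasDerivAt (fun t => bec n e (B t n)) (w' * bec n e (B0 s n) + W s * bec n e (dB B0 s n)) s := by
        refine e1.congr_of_eventuallyEq ?_
        filter_upwards [lt_mem_nhds hs] with t ht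
        exact hb t ht.le e he
      exact (fb_der hB s n e).unique e2
    have hdA : ale n (B0 s n) * conj (ale n (B0 s n)) - bec n e (B0 s n) * conj (bec n e (B0 s n)) ≠ 0 := by
      have e1 := dtB_ab n he (hB0.tng s (hs0 s hs.le).le n)
      rw [hB0.dt s (hs0 s hs.le).le n] at e1
      have e2 := NullU.dA_pos hD n (hB.pos.trans hs).le
      rw [Complex.mul_conj, Complex.mul_conj, Complex.normSq_eq_norm_sq, Complex.normSq_eq_norm_sq, ← Complex.ofReal_sub, ← e1]
      exact_mod_cast e2.ne'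
    have h1 : w' = 0 := by
      refine f9_der (w := W s) (m := m) (m0 := m0) (k := ((D.exL s n / 2 : ℝ) : ℂ)) ?_ ?_ hdA
      · rw [← hn1, ← d1, hm1, hz s hs.le, hb s hs.le e he]
      · rw [← hn2, ← d2, hm2, hz s hs.le, hb s hs.le e he]
    rw [h1] at hw'
    exact hw'
  have hc1 : ∀ s t, δ < s → s ≤ t → W t = W s := by
    intro s t hs hst
    refine constant_of_has_deriv_right_zero (a := s) (b := t) ?_ ?_ t ⟨hst, le_rfl⟩
    · intro x hx
      exact (hWd0 x (lt_of_lt_of_le hs hx.1)).continuousAt.continuousWithinAt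
    · intro x hx
      exact (hWd0 x (lt_of_lt_of_le hs hx.1)).hasDerivWithinAt
  have hc : ∀ s, δ ≤ s → W s = W δ := by
    intro s hs
    rcases hs.eq_or_lt with h | h
    · rw [← h]
    · obtain ⟨w', hw'⟩ := hWd δ le_rfl
      have t1 : Tendsto W (𝓝[>] δ) (𝓝 (W δ)) := hw'.continuousAt.tendsto.mono_left nhdsWithin_le_nhds
      have t2 : Tendsto W (𝓝[>] δ) (𝓝 (W s)) := by
        refine tendsto_const_nhds.congr' ?_
        filter_upwards [Ioo_mem_nhdsGT h] with t ht
        exact hc1 t s ht.1 ht.2.le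
      exact tendsto_nhds_unique t2 t1
  refine ⟨W δ, hWn δ le_rfl, fun s hs => ⟨?_, fun e he => ?_⟩⟩
  · rw [← hc s hs]
    exact hz s hs
  · rw [← hc s hs]
    exact hb s hs e he

end H17S.Fr
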