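import Pool.Agent.Lib.H17S.F.F7
import Pool.Agent.Lib.H17S.F.F9
import Pool.Agent.Lib.H17S.F.F10

set_option autoImplicit false

/-!
Chunk F11 (M). Bounds for the frame normalised at infinity. `φ` is the limit of the phase (F8), `w = conj φ`, `Bi = wB w B0`.
Notation at `(s, n)`: `z0 = ale n (B0 s n)`, `b0 = bec n e (B0 s n)` (`e` from `exists_ut`), `p = z0/‖z0‖`, `‖p - φ‖ <= K/(s sqrt s)`.
Common bounds for `s >= δ` (`dat_bd` with constant `C`, `fz_norm`, `fb_norm`): `‖b0‖^2 <= C/4`, `‖z0‖^2 = dA + ‖b0‖^2`, so `sqrt dA <= ‖z0‖ <= sqrt dA + ‖b0‖` and `|‖z0‖ - s| <= C + sqrt C`.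
`wb_bd`: `M = Bi - s proj` is tangential (`wb_tng`, `tng_proj`, `tng_lin`); `ale n M = conj φ z0 - s = (conj φ p - 1) ‖z0‖ + (‖z0‖ - s)`, `|conj φ p - 1| = ‖p - φ‖ <= K/(s sqrt s)`, `‖z0‖ <= C' s`: bounded by `K C'/sqrt δ + C + sqrt C`; `bec n e M = conj φ b0`. Then `ent_le`.
`wb_im`: `Im (conj φ z0) = ‖z0‖ Im (conj φ p - 1)`, so its absolute value is `<= C' s K/(s sqrt s) = C' K/sqrt s -> 0` (squeeze).
`wb_near`: `B` a frame for `δ, T`. By `rot_const` `B s n` has the coordinates `w' z0`, `w' b0`, `w'` constant for `s >= δ`. At `s = T`: `ale n (B T n)` is real and positive: `B T n` is symmetric (`Frm.top`, `g_symm`, `proj` symmetric), so the imaginary part is zero (`ale_sym`), the real part is half of the trace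
`(tr g + 2 dA)/sqrt(tr g + 2 dA) > 0` (`tr proj = 2`; `hh = tr g + 2 dA > 0` from `fz_norm`, `fz_pos`). As `‖w'‖ = 1`: `w' z0(T) = ‖z0(T)‖`, so `w' = conj (p T)`. Hence for `δ <= s <= T` the matrix `B - Bi` has the coordinates `(w' - conj φ) z0`, `(w' - conj φ) b0`, and
`‖w' - conj φ‖ = ‖p T - φ‖ <= K/(T sqrt T) <= K/T` (`T >= 1`), `‖z0‖ + ‖b0‖ <= C'' (1 + s)`; `ent_le`.
-/

open MeasureTheory Filter Topology Set
open scoped ContDiff ComplexConjugate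

namespace H17S.Fr

open NullPen (E3 S2 sm proj pd MatterData NullData)
open NullU (Frm Tng dtB rotB crs cf mh dB rl hh)

variable {D : MatterData} {δ0 T0 : ℝ} {B0 : ℝ → E3 → Fin 3 → Fin 3 → ℝ} {φ : S2 → ℂ}

theorem f11_z (hD : D.IsNull) (hA : D.AsympFlat) (hB : Frm D δ0 T0 B0) {δ : ℝ} (h0 : δ0 < δ) : ∃ C : ℝ, 1 ≤ C ∧
    ∀ s, δ ≤ s → ∀ (n : S2) (e : Fin 3 → ℝ), Ut n e → s ≤ ‖ale n (B0 s n)‖ ∧ ‖ale n (B0 s n)‖ ≤ s + 2 * C ∧ ‖bec n e (B0 s n)‖ ≤ C := by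
  have hδ : 0 < δ := hB.pos.trans h0
  obtain ⟨C, hC, h⟩ := dat_bd hD hA hδ
  refine ⟨C, hC, fun s hs n e he => ?_⟩
  have hs0 : δ0 ≤ s := h0.le.trans hs
  obtain ⟨h1, h2, _, h3, h4, _⟩ := h s hs n
  have hz := fz_norm hB hs0 n
  have hb := fb_norm hB hs0 n he
  have hge := fz_ge hB hs0 n
  have hdA : 0 ≤ D.dA s n := (NullU.dA_pos hD n (hδ.le.trans hs)).le
  have hsq := Real.sq_sqrt hdA
  have hzz : ‖ale n (B0 s n)‖ ^ 2 = Real.sqrt (D.dA s n) ^ 2 + ‖bec n e (B0 s n)‖ ^ 2 := by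
    rw [hz, hb, hsq]
    unfold hh
    ring
  have hb1 : ‖bec n e (B0 s n)‖ ≤ C := by
    refine abs_le_of_sq_le_sq' ?_ (by linarith) |>.2
    rw [hb]
    nlinarith
  refine ⟨h1.trans hge, ?_, hb1⟩
  have h5 : ‖ale n (B0 s n)‖ ≤ Real.sqrt (D.dA s n) + ‖bec n e (B0 s n)‖ := by
    refine abs_le_of_sq_le_sq' ?_ (by positivity) |>.2
    rw [hzz]
    have := mul_nonneg (Real.sqrt_nonneg (D.dA s n)) (norm_nonneg (bec n e (B0 s n)))
    nlinarith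
  linarith

theorem f11_p {z φ : ℂ} (hz : 0 < ‖z‖) (hφ : ‖φ‖ = 1) : ‖conj φ * z - (‖z‖ : ℂ)‖ = ‖z‖ * ‖z / (‖z‖ : ℂ) - φ‖ := by
  have h1 : conj φ * φ = 1 := by
    rw [Complex.conj_mul', hφ]
    norm_num
  have hz' : (‖z‖ : ℂ) ≠ 0 := by
    exact_mod_cast hz.ne'
  have h2 : conj φ * z - (‖z‖ : ℂ) = (‖z‖ : ℂ) * (conj φ * (z / (‖z‖ : ℂ) - φ)) := by
    field_simp
    linear_combination (‖z‖ : ℂ) * h1
  rw [h2, norm_mul, norm_mul, Complex.norm_conj, hφ, one_mul, Complex.norm_real, norm_norm]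

theorem f11_dev (hD : D.IsNull) (hB : Frm D δ0 T0 B0) {δ : ℝ} (h0 : δ0 < δ) {K : ℝ} (hφ : ∀ n, ‖φ n‖ = 1)
    (hK : ∀ s, δ ≤ s → ∀ n : S2, ‖ale n (B0 s n) / (‖ale n (B0 s n)‖ : ℂ) - φ n‖ ≤ K / (s * Real.sqrt s)) {s : ℝ} (hs : δ ≤ s)
    (n : S2) : ‖conj (φ n) * ale n (B0 s n) - (‖ale n (B0 s n)‖ : ℂ)‖ ≤ ‖ale n (B0 s n)‖ * (|K| / (s * Real.sqrt s)) := by
  have hpos : 0 < s := (hB.pos.trans h0).trans_le hs
  rw [f11_p (fz_pos hD hB (h0.le.trans hs) n) (hφ n)]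
  refine mul_le_mul_of_nonneg_left ((hK s hs n).trans ?_) (norm_nonneg _)
  have := Real.sqrt_nonneg s
  gcongr
  exact le_abs_self K

theorem wb_bd (hD : D.IsNull) (hA : D.AsympFlat) (hB : Frm D δ0 T0 B0) {δ : ℝ} (h0 : δ0 < δ) {K : ℝ} (hφ : ∀ n, ‖φ n‖ = 1)
    (hK : ∀ s, δ ≤ s → ∀ n : S2, ‖ale n (B0 s n) / (‖ale n (B0 s n)‖ : ℂ) - φ n‖ ≤ K / (s * Real.sqrt s)) :
    ∃ C : ℝ, 0 ≤ C ∧ ∀ s, δ ≤ s → ∀ n : S2, ∀ i j, |wB (fun n => conj (φ n)) B0 s n i j - s * proj n i j| ≤ C := by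
  have hδ : 0 < δ := hB.pos.trans h0
  obtain ⟨C, hC, h⟩ := f11_z hD hA hB h0
  have hsq := Real.sqrt_pos.2 hδ
  refine ⟨|K| * (1 / Real.sqrt δ + 2 * C / (δ * Real.sqrt δ)) + 2 * C + C, by positivity, fun s hs n i j => ?_⟩
  obtain ⟨e, he⟩ := exists_ut n
  obtain ⟨h1, h2, h3⟩ := h s hs n e he
  have hs0 : δ0 ≤ s := h0.le.trans hs
  have hpos : 0 < s := hδ.trans_le hs
  have hsqs := Real.sqrt_pos.2 hpos
  have hss := Real.sqrt_le_sqrt hs
  have hM := tng_lin n (wb_tng (w := fun n => conj (φ n)) hB hs0 n) (tng_proj n) 1 (-s)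
  have hM1 : wB (fun n => conj (φ n)) B0 s n i j - s * proj n i j =
      (fun i j => 1 * wB (fun n => conj (φ n)) B0 s n i j + (-s) * proj n i j) i j := by ring
  rw [hM1]
  refine (ent_le n he hM i j).trans ?_
  rw [ale_lin, bec_lin, wb_ale hB hs0, wb_bec n he, ale_proj, bec_proj n he]
  have e1 : ((1 : ℝ) : ℂ) * (conj (φ n) * ale n (B0 s n)) + ((-s : ℝ) : ℂ) * 1 =
      (conj (φ n) * ale n (B0 s n) - (‖ale n (B0 s n)‖ : ℂ)) + (((‖ale n (B0 s n)‖ - s : ℝ)) : ℂ) := by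
    push_cast
    ring
  have e2 : ((1 : ℝ) : ℂ) * (conj (φ n) * bec n e (B0 s n)) + ((-s : ℝ) : ℂ) * 0 = conj (φ n) * bec n e (B0 s n) := by
    push_cast
    ring
  rw [e1, e2, norm_mul, Complex.norm_conj, hφ n, one_mul]
  have h4 := f11_dev hD hB h0 hφ hK hs n
  have h5 : ‖(((‖ale n (B0 s n)‖ - s : ℝ)) : ℂ)‖ ≤ 2 * C := by
    rw [Complex.norm_real, Real.norm_eq_abs, abs_of_nonneg (by linarith)]
    linarith
  have h6 : ‖ale n (B0 s n)‖ * (|K| / (s * Real.sqrt s)) ≤ |K| * (1 / Real.sqrt δ + 2 * C / (δ * Real.sqrt δ)) := by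
    calc ‖ale n (B0 s n)‖ * (|K| / (s * Real.sqrt s)) ≤ (s + 2 * C) * (|K| / (s * Real.sqrt s)) := by
          have : 0 ≤ |K| / (s * Real.sqrt s) := by positivity
          exact mul_le_mul_of_nonneg_right h2 this
      _ = |K| * (1 / Real.sqrt s + 2 * C / (s * Real.sqrt s)) := by
          field_simp
      _ ≤ |K| * (1 / Real.sqrt δ + 2 * C / (δ * Real.sqrt δ)) := by
          gcongr
  have h7 := norm_add_le (conj (φ n) * ale n (B0 s n) - (‖ale n (B0 s n)‖ : ℂ)) (((‖ale n (B0 s n)‖ - s : ℝ)) : ℂ)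
  linarith

theorem wb_im (hD : D.IsNull) (hA : D.AsympFlat) (hB : Frm D δ0 T0 B0) {δ : ℝ} (h0 : δ0 < δ) {K : ℝ} (hφ : ∀ n, ‖φ n‖ = 1)
    (hK : ∀ s, δ ≤ s → ∀ n : S2, ‖ale n (B0 s n) / (‖ale n (B0 s n)‖ : ℂ) - φ n‖ ≤ K / (s * Real.sqrt s)) (n : S2) :
    Tendsto (fun s => (ale n (wB (fun n => conj (φ n)) B0 s n)).im) atTop (𝓝 0) := by
  obtain ⟨C, hC, h⟩ := f11_z hD hA hB h0
  obtain ⟨e, he⟩ := exists_ut n
  have hlim : Tendsto (fun s : ℝ => |K| * (1 + 2 * C) / Real.sqrt s) atTop (𝓝 0) :=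
    tendsto_const_nhds.div_atTop Real.tendsto_sqrt_atTop
  refine squeeze_zero_norm' ?_ hlim
  filter_upwards [eventually_ge_atTop δ, eventually_ge_atTop 1] with s hs hs1
  obtain ⟨h1, h2, h3⟩ := h s hs n e he
  have hs0 : δ0 ≤ s := h0.le.trans hs
  have hpos : 0 < s := by linarith
  have hsqs := Real.sqrt_pos.2 hpos
  rw [wb_ale hB hs0]
  have e1 : (conj (φ n) * ale n (B0 s n)).im = (conj (φ n) * ale n (B0 s n) - (‖ale n (B0 s n)‖ : ℂ)).im := by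
    rw [Complex.sub_im, Complex.ofReal_im, sub_zero]
  rw [e1, Real.norm_eq_abs]
  refine (Complex.abs_im_le_norm _).trans ((f11_dev hD hB h0 hφ hK hs n).trans ?_)
  calc ‖ale n (B0 s n)‖ * (|K| / (s * Real.sqrt s)) ≤ (s * (1 + 2 * C)) * (|K| / (s * Real.sqrt s)) := by
        have : 0 ≤ |K| / (s * Real.sqrt s) := by positivity
        exact mul_le_mul_of_nonneg_right (h2.trans (by nlinarith)) this
    _ = |K| * (1 + 2 * C) / Real.sqrt s := by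
        field_simp

theorem f11_sym (hD : D.IsNull) {δ T : ℝ} {B : ℝ → E3 → Fin 3 → Fin 3 → ℝ} (hB : Frm D δ T B) (n : S2) :
    ale n (B T n) = (‖ale n (B T n)‖ : ℂ) := by
  have hT0 : 0 ≤ T := hB.pos.le.trans hB.lt.le
  have hpos := fz_pos hD hB hB.lt.le n
  have hz := fz_norm hB hB.lt.le n
  have hsym : ∀ i k, B T n i k = B T n k i := by
    intro i k
    rw [hB.top, hB.top, hD.g_symm T hT0 n i k, NullU.da_pc n i k]
  have hi : (ale n (B T n)).im = 0 := ale_sym (n : E3) hsym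
  have hhp : 0 < (∑ i, D.g T n i i) + 2 * D.dA T n := by
    unfold hh at hz
    have : 0 < ‖ale n (B T n)‖ ^ 2 := by positivity
    linarith
  have hpt : ∑ i, proj (n : E3) i i = 2 := NullU.BF2_prtr (by simp)
  have hr : 0 ≤ (ale n (B T n)).re := by
    show 0 ≤ (∑ i, B T n i i) / 2
    have : ∑ i, B T n i i = ((∑ i, D.g T n i i) + D.dA T n * ∑ i, proj (n : E3) i i) /
        Real.sqrt ((∑ i, D.g T n i i) + 2 * D.dA T n) := by
      simp only [hB.top]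
      rw [← Finset.sum_div, Finset.sum_add_distrib, Finset.mul_sum]
    rw [this, hpt]
    have h2 : 0 ≤ (∑ i, D.g T n i i) + D.dA T n * 2 := by linarith
    positivity
  have h1 : ale n (B T n) = (((ale n (B T n)).re : ℝ) : ℂ) := by
    apply Complex.ext
    · simp
    · simp [hi]
  have h2 : ‖ale n (B T n)‖ = (ale n (B T n)).re := by
    rw [h1, Complex.norm_real, Real.norm_eq_abs, abs_of_nonneg (by simpa using hr)]
    simp
  rw [h2]
  exact h1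

theorem wb_near (hD : D.IsNull) (hA : D.AsympFlat) (hB : Frm D δ0 T0 B0) {δ : ℝ} (h0 : δ0 < δ) {K : ℝ} (hφ : ∀ n, ‖φ n‖ = 1)
    (hK : ∀ s, δ ≤ s → ∀ n : S2, ‖ale n (B0 s n) / (‖ale n (B0 s n)‖ : ℂ) - φ n‖ ≤ K / (s * Real.sqrt s)) :
    ∃ C : ℝ, 0 ≤ C ∧ ∀ T, 1 ≤ T → ∀ B, Frm D δ T B → ∀ s, δ ≤ s → s ≤ T → ∀ n : S2, ∀ i j,
      |B s n i j - wB (fun n => conj (φ n)) B0 s n i j| ≤ C * (1 + s) / T := by
  obtain ⟨C, hC, h⟩ := f11_z hD hA hB h0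
  have hδ : 0 < δ := hB.pos.trans h0
  refine ⟨3 * C * |K|, by positivity, fun T hT B hBT s hs hsT n i j => ?_⟩
  obtain ⟨e, he⟩ := exists_ut n
  obtain ⟨w, hw1, hw⟩ := rot_const hD hBT hB h0 n
  have hδT : δ ≤ T := hs.trans hsT
  have hpos : 0 < s := hδ.trans_le hs
  -- the constant
  have hzT := fz_pos hD hB (h0.le.trans hδT) n
  have h1 : w * ale n (B0 T n) = (‖ale n (B0 T n)‖ : ℂ) := by
    have h2 := (hw T hδT).1
    rw [← h2, f11_sym hD hBT n, h2, norm_mul, hw1, one_mul]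
  have h3 : ‖w - conj (φ n)‖ ≤ |K| / (T * Real.sqrt T) := by
    have h4 := f11_dev hD hB h0 hφ hK hδT n
    rw [← h1] at h4
    have h5 : conj (φ n) * ale n (B0 T n) - w * ale n (B0 T n) = -((w - conj (φ n)) * ale n (B0 T n)) := by ring
    rw [h5, norm_neg, norm_mul, mul_comm] at h4
    exact le_of_mul_le_mul_left h4 hzT
  have h3' : ‖w - conj (φ n)‖ ≤ |K| / T := by
    refine h3.trans ?_
    have : 1 ≤ Real.sqrt T := Real.one_le_sqrt.2 hT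
    have hT0 : 0 < T := by linarith
    gcongr
    nlinarith
  obtain ⟨h6, h7, h8⟩ := h s hs n e he
  have hs0 : δ0 ≤ s := h0.le.trans hs
  have hM := tng_lin n (hBT.tng s hs n) (wb_tng (w := fun n => conj (φ n)) hB hs0 n) 1 (-1)
  have hM1 : B s n i j - wB (fun n => conj (φ n)) B0 s n i j =
      (fun i j => 1 * B s n i j + (-1) * wB (fun n => conj (φ n)) B0 s n i j) i j := by ring
  rw [hM1]
  refine (ent_le n he hM i j).trans ?_
  rw [ale_lin, bec_lin, wb_ale hB hs0, wb_bec n he, (hw s hs).1, (hw s hs).2 e he]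
  have e1 : ((1 : ℝ) : ℂ) * (w * ale n (B0 s n)) + ((-1 : ℝ) : ℂ) * (conj (φ n) * ale n (B0 s n)) =
      (w - conj (φ n)) * ale n (B0 s n) := by
    push_cast
    ring
  have e2 : ((1 : ℝ) : ℂ) * (w * bec n e (B0 s n)) + ((-1 : ℝ) : ℂ) * (conj (φ n) * bec n e (B0 s n)) =
      (w - conj (φ n)) * bec n e (B0 s n) := by
    push_cast
    ring
  rw [e1, e2, norm_mul, norm_mul]
  have hT0 : 0 < T := by linarith
  calc ‖w - conj (φ n)‖ * ‖ale n (B0 s n)‖ + ‖w - conj (φ n)‖ * ‖bec n e (B0 s n)‖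
      = ‖w - conj (φ n)‖ * (‖ale n (B0 s n)‖ + ‖bec n e (B0 s n)‖) := by ring
    _ ≤ (|K| / T) * (3 * C * (1 + s)) := by
        refine mul_le_mul h3' ?_ (by positivity) (by positivity)
        nlinarith
    _ = 3 * C * |K| * (1 + s) / T := by ring

end H17S.Fr
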