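import Pool.Agent.Lib.H17S.F.F2
import Pool.Agent.Lib.H17U.TC1
import Pool.Agent.Lib.H74Q.E0

set_option autoImplicit false

/-!
Chunk F12 (M, many small). Algebra of the Lie derivative `LD j` along the rotation fields: `LD j F = rl j F - K_j F + F K_j`, `K_j v = e_j × v`, `(K_j)_(i m) = kx j i m`, antisymmetric (`kx_anti`).
Library: `NullU.TC1_rl_mul`, `TC1_rl_sub`, `TC1_rl_sum`, `TC1_rl_coord`, `NullU.TC0_sym`, `NullU.AS2_rotv`, `NullQ.hr_val`, `NullQ.hr_uni` (for `rl_congr`: two smooth functions which agree on the sphere have the same rotation derivatives).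
`ld_tng`: differentiate `∑ k, F y i k * y k = 0` (on the sphere, `rl_congr` with the zero function) along `rotv j`: `∑ (rl j F_ik) n_k + ∑ F_ik (e_j × n)_k = 0`, and `(e_j × n)_k = ∑ m, kx j k m * n m` (`kx_rotv`); the terms with `K_j`:
`- ∑_k ∑_m kx j i m F m k n k = 0`, `+ ∑_k ∑_m F i m kx j m k n k = ∑ F i m (e_j × n)_m`. Left version in the same way.
`ld_sym`: `rl_congr` for the entries `(i,k)` and `(k,i)`, `kx_anti`. `ld_mul`: product rule, the terms `F K_j G` cancel. `ld_tp`: `kx_anti`. `ld_proj`: `rl j (n i n k) = (e_j × n)_i n_k + n_i (e_j × n)_k` and `K_j P - P K_j` with `P = 1 - n n`.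
`ld_der`: `NullU.TC0_sym` for the smooth function `(t, y) ↦ B t y i k` (`dB B s y i k = deriv (fun t => B t y i k) s`), and `NullU.TC0_dt`, `HasDerivAt` of the entries for the algebraic terms. All other statements: linearity.
-/

open MeasureTheory Filter Topology Set
open scoped ContDiff ComplexConjugate

namespace H17S.Fr

open NullPen (E3 S2 sm proj pd MatterData NullData)
open NullU (Frm Tng dtB rotB crs cf mh dB rl hh)

theorem kx_anti (j i m : Fin 3) : kx j i m = - kx j m i := by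
  fin_cases j <;> fin_cases i <;> fin_cases m <;> simp [kx]

theorem kx_abs (j i m : Fin 3) : |kx j i m| ≤ 1 := by
  unfold kx
  split_ifs <;> simp

theorem kx_rotv (j : Fin 3) (n : E3) (k : Fin 3) : NShell.rotv j n k = ∑ m, kx j k m * n m := by
  rw [NullU.AS2_rotv]
  fin_cases j <;> fin_cases k <;> simp [kx]

theorem rl_congr {F G : E3 → ℝ} (hF : ContDiff ℝ ∞ F) (hG : ContDiff ℝ ∞ G) (h : ∀ n : S2, F n = G n) (j : Fin 3) (n : S2) :
    rl j F n = rl j G n := by
  have h1 := NullQ.hr_val (G := F) fun n => hF.differentiable (by simp) _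
  have h2 := NullQ.hr_val (G := G) fun n => hG.differentiable (by simp) _
  have e : (fun n : S2 => F n) = fun n : S2 => G n := funext h
  rw [e] at h1
  exact NullQ.hr_uni h1 h2 j n

theorem f12_df {F : E3 → Fin 3 → Fin 3 → ℝ} (hF : ∀ i k, ContDiff ℝ ∞ (fun y => F y i k)) (i k : Fin 3) (n : E3) :
    DifferentiableAt ℝ (fun y => F y i k) n := (hF i k).differentiable (by simp) n

theorem f12_dc (i : Fin 3) (n : E3) : DifferentiableAt ℝ (fun y : E3 => y i) n :=
  (NullU.AS2_coord i n).differentiableAt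

theorem f12_cc (i : Fin 3) : ContDiff ℝ ∞ (fun y : E3 => y i) := NullU.BF5_coord i

theorem f12_rotv (j : Fin 3) (n : E3) (k : Fin 3) : rl j (fun y => y k) n = ∑ m, kx j k m * n m := by
  rw [← kx_rotv]
  unfold rl
  rw [(NullU.AS2_coord k n).fderiv]
  rfl

theorem ld_tng {F : E3 → Fin 3 → Fin 3 → ℝ} (hF : ∀ i k, ContDiff ℝ ∞ (fun y => F y i k)) (hT : ∀ n : S2, Tng n (F n)) (j : Fin 3)
    (n : S2) : Tng n (LD j F n) := by
  have hd := fun i k => f12_df hF i k n
  have hc := fun i => f12_dc i n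
  refine ⟨fun i => ?_, fun k => ?_⟩
  · have h0 : rl j (fun y => ∑ k, F y i k * y k) n = rl j (fun _ => (0 : ℝ)) n :=
      rl_congr (ContDiff.sum fun k _ => (hF i k).mul (f12_cc k)) contDiff_const (fun m => (hT m).r i) j n
    rw [NullU.TC1_rl_sum fun k => (hd i k).fun_mul (hc k)] at h0
    simp only [NullU.TC1_rl_mul (hd i _) (hc _), f12_rotv] at h0
    have hz : rl j (fun _ : E3 => (0 : ℝ)) n = 0 := by
      unfold rl
      simp
    rw [hz] at h0
    have r0 := (hT n).r 0
    have r1 := (hT n).r 1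
    have r2 := (hT n).r 2
    unfold LD
    simp only [Fin.sum_univ_three] at *
    linear_combination h0 - kx j i 0 * r0 - kx j i 1 * r1 - kx j i 2 * r2
  · have h0 : rl j (fun y => ∑ i, y i * F y i k) n = rl j (fun _ => (0 : ℝ)) n :=
      rl_congr (ContDiff.sum fun i _ => (f12_cc i).mul (hF i k)) contDiff_const (fun m => (hT m).l k) j n
    rw [NullU.TC1_rl_sum fun i => (hc i).fun_mul (hd i k)] at h0
    simp only [NullU.TC1_rl_mul (hc _) (hd _ k), f12_rotv] at h0
    have hz : rl j (fun _ : E3 => (0 : ℝ)) n = 0 := by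
      unfold rl
      simp
    rw [hz] at h0
    have l0 := (hT n).l 0
    have l1 := (hT n).l 1
    have l2 := (hT n).l 2
    have a := kx_anti j
    unfold LD
    simp only [Fin.sum_univ_three] at *
    rw [a 1 0, a 2 0, a 2 1] at *
    have a00 : kx j 0 0 = 0 := by have := a 0 0; linarith
    have a11 : kx j 1 1 = 0 := by have := a 1 1; linarith
    have a22 : kx j 2 2 = 0 := by have := a 2 2; linarith
    linear_combination h0 + kx j 0 k * l0 + kx j 1 k * l1 + kx j 2 k * l2 -
      2 * (n : E3) 0 * F n 0 k * a00 - 2 * (n : E3) 1 * F n 1 k * a11 - 2 * (n : E3) 2 * F n 2 k * a22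

theorem ld_congr {F G : E3 → Fin 3 → Fin 3 → ℝ} (hF : ∀ i k, ContDiff ℝ ∞ (fun y => F y i k))
    (hG : ∀ i k, ContDiff ℝ ∞ (fun y => G y i k)) (h : ∀ n : S2, ∀ i k, F n i k = G n i k) (j : Fin 3) (n : S2) :
    LD j F n = LD j G n := by
  funext i k
  unfold LD
  rw [rl_congr (hF i k) (hG i k) (fun m => h m i k) j n]
  simp only [h n]

theorem ld_sym {F : E3 → Fin 3 → Fin 3 → ℝ} (hF : ∀ i k, ContDiff ℝ ∞ (fun y => F y i k)) (h : ∀ n : S2, ∀ i k, F n i k = F n k i)
    (j : Fin 3) (n : S2) (i k : Fin 3) : LD j F n i k = LD j F n k i := by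
  unfold LD
  rw [rl_congr (hF i k) (hF k i) (fun m => h m i k) j n]
  have h1 : ∑ m, kx j i m * F n m k = - ∑ m, F n k m * kx j m i := by
    rw [← Finset.sum_neg_distrib]
    refine Finset.sum_congr rfl fun m _ => ?_
    rw [kx_anti j i m, h n m k]
    ring
  have h2 : ∑ m, F n i m * kx j m k = - ∑ m, kx j k m * F n m i := by
    rw [← Finset.sum_neg_distrib]
    refine Finset.sum_congr rfl fun m _ => ?_
    rw [kx_anti j m k, h n i m]
    ring
  rw [h1, h2]
  ring

theorem ld_mul {F G : E3 → Fin 3 → Fin 3 → ℝ} (hF : ∀ i k, ContDiff ℝ ∞ (fun y => F y i k))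
    (hG : ∀ i k, ContDiff ℝ ∞ (fun y => G y i k)) (j : Fin 3) (n : E3) (i k : Fin 3) :
    LD j (fun y => mm3 (F y) (G y)) n i k = mm3 (LD j F n) (G n) i k + mm3 (F n) (LD j G n) i k := by
  have hf := fun i k => f12_df hF i k n
  have hg := fun i k => f12_df hG i k n
  have h1 : rl j (fun y => mm3 (F y) (G y) i k) n =
      ∑ m, (rl j (fun y => F y i m) n * G n m k + F n i m * rl j (fun y => G y m k) n) := by
    unfold mm3
    rw [NullU.TC1_rl_sum fun m => (hf i m).fun_mul (hg m k)]
    refine Finset.sum_congr rfl fun m _ => ?_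
    rw [NullU.TC1_rl_mul (hf i m) (hg m k)]
  unfold LD
  rw [h1]
  unfold mm3
  simp only [Fin.sum_univ_three]
  ring

theorem ld_tp (F : E3 → Fin 3 → Fin 3 → ℝ) (j : Fin 3) (n : E3) : LD j (fun y => tp (F y)) n = tp (LD j F n) := by
  funext i k
  unfold tp LD
  have h1 : ∑ m, kx j i m * F n k m = - ∑ m, F n k m * kx j m i := by
    rw [← Finset.sum_neg_distrib]
    refine Finset.sum_congr rfl fun m _ => ?_
    rw [kx_anti j i m]
    ring
  have h2 : ∑ m, F n m i * kx j m k = - ∑ m, kx j k m * F n m i := by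
    rw [← Finset.sum_neg_distrib]
    refine Finset.sum_congr rfl fun m _ => ?_
    rw [kx_anti j m k]
    ring
  rw [h1, h2]
  ring

theorem ld_proj (j : Fin 3) (n : E3) (i k : Fin 3) : LD j (fun y => proj y) n i k = 0 := by
  unfold LD
  have h1 : rl j (fun y => proj y i k) n = -((∑ m, kx j i m * n m) * n k + n i * ∑ m, kx j k m * n m) := by
    unfold rl
    rw [NullU.AS2_fproj, kx_rotv, kx_rotv]
  rw [h1]
  have a := kx_anti j
  have a00 : kx j 0 0 = 0 := by have := a 0 0; linarith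
  have a11 : kx j 1 1 = 0 := by have := a 1 1; linarith
  have a22 : kx j 2 2 = 0 := by have := a 2 2; linarith
  have h10 := a 1 0
  have h20 := a 2 0
  have h21 := a 2 1
  simp only [Fin.sum_univ_three]
  unfold proj
  fin_cases i <;> fin_cases k <;> simp [a00, a11, a22, h10, h20, h21] <;> ring

theorem ld_der {B : ℝ → E3 → Fin 3 → Fin 3 → ℝ} (hB : ∀ i j, ContDiff ℝ ∞ (fun p : ℝ × E3 => B p.1 p.2 i j)) (j : Fin 3) (s : ℝ) (n : E3)
    (i k : Fin 3) : HasDerivAt (fun t => LD j (B t) n i k) (LD j (dB B s) n i k) s := by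
  have h1 : HasDerivAt (fun t => rl j (fun y => B t y i k) n) (rl j (fun y => dB B s y i k) n) s :=
    NullU.TC0_sym (hB i k) s n j
  have h2 : ∀ a b, HasDerivAt (fun t => B t n a b) (dB B s n a b) s := by
    intro a b
    have h3 := NullU.TC0_dt (hB a b) s n
    unfold dB
    rw [h3.deriv]
    exact h3
  unfold LD
  exact h1.sub ((HasDerivAt.fun_sum fun m _ => (h2 m k).const_mul (kx j i m)).sub
    (HasDerivAt.fun_sum fun m _ => (h2 i m).mul_const (kx j m k)))

end H17S.Fr
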