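import Pool.Agent.Lib.H17S.F.F6
import Pool.Agent.Lib.H17S.F.F12

set_option autoImplicit false

/-!
Chunk F13 (M). The Lie derivative of a parallel frame. Notation at `(s, n)`: `z = ale n (B s n)`, `b = bec n e (B s n)`, `x = ale n (LD j (B s) n)`, `y = bec n e (LD j (B s) n)`, `z1, b1` the same for `dB B s` in place of `B s`,
`x1 = ale n (LD j (dB B s) n)`, `y1 = bec n e (LD j (dB B s) n)`, `a = dA`, `γ = gm`, `η = et`. Smoothness: `NullU.tc3_Bsm`, `NullU.tc3_dBsm`.
(1) `sg_gram`: on the sphere `D.g s = mm3 (tp (B s)) (B s)` (`Frm.gram`), so by `ld_congr`, `ld_mul`, `ld_tp`: `LD j (D.g s) n = mm3 (tp W) B + mm3 (tp B) W`, `W = LD j (B s) n` tangential (`ld_tng`). `ale_mul`, `bec_mul`, `ale_tp`, `bec_tp`: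
`ale n (LD g) = 2 Re (conj z x + b conj y)` (real), `bec n e (LD g) = 2 (conj z y + b conj x)`. With `a sg = Im (conj z x + b conj y)`: `conj z x + b conj y = γ/2 + I a sg`.
(2) `sg_x`, `sg_y`: `z (conj z x + b conj y) - b conj (conj z y + b conj x) = (‖z‖^2 - ‖b‖^2) x = a x`, `z (conj z y + b conj x) - b conj (conj z x + b conj y) = a y` (`dtB_ab`, `Frm.dt`).
(3) `sg_der`: `mm3 (tp (B s)) (dB B s)` is symmetric on the sphere for `s > δ` (`Frm.sym`), so (`ld_sym`, `ld_mul`, `ld_tp`) `mm3 (tp W) (dB) + mm3 (tp B) (LD (dB))` is symmetric: `Im (conj x z1 + y conj b1 + conj z x1 + b conj y1) = 0` (`ale_sym`).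
`x, y` are differentiable in `s` with derivatives `x1, y1` (`ale_der`, `bec_der`, `ld_der`). So `(Im (conj z x + b conj y))' = Im (conj z1 x + conj z x1 + b1 conj y + b conj y1) = 2 Im (conj z1 x + b1 conj y)`. `fr_par`: `z1 = (u/2) z + m conj b`, `b1 = (u/2) b + m conj z`; hence
it is `u Im (conj z x + b conj y) + 2 Im (conj m b x + m conj z conj y) = u a sg + 2 Im (m conj (y z - x b))`, and `a' = u a` (`NullU.dA_der`): `sg' = 2 Im (m conj (y z - x b))/a`.
By (2) `a (y z - x b) = (z^2 η - 2 z b γ + b^2 conj η)/2`. So `sg' = Im (m conj (z^2 η - 2 z b γ + b^2 conj η))/a^2`.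
(4) `sg_top` (`s = T`): `B T` is symmetric on the sphere (`Frm.top`, `g_symm`), so `W` is symmetric (`ld_sym`): `Im z = Im x = 0` (`ale_sym`). Then `a sg = Im (b conj y)`, and `conj z y + b conj x = η/2` gives `b conj η/2 = z b conj y + ‖b‖^2 x`, so `z Im (b conj y) = Im (b conj η)/2`:
`2 a z sg = Im (b conj η)`, `|z| = ‖z‖`.
-/

open MeasureTheory Filter Topology Set
open scoped ContDiff ComplexConjugate

namespace H17S.Fr

open NullPen (E3 S2 sm proj pd MatterData NullData)
open NullU (Frm Tng dtB rotB crs cf mh dB rl hh)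

variable {D : MatterData} {δ T : ℝ} {B : ℝ → E3 → Fin 3 → Fin 3 → ℝ}

theorem f13_W (hB : Frm D δ T B) {s : ℝ} (hs : δ ≤ s) (j : Fin 3) (n : S2) : Tng n (LD j (B s) n) :=
  ld_tng (fun i k => NullU.tc3_Bsm hB s i k) (fun m => hB.tng s hs m) j n

theorem f13_mmsm {F G : E3 → Fin 3 → Fin 3 → ℝ} (hF : ∀ i k, ContDiff ℝ ∞ (fun y => F y i k))
    (hG : ∀ i k, ContDiff ℝ ∞ (fun y => G y i k)) (i k : Fin 3) : ContDiff ℝ ∞ (fun y => mm3 (F y) (G y) i k) := by
  unfold mm3
  exact ContDiff.sum fun m _ => (hF i m).mul (hG m k)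

theorem f13_gsm (hD : D.IsNull) (s : ℝ) (i k : Fin 3) : ContDiff ℝ ∞ (fun y => D.g s y i k) :=
  NullU.tc3_at (L := fun p => D.g p.1 p.2 i k) (hD.smooth_g i k) s

theorem f13_LG (hD : D.IsNull) (hB : Frm D δ T B) {s : ℝ} (hs : δ ≤ s) (j : Fin 3) (n : S2) (i k : Fin 3) :
    LD j (D.g s) n i k = mm3 (tp (LD j (B s) n)) (B s n) i k + mm3 (tp (B s n)) (LD j (B s) n) i k := by
  have hb := fun i k => NullU.tc3_Bsm hB s i k
  have ht : ∀ i k, ContDiff ℝ ∞ (fun y => tp (B s y) i k) := fun i k => hb k i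
  have h1 : LD j (D.g s) n = LD j (fun y => mm3 (tp (B s y)) (B s y)) n :=
    ld_congr (fun i k => f13_gsm hD s i k) (fun i k => f13_mmsm ht hb i k) (fun m a b => (hB.gram s hs m a b).symm) j n
  rw [h1, ld_mul ht hb, ld_tp]

theorem f13_ag (hD : D.IsNull) (hB : Frm D δ T B) {s : ℝ} (hs : δ ≤ s) (j : Fin 3) (n : S2) {e : Fin 3 → ℝ} (he : Ut n e) :
    ale n (LD j (D.g s) n) = conj (ale n (LD j (B s) n)) * ale n (B s n) + bec n e (LD j (B s) n) * conj (bec n e (B s n)) +
      (conj (ale n (B s n)) * ale n (LD j (B s) n) + bec n e (B s n) * conj (bec n e (LD j (B s) n))) := by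
  have hb := hB.tng s hs n
  have hw := f13_W hB hs j n
  have e1 : LD j (D.g s) n = fun i k => 1 * mm3 (tp (LD j (B s) n)) (B s n) i k + 1 * mm3 (tp (B s n)) (LD j (B s) n) i k := by
    funext i k
    rw [f13_LG hD hB hs]
    ring
  rw [e1, ale_lin, ale_mul n he (tng_tp n hw) hb, ale_mul n he (tng_tp n hb) hw, ale_tp, ale_tp, bec_tp, bec_tp]
  push_cast
  ring

theorem f13_bg (hD : D.IsNull) (hB : Frm D δ T B) {s : ℝ} (hs : δ ≤ s) (j : Fin 3) (n : S2) {e : Fin 3 → ℝ} (he : Ut n e) :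
    bec n e (LD j (D.g s) n) = 2 * (conj (ale n (B s n)) * bec n e (LD j (B s) n) + bec n e (B s n) * conj (ale n (LD j (B s) n))) := by
  have hb := hB.tng s hs n
  have hw := f13_W hB hs j n
  have e1 : LD j (D.g s) n = fun i k => 1 * mm3 (tp (LD j (B s) n)) (B s n) i k + 1 * mm3 (tp (B s n)) (LD j (B s) n) i k := by
    funext i k
    rw [f13_LG hD hB hs]
    ring
  rw [e1, bec_lin, bec_mul n he (tng_tp n hw) hb, bec_mul n he (tng_tp n hb) hw, ale_tp, ale_tp, bec_tp, bec_tp]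
  push_cast
  ring

theorem f13_dA (hB : Frm D δ T B) {s : ℝ} (hs : δ ≤ s) (n : S2) {e : Fin 3 → ℝ} (he : Ut n e) :
    (D.dA s n : ℂ) = ale n (B s n) * conj (ale n (B s n)) - bec n e (B s n) * conj (bec n e (B s n)) := by
  rw [← hB.dt s hs n, dtB_ab n he (hB.tng s hs n), Complex.mul_conj', Complex.mul_conj']
  push_cast
  ring

theorem f13_pos (hD : D.IsNull) (hB : Frm D δ T B) {s : ℝ} (hs : δ ≤ s) (n : S2) : 0 < D.dA s n :=
  NullU.dA_pos hD n (hB.pos.le.trans hs)

theorem sg_gram (hD : D.IsNull) (hB : Frm D δ T B) {s : ℝ} (hs : δ ≤ s) (j : Fin 3) (n : S2) {e : Fin 3 → ℝ} (he : Ut n e) :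
    conj (ale n (B s n)) * ale n (LD j (B s) n) + bec n e (B s n) * conj (bec n e (LD j (B s) n)) =
      ((gm D j n s / 2 : ℝ) : ℂ) + ((D.dA s n * sg D B j n e s : ℝ) : ℂ) * Complex.I ∧
    conj (ale n (B s n)) * bec n e (LD j (B s) n) + bec n e (B s n) * conj (ale n (LD j (B s) n)) = et D j n e s / 2 := by
  have ha := (f13_pos hD hB hs n).ne'
  constructor
  · have hg : gm D j n s = 2 * (conj (ale n (B s n)) * ale n (LD j (B s) n) +
        bec n e (B s n) * conj (bec n e (LD j (B s) n))).re := by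
      unfold gm
      rw [f13_ag hD hB hs j n he]
      simp only [Complex.add_re, Complex.mul_re, Complex.conj_re, Complex.conj_im]
      ring
    have hsg : D.dA s n * sg D B j n e s = (conj (ale n (B s n)) * ale n (LD j (B s) n) +
        bec n e (B s n) * conj (bec n e (LD j (B s) n))).im := by
      unfold sg
      field_simp
    rw [hg, hsg]
    apply Complex.ext
    · simp only [Complex.add_re, Complex.mul_re, Complex.ofReal_re, Complex.ofReal_im, Complex.I_re, Complex.I_im]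
      ring
    · simp only [Complex.add_im, Complex.mul_im, Complex.ofReal_re, Complex.ofReal_im, Complex.I_re, Complex.I_im]
      ring
  · unfold et
    rw [f13_bg hD hB hs j n he]
    ring

theorem sg_x (hD : D.IsNull) (hB : Frm D δ T B) {s : ℝ} (hs : δ ≤ s) (j : Fin 3) (n : S2) {e : Fin 3 → ℝ} (he : Ut n e) :
    (D.dA s n : ℂ) * ale n (LD j (B s) n) =
      ale n (B s n) * (((gm D j n s / 2 : ℝ) : ℂ) + ((D.dA s n * sg D B j n e s : ℝ) : ℂ) * Complex.I) -
        bec n e (B s n) * conj (et D j n e s) / 2 := by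
  obtain ⟨hP, hR⟩ := sg_gram hD hB hs j n he
  have h_a := f13_dA hB hs n he
  have hRc := congrArg conj hR
  simp only [map_add, map_mul, Complex.conj_conj, map_div₀] at hRc
  have h2 : conj (2 : ℂ) = 2 := Complex.conj_ofNat 2
  rw [h2] at hRc
  linear_combination ale n (LD j (B s) n) * h_a + ale n (B s n) * hP - bec n e (B s n) * hRc

theorem sg_y (hD : D.IsNull) (hB : Frm D δ T B) {s : ℝ} (hs : δ ≤ s) (j : Fin 3) (n : S2) {e : Fin 3 → ℝ} (he : Ut n e) :
    (D.dA s n : ℂ) * bec n e (LD j (B s) n) =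
      ale n (B s n) * et D j n e s / 2 -
        bec n e (B s n) * (((gm D j n s / 2 : ℝ) : ℂ) - ((D.dA s n * sg D B j n e s : ℝ) : ℂ) * Complex.I) := by
  obtain ⟨hP, hR⟩ := sg_gram hD hB hs j n he
  have h_a := f13_dA hB hs n he
  have hPc := congrArg conj hP
  simp only [map_add, map_mul, Complex.conj_conj, Complex.conj_ofReal, Complex.conj_I] at hPc
  linear_combination bec n e (LD j (B s) n) * h_a + ale n (B s n) * hR - bec n e (B s n) * hPc

theorem f13_alg {z b x y m z1 b1 x1 y1 η : ℂ} {u a γ : ℝ} (ha : (a : ℂ) = z * conj z - b * conj b)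
    (hS : (conj x * z1 + y * conj b1 + (conj z * x1 + b * conj y1)).im = 0)
    (hz : z1 = ((u / 2 : ℝ) : ℂ) * z + m * conj b) (hb : b1 = ((u / 2 : ℝ) : ℂ) * b + m * conj z)
    (hR : conj z * y + b * conj x = η / 2) (hγ : (conj z * x + b * conj y).re = γ / 2) :
    (conj z1 * x + conj z * x1 + (b1 * conj y + b * conj y1)).im * a - (conj z * x + b * conj y).im * (u * a) =
      (m * conj (z ^ 2 * η - 2 * z * b * (γ : ℂ) + b ^ 2 * conj η)).im := by
  have hη : η = 2 * (conj z * y + b * conj x) := by rw [hR]; ring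
  have hγ' : γ = 2 * (conj z * x + b * conj y).re := by rw [hγ]; ring
  have ha' : a = z.re ^ 2 + z.im ^ 2 - b.re ^ 2 - b.im ^ 2 := by
    have h := congrArg Complex.re ha
    simp only [Complex.ofReal_re, Complex.sub_re, Complex.mul_re, Complex.conj_re, Complex.conj_im] at h
    rw [h]
    ring
  subst hη hγ' hz hb
  rw [ha']
  obtain ⟨zr, zi⟩ := z
  obtain ⟨br, bi⟩ := b
  obtain ⟨xr, xi⟩ := x
  obtain ⟨yr, yi⟩ := y
  obtain ⟨mr, mi⟩ := m
  obtain ⟨pr, qi⟩ := x1
  obtain ⟨rr, ti⟩ := y1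
  simp only [pow_two, Complex.add_re, Complex.add_im, Complex.sub_re, Complex.sub_im, Complex.mul_re, Complex.mul_im, Complex.conj_re,
    Complex.conj_im, Complex.ofReal_re, Complex.ofReal_im, map_add, map_mul, map_sub, Complex.re_ofNat, Complex.im_ofNat] at hS ⊢
  linear_combination (zr ^ 2 + zi ^ 2 - br ^ 2 - bi ^ 2) * hS

theorem f13_conj {f : ℝ → ℂ} {f' : ℂ} {s : ℝ} (h : HasDerivAt f f' s) : HasDerivAt (fun t => conj (f t)) (conj f') s :=
  (Complex.conjCLE : ℂ ≃L[ℝ] ℂ).toContinuousLinearMap.hasFDerivAt.comp_hasDerivAt s h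

theorem f13_im {f : ℝ → ℂ} {f' : ℂ} {s : ℝ} (h : HasDerivAt f f' s) : HasDerivAt (fun t => (f t).im) f'.im s :=
  Complex.imCLM.hasFDerivAt.comp_hasDerivAt s h

theorem sg_der (hD : D.IsNull) (hB : Frm D δ T B) {s : ℝ} (hs : δ < s) (j : Fin 3) (n : S2) {e : Fin 3 → ℝ} (he : Ut n e) :
    ∃ m : ℂ, ‖m‖ ^ 2 = kk D s n ∧ HasDerivAt (fun t => sg D B j n e t)
      ((m * conj (ale n (B s n) ^ 2 * et D j n e s - 2 * ale n (B s n) * bec n e (B s n) * (gm D j n s : ℂ) +
        bec n e (B s n) ^ 2 * conj (et D j n e s))).im / D.dA s n ^ 2) s := by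
  obtain ⟨m, hm, hz1, hb1⟩ := fr_par hD hB hs n he
  refine ⟨m, hm, ?_⟩
  have ha := (f13_pos hD hB hs.le n).ne'
  have hb := fun i k => NullU.tc3_Bsm hB s i k
  have hdb := fun i k => NullU.tc3_dBsm hB s i k
  have ht : ∀ i k, ContDiff ℝ ∞ (fun y => tp (B s y) i k) := fun i k => hb k i
  have tb := hB.tng s hs.le n
  have tw := f13_W hB hs.le j n
  have tdb : ∀ m : S2, Tng m (dB B s m) := fun m => NullU.dB_tng hB hs m
  have tdw : Tng n (LD j (dB B s) n) := ld_tng hdb tdb j n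
  -- symmetry
  have hsym : ∀ i k, LD j (fun y => mm3 (tp (B s y)) (dB B s y)) n i k = LD j (fun y => mm3 (tp (B s y)) (dB B s y)) n k i := by
    intro i k
    refine ld_sym (fun i k => f13_mmsm ht hdb i k) (fun m a b => ?_) j n i k
    have := hB.sym s hs m a b
    show ∑ k, B s m k a * dB B s m k b = ∑ k, B s m k b * dB B s m k a
    rw [this]
    exact Finset.sum_congr rfl fun k _ => mul_comm _ _
  have hS0 := ale_sym (n : E3) hsym
  have e1 : LD j (fun y => mm3 (tp (B s y)) (dB B s y)) n =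
      fun i k => 1 * mm3 (tp (LD j (B s) n)) (dB B s n) i k + 1 * mm3 (tp (B s n)) (LD j (dB B s) n) i k := by
    funext i k
    rw [ld_mul ht hdb, ld_tp]
    ring
  rw [e1, ale_lin, ale_mul n he (tng_tp n tw) (tdb n), ale_mul n he (tng_tp n tb) tdw, ale_tp, ale_tp, bec_tp, bec_tp] at hS0
  have hS : (conj (ale n (LD j (B s) n)) * ale n (dB B s n) + bec n e (LD j (B s) n) * conj (bec n e (dB B s n)) +
      (conj (ale n (B s n)) * ale n (LD j (dB B s) n) + bec n e (B s n) * conj (bec n e (LD j (dB B s) n)))).im = 0 := by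
    rw [← hS0]
    push_cast
    ring_nf
  -- derivatives
  have dz := fz_der hB s n
  have db := fb_der hB s n e
  have dx : HasDerivAt (fun t => ale n (LD j (B t) n)) (ale n (LD j (dB B s) n)) s :=
    ale_der n fun i k => ld_der hB.sm j s n i k
  have dy : HasDerivAt (fun t => bec n e (LD j (B t) n)) (bec n e (LD j (dB B s) n)) s :=
    bec_der n e fun i k => ld_der hB.sm j s n i k
  have dA := NullU.dA_der hD n (hB.pos.trans hs)
  have d1 := (f13_im (((f13_conj dz).mul dx).add (db.mul (f13_conj dy)))).div dA ha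
  obtain ⟨hP, hR⟩ := sg_gram hD hB hs.le j n he
  have hγ : (conj (ale n (B s n)) * ale n (LD j (B s) n) + bec n e (B s n) * conj (bec n e (LD j (B s) n))).re =
      gm D j n s / 2 := by
    rw [hP]
    simp only [Complex.add_re, Complex.mul_re, Complex.ofReal_re, Complex.ofReal_im, Complex.I_re, Complex.I_im]
    ring
  have key := f13_alg (f13_dA hB hs.le n he) hS hz1 hb1 hR hγ
  rw [← key]
  exact d1

theorem sg_top (hD : D.IsNull) (hB : Frm D δ T B) (j : Fin 3) (n : S2) {e : Fin 3 → ℝ} (he : Ut n e) :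
    |sg D B j n e T| * (2 * D.dA T n * ‖ale n (B T n)‖) ≤ ‖bec n e (B T n)‖ * ‖et D j n e T‖ := by
  have hT : δ ≤ T := hB.lt.le
  have hT0 : 0 ≤ T := hB.pos.le.trans hT
  have ha := f13_pos hD hB hT n
  have hsym : ∀ m : S2, ∀ i k, B T m i k = B T m k i := by
    intro m i k
    rw [hB.top, hB.top, hD.g_symm T hT0 m i k, NullU.da_pc m i k]
  have hz : (ale n (B T n)).im = 0 := ale_sym (n : E3) (hsym n)
  have hx : (ale n (LD j (B T) n)).im = 0 := ale_sym (n : E3) fun i k => ld_sym (fun i k => NullU.tc3_Bsm hB T i k) hsym j n i k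
  obtain ⟨hP, hR⟩ := sg_gram hD hB hT j n he
  have h1 : D.dA T n * sg D B j n e T = (bec n e (B T n) * conj (bec n e (LD j (B T) n))).im := by
    have h := congrArg Complex.im hP
    simp only [Complex.add_im, Complex.mul_im, Complex.ofReal_re, Complex.ofReal_im, Complex.I_re, Complex.I_im, Complex.conj_re,
      Complex.conj_im, hz, hx] at h ⊢
    linarith
  have h2 : (bec n e (B T n) * conj (et D j n e T)).im =
      2 * ((ale n (B T n)).re * (bec n e (B T n) * conj (bec n e (LD j (B T) n))).im) := by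
    have hη : et D j n e T = 2 * (conj (ale n (B T n)) * bec n e (LD j (B T) n) +
        bec n e (B T n) * conj (ale n (LD j (B T) n))) := by rw [hR]; ring
    rw [hη]
    simp only [Complex.add_re, Complex.add_im, Complex.mul_re, Complex.mul_im, Complex.conj_re, Complex.conj_im, hz, hx,
      Complex.re_ofNat, Complex.im_ofNat]
    ring
  have hzn : ‖ale n (B T n)‖ = |(ale n (B T n)).re| := by
    have h3 : ale n (B T n) = (((ale n (B T n)).re : ℝ) : ℂ) := by
      apply Complex.ext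
      · simp
      · simp [hz]
    rw [h3, Complex.norm_real, Real.norm_eq_abs]
    simp
  have h3 : |sg D B j n e T| * (2 * D.dA T n * ‖ale n (B T n)‖) = |(bec n e (B T n) * conj (et D j n e T)).im| := by
    rw [h2, ← h1, hzn]
    rw [abs_mul, abs_mul, abs_mul, abs_of_pos ha, abs_of_pos (two_pos : (0 : ℝ) < 2)]
    ring
  rw [h3]
  calc |(bec n e (B T n) * conj (et D j n e T)).im| ≤ ‖bec n e (B T n) * conj (et D j n e T)‖ := Complex.abs_im_le_norm _
    _ = ‖bec n e (B T n)‖ * ‖et D j n e T‖ := by rw [norm_mul, Complex.norm_conj]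

end H17S.Fr
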