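import Pool.Agent.Lib.H17S.F.F3
import Pool.Agent.Lib.H17S.F.F12

set_option autoImplicit false

/-!
Chunk F7 (M). Bounds for the data, uniform on `s >= δ`.
Proof. `rs_bd` gives `s <= sqrt dA <= s + C0 <= (1 + C0/δ) s`. `tr g - 2 dA`: for `s >= 1` `NullU.asy1`; on the compact set `[δ, 1] × S2` it is continuous (`NullU.da_gc`, `NullU.da_dAc`), hence bounded; nonnegative: `NullU.tr_ge`.
`LD`: for `s >= 1`, with `K = g - s^2 proj` (`|K i k| <= C0 s`, first part of `AsympFlat`) and `NullU.AS2_K` (the second part of `AsympFlat` is its hypothesis; `v = rotv j n`: `NullU.AS2_vn`, `NullU.AS2_v2`):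
`|rl j (g i k) - s^2 rl j (proj i k)| <= C0 s` (`rl j F n = fderiv F n (rotv j n)` by definition). By `LD_proj` (F12: `LD j proj n = 0`, i.e. `rl j (proj i k) = ∑ kx proj - ∑ proj kx`)
`LD j g n i k = (rl j (g i k) - s^2 rl j (proj i k)) - (∑ m, kx j i m K m k - ∑ m, K i m kx j m k)`, and `|kx| <= 1`: `|LD| <= 7 C0 s`.
On `[δ, 1] × S2`: `(s, n) ↦ LD j (D.g s) n i k` is continuous (`NullU.TC0_rlsm` for `rl j` of the smooth function `(s, y) ↦ D.g s y i k`), hence bounded by some `M <= (M/δ) s`.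
-/

open MeasureTheory Filter Topology Set
open scoped ContDiff ComplexConjugate

namespace H17S.Fr

open NullPen (E3 S2 sm proj pd MatterData NullData)
open NullU (Frm Tng dtB rotB crs cf mh dB rl hh)

variable {D : MatterData}

theorem f7_cont (hD : D.IsNull) (j i k : Fin 3) : Continuous (fun p : ℝ × S2 => LD j (D.g p.1) p.2 i k) := by
  have hg : ∀ a b, Continuous (fun p : ℝ × S2 => D.g p.1 p.2 a b) := fun a b => NullU.da_gc hD a b
  have hr : Continuous (fun p : ℝ × S2 => rl j (fun z => D.g p.1 z i k) (p.2 : E3)) := by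
    have h := (NullU.TC0_rlsm (L := fun p => D.g p.1 p.2 i k) (hD.smooth_g i k) j).continuous
    exact h.comp (continuous_fst.prodMk (continuous_subtype_val.comp continuous_snd))
  unfold LD
  refine hr.sub (Continuous.sub ?_ ?_)
  · exact continuous_finsetSum _ fun m _ => continuous_const.mul (hg m k)
  · exact continuous_finsetSum _ fun m _ => (hg i m).mul continuous_const

theorem f7_ld (hD : D.IsNull) {C0 s : ℝ} (hC0 : 0 ≤ C0) (hs : 1 ≤ s) (n : S2)
    (h : ∀ i k, |D.g s n i k - s ^ 2 * proj n i k| ≤ C0 * s ∧ ∀ v : Fin 3 → ℝ, ∑ k, (n : E3) k * v k = 0 → (∑ k, v k ^ 2) = 1 →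
      |∑ l, v l * pd l (fun y => D.g s y i k - s ^ 2 * proj y i k) n| ≤ C0 * s) (j i k : Fin 3) :
    |LD j (D.g s) n i k| ≤ 7 * C0 * s := by
  have hs0 : 0 ≤ C0 * s := mul_nonneg hC0 (by linarith)
  have h1 := NullU.AS2_K hD n i k (h i k).2 hs0 (NShell.rotv j n) (NullU.AS2_vn j n) (NullU.AS2_v2 j n)
  have h2 : ∀ a b, |D.g s n a b - s ^ 2 * proj n a b| ≤ C0 * s := fun a b => (h a b).1
  have h3 := ld_proj j (n : E3) i k
  have e : LD j (D.g s) n i k = (rl j (fun y => D.g s y i k) n - s ^ 2 * rl j (fun y => proj y i k) n) -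
      ((∑ m, kx j i m * (D.g s n m k - s ^ 2 * proj n m k)) - ∑ m, (D.g s n i m - s ^ 2 * proj n i m) * kx j m k) := by
    have e0 : LD j (D.g s) n i k = LD j (D.g s) n i k - s ^ 2 * LD j (fun y => proj y) n i k := by
      rw [h3]
      ring
    rw [e0]
    unfold LD
    simp only [Fin.sum_univ_three]
    ring
  have h4 : |∑ m, kx j i m * (D.g s n m k - s ^ 2 * proj n m k)| ≤ 3 * (C0 * s) := by
    calc |∑ m, kx j i m * (D.g s n m k - s ^ 2 * proj n m k)|
        ≤ ∑ m, |kx j i m * (D.g s n m k - s ^ 2 * proj n m k)| := Finset.abs_sum_le_sum_abs _ _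
      _ ≤ ∑ _m : Fin 3, C0 * s := Finset.sum_le_sum fun m _ => by
          rw [abs_mul]
          calc |kx j i m| * |D.g s n m k - s ^ 2 * proj n m k| ≤ 1 * (C0 * s) :=
                mul_le_mul (kx_abs j i m) (h2 m k) (abs_nonneg _) one_pos.le
            _ = C0 * s := one_mul _
      _ = 3 * (C0 * s) := by simp
  have h5 : |∑ m, (D.g s n i m - s ^ 2 * proj n i m) * kx j m k| ≤ 3 * (C0 * s) := by
    calc |∑ m, (D.g s n i m - s ^ 2 * proj n i m) * kx j m k|
        ≤ ∑ m, |(D.g s n i m - s ^ 2 * proj n i m) * kx j m k| := Finset.abs_sum_le_sum_abs _ _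
      _ ≤ ∑ _m : Fin 3, C0 * s := Finset.sum_le_sum fun m _ => by
          rw [abs_mul]
          calc |D.g s n i m - s ^ 2 * proj n i m| * |kx j m k| ≤ (C0 * s) * 1 :=
                mul_le_mul (h2 i m) (kx_abs j m k) (abs_nonneg _) hs0
            _ = C0 * s := mul_one _
      _ = 3 * (C0 * s) := by simp
  have h6 : |rl j (fun y => D.g s y i k) n - s ^ 2 * rl j (fun y => proj y i k) n| ≤ C0 * s := h1
  rw [e]
  rw [abs_le] at h4 h5 h6 ⊢
  constructor <;> linarith [h4.1, h4.2, h5.1, h5.2, h6.1, h6.2]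

theorem dat_bd (hD : D.IsNull) (hA : D.AsympFlat) {δ : ℝ} (hδ : 0 < δ) : ∃ C : ℝ, 1 ≤ C ∧ ∀ s, δ ≤ s → ∀ n : S2,
    s ≤ Real.sqrt (D.dA s n) ∧ Real.sqrt (D.dA s n) ≤ s + C ∧ Real.sqrt (D.dA s n) ≤ C * s ∧
    0 ≤ (∑ i, D.g s n i i) - 2 * D.dA s n ∧ (∑ i, D.g s n i i) - 2 * D.dA s n ≤ C ∧
    ∀ j i k, |LD j (D.g s) n i k| ≤ C * s := by
  obtain ⟨C1, hC1, h1⟩ := rs_bd hD hA
  obtain ⟨C2, hC2, h2⟩ := NullU.asy1 hD hA
  obtain ⟨C0, h0⟩ := hA
  have hK : IsCompact (Icc δ 1 ×ˢ (univ : Set S2)) := isCompact_Icc.prod isCompact_univ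
  have hc1 : Continuous (fun p : ℝ × S2 => (∑ i, D.g p.1 p.2 i i) - 2 * D.dA p.1 p.2) :=
    (continuous_finsetSum _ fun i _ => NullU.da_gc hD i i).sub (continuous_const.mul (NullU.da_dAc hD))
  have hc2 : Continuous (fun p : ℝ × S2 => ∑ j, ∑ i, ∑ k, |LD j (D.g p.1) p.2 i k|) :=
    continuous_finsetSum _ fun j _ => continuous_finsetSum _ fun i _ => continuous_finsetSum _ fun k _ =>
      (f7_cont hD j i k).abs
  obtain ⟨M1, hM1⟩ := hK.exists_bound_of_continuousOn hc1.continuousOn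
  obtain ⟨M2, hM2⟩ := hK.exists_bound_of_continuousOn hc2.continuousOn
  have ha0 : 0 ≤ |C0| := abs_nonneg _
  have ha1 : 0 ≤ |M1| := abs_nonneg _
  have ha2 : 0 ≤ |M2| / δ := div_nonneg (abs_nonneg _) hδ.le
  have ha3 : 0 ≤ C1 / δ := div_nonneg hC1 hδ.le
  refine ⟨1 + C1 + C1 / δ + C2 + |M1| + 7 * |C0| + |M2| / δ, by linarith, ?_⟩
  intro s hs n
  have hs0 : 0 < s := lt_of_lt_of_le hδ hs
  have hr := h1 s hs0 n
  have hdiv : ∀ c, 0 ≤ c → c ≤ c / δ * s := by
    intro c hc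
    rw [div_mul_eq_mul_div, le_div_iff₀ hδ]
    exact mul_le_mul_of_nonneg_left hs hc
  have hbig : ∀ c, 0 ≤ c → 0 ≤ c * s := fun c hc => mul_nonneg hc hs0.le
  refine ⟨hr.1, by linarith [hr.2], ?_, ?_, ?_, ?_⟩
  · have e1 := hdiv C1 hC1
    have e2 := hbig C1 hC1
    have e3 := hbig C2 hC2
    have e4 := hbig _ ha1
    have e5 := hbig _ ha0
    have e6 := hbig _ ha2
    have e7 : (1 + C1 + C1 / δ + C2 + |M1| + 7 * |C0| + |M2| / δ) * s =
        s + C1 * s + C1 / δ * s + C2 * s + |M1| * s + 7 * (|C0| * s) + |M2| / δ * s := by ring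
    rw [e7]
    linarith [hr.2]
  · have := NullU.tr_ge hD n hs0.le
    linarith
  · rcases le_total 1 s with h | h
    · have := (h2 s h n).2
      linarith
    · have h3 := hM1 (s, n) ⟨⟨hs, h⟩, mem_univ _⟩
      rw [Real.norm_eq_abs] at h3
      have h4 := le_abs_self M1
      have h5 := (le_abs_self _).trans h3
      simp only at h5
      linarith
  · intro j i k
    have e7 : (1 + C1 + C1 / δ + C2 + |M1| + 7 * |C0| + |M2| / δ) * s =
        s + C1 * s + C1 / δ * s + C2 * s + |M1| * s + 7 * |C0| * s + |M2| / δ * s := by ring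
    have e1 := hbig _ ha3
    have e2 := hbig C1 hC1
    have e3 := hbig C2 hC2
    have e4 := hbig _ ha1
    have e5 := hbig _ ha0
    have e6 := hbig _ ha2
    rw [e7]
    rcases le_total 1 s with h | h
    · have h3 := f7_ld hD (C0 := |C0|) ha0 h n (fun a b => by
        have h4 := h0 s h n a b
        have h5 : C0 * s ≤ |C0| * s := mul_le_mul_of_nonneg_right (le_abs_self _) hs0.le
        exact ⟨h4.1.trans h5, fun v hv hv1 => (h4.2 v hv hv1).trans h5⟩) j i k
      linarith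
    · have h3 := hM2 (s, n) ⟨⟨hs, h⟩, mem_univ _⟩
      rw [Real.norm_eq_abs] at h3
      have h4 := (le_abs_self _).trans (h3.trans (le_abs_self M2))
      have h5 : |LD j (D.g s) n i k| ≤ ∑ j, ∑ i, ∑ k, |LD j (D.g s) n i k| := by
        have a1 : ∑ i, ∑ k, |LD j (D.g s) n i k| ≤ ∑ j, ∑ i, ∑ k, |LD j (D.g s) n i k| :=
          Finset.single_le_sum (f := fun j => ∑ i, ∑ k, |LD j (D.g s) n i k|)
            (fun j _ => Finset.sum_nonneg fun i _ => Finset.sum_nonneg fun k _ => abs_nonneg _) (Finset.mem_univ j)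
        have a2 : ∑ k, |LD j (D.g s) n i k| ≤ ∑ i, ∑ k, |LD j (D.g s) n i k| :=
          Finset.single_le_sum (f := fun i => ∑ k, |LD j (D.g s) n i k|)
            (fun i _ => Finset.sum_nonneg fun k _ => abs_nonneg _) (Finset.mem_univ i)
        have a3 : |LD j (D.g s) n i k| ≤ ∑ k, |LD j (D.g s) n i k| :=
          Finset.single_le_sum (f := fun k => |LD j (D.g s) n i k|) (fun k _ => abs_nonneg _) (Finset.mem_univ k)
        linarith
      have h6 := hdiv |M2| (abs_nonneg _)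
      have h7 : 0 ≤ 7 * |C0| * s := by positivity
      simp only at h4
      linarith

end H17S.Fr
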