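import Pool.Agent.Lib.H17S.F.F4
import Pool.Agent.Lib.H17S.F.F7
import Pool.Agent.Lib.H17S.F.F13

set_option autoImplicit false

/-!
Chunk F14 (M). The Lie derivative of the frames is bounded, uniformly in `T`.
Proof. Constants depend only on `δ1` and on `C` from `dat_bd` with `δ1`. For `s >= δ1` (notation of F13): `‖b‖^2 <= C/4`, `‖z‖^2 = dA + ‖b‖^2 <= C^2 s^2 + C/4 <= C1^2 s^2`, `‖z‖ >= sqrt dA >= s`, `dA >= s^2`, `‖η‖ <= 20 C s`, `|γ| <= 10 C s` (`ab_le` with `dat_bd`).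
So `‖z^2 η - 2 z b γ + b^2 conj η‖ <= C2 s^3`, and `sg_der` gives `|sg'| <= sqrt (kk) C2 s^3/s^4 = C2 sqrt (kk)/s`. `osc` (F4), with `f' := deriv f` for `f = sg D B j n e`, `G = fq D · n` (as in F8: `fq_der`, `fq_bd`, `kk_nonneg`, `e_nonneg`): `|sg t - sg s| <= C3/(s sqrt s)` for `δ1 <= s <= t`.
(`osc` wants the estimates for all `s >= δ1`; the formulas of F13 hold for all `s > δ`, also beyond `T`.)
`sg_top`: `|sg T| <= ‖b‖ ‖η‖/(2 dA ‖z‖) <= C4/T^2`. Hence for `δ1 <= s <= T`: `|sg s| <= C3/(s sqrt s) + C4/T^2 <= C5/s`.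
`sg_x`: `‖x‖ <= (‖z‖ (|γ|/2 + dA |sg|) + ‖b‖ ‖η‖/2)/dA <= ‖z‖ |γ|/(2 dA) + ‖z‖ |sg| + ‖b‖ ‖η‖/(2 dA) <= C6` (`‖z‖ <= C1 s`, `dA >= s^2`, `s >= δ1`); `sg_y` in the same way.
-/

open MeasureTheory Filter Topology Set
open scoped ContDiff ComplexConjugate

namespace H17S.Fr

open NullPen (E3 S2 sm proj pd MatterData NullData)
open NullU (Frm Tng dtB rotB crs cf mh dB rl hh)

variable {D : MatterData}

/-- Size of the coordinates of a frame. -/
theorem f14_sz (hD : D.IsNull) {δ T : ℝ} {B : ℝ → E3 → Fin 3 → Fin 3 → ℝ} (hB : Frm D δ T B) {C s : ℝ} (hs0 : 0 < s) (hC : 1 ≤ C) (hs : δ ≤ s) (n : S2)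
    {e : Fin 3 → ℝ} (he : Ut n e) (h1 : s ≤ Real.sqrt (D.dA s n)) (h2 : Real.sqrt (D.dA s n) ≤ C * s)
    (h3 : (∑ i, D.g s n i i) - 2 * D.dA s n ≤ C) :
    s ^ 2 ≤ D.dA s n ∧ ‖bec n e (B s n)‖ ≤ C ∧ s ≤ ‖ale n (B s n)‖ ∧ ‖ale n (B s n)‖ ≤ C * s + C := by
  have ha : 0 < D.dA s n := by
    by_contra hc
    rw [Real.sqrt_eq_zero_of_nonpos (not_lt.1 hc)] at h1
    linarith
  have hsq : Real.sqrt (D.dA s n) ^ 2 = D.dA s n := Real.sq_sqrt ha.le
  have hb := fb_norm hB hs n he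
  have hz := fz_norm hB hs n
  have hb2 : ‖bec n e (B s n)‖ ^ 2 ≤ C ^ 2 := by
    rw [hb]
    nlinarith
  have hb1 : ‖bec n e (B s n)‖ ≤ C := le_of_sq_le_sq hb2 (by linarith)
  refine ⟨?_, hb1, h1.trans (fz_ge hB hs n), ?_⟩
  · rw [← hsq]
    gcongr
  · have hzz : ‖ale n (B s n)‖ ^ 2 = D.dA s n + ‖bec n e (B s n)‖ ^ 2 := by
      rw [hz, hb]
      unfold hh
      ring
    have h5 : ‖ale n (B s n)‖ ^ 2 ≤ (C * s + C) ^ 2 := by
      rw [hzz, ← hsq]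
      have h6 : Real.sqrt (D.dA s n) ^ 2 ≤ (C * s) ^ 2 := by gcongr
      have h7 : 0 ≤ C * s * C := by positivity
      nlinarith
    exact le_of_sq_le_sq h5 (by positivity)

theorem f14_norm3 (z b η : ℂ) (γ : ℝ) {p q r : ℝ} (hz : ‖z‖ ≤ p) (hb : ‖b‖ ≤ p) (hη : ‖η‖ ≤ 2 * q) (hγ : |γ| ≤ q) (hp : 0 ≤ p) (hq : 0 ≤ q)
    (hr : 6 * (p ^ 2 * q) ≤ r) (m : ℂ) :
    |(m * conj (z ^ 2 * η - 2 * z * b * (γ : ℂ) + b ^ 2 * conj η)).im| ≤ ‖m‖ * r := by
  refine (Complex.abs_im_le_norm _).trans ?_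
  rw [norm_mul, Complex.norm_conj]
  apply mul_le_mul_of_nonneg_left _ (norm_nonneg m)
  refine le_trans ?_ hr
  refine (norm_add_le _ _).trans ?_
  have h1 := norm_sub_le (z ^ 2 * η) (2 * z * b * (γ : ℂ))
  have e1 : ‖z ^ 2 * η‖ ≤ p ^ 2 * (2 * q) := by
    rw [norm_mul, norm_pow]
    gcongr
  have e2 : ‖2 * z * b * (γ : ℂ)‖ ≤ 2 * p * p * q := by
    rw [norm_mul, norm_mul, norm_mul, Complex.norm_real, Real.norm_eq_abs]
    have : ‖(2 : ℂ)‖ = 2 := by simp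
    rw [this]
    gcongr
  have e3 : ‖b ^ 2 * conj η‖ ≤ p ^ 2 * (2 * q) := by
    rw [norm_mul, norm_pow, Complex.norm_conj]
    gcongr
  nlinarith

theorem ld_bd (hD : D.IsNull) (hA : D.AsympFlat) {δ δ1 : ℝ} (hδ : 0 < δ) (h1 : δ < δ1) : ∃ C : ℝ, 0 ≤ C ∧
    ∀ T B, Frm D δ T B → ∀ s, δ1 ≤ s → s ≤ T → ∀ (j : Fin 3) (n : S2) (e : Fin 3 → ℝ), Ut n e →
      ‖ale n (LD j (B s) n)‖ ≤ C ∧ ‖bec n e (LD j (B s) n)‖ ≤ C := by
  have hδ1 : 0 < δ1 := hδ.trans h1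
  obtain ⟨C, hC1, hC⟩ := dat_bd hD hA hδ1
  obtain ⟨Cq, hCq0, hCq⟩ := fq_bd hD hA
  have hC0 : 0 < C := by linarith
  obtain ⟨C1, hC1d⟩ : ∃ C1 : ℝ, C1 = C + C / δ1 := ⟨_, rfl⟩
  have hC1p : 0 < C1 := by rw [hC1d]; positivity
  have hlin : ∀ s, δ1 ≤ s → C * s + C ≤ C1 * s ∧ C ≤ C1 * s := by
    intro s hs
    have h2 : C ≤ C / δ1 * s := by
      rw [div_mul_eq_mul_div, le_div_iff₀ hδ1]
      gcongr
    have h3 : 0 ≤ C * s := by
      have : 0 < s := hδ1.trans_le hs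
      positivity
    rw [hC1d]
    constructor <;> nlinarith
  obtain ⟨C2, hC2⟩ : ∃ C2 : ℝ, C2 = 60 * C * C1 ^ 2 := ⟨_, rfl⟩
  have hC2p : 0 ≤ C2 := by rw [hC2]; positivity
  obtain ⟨C5, hC5⟩ : ∃ C5 : ℝ, C5 = C2 * (Cq + 1) / Real.sqrt δ1 + 10 * C ^ 2 / δ1 := ⟨_, rfl⟩
  have hC5p : 0 ≤ C5 := by rw [hC5]; positivity
  refine ⟨C1 * (15 * C + C5), by positivity, ?_⟩
  intro T B hB s hs hsT j n e he
  -- all the estimates at a time `t`
  have hall : ∀ t, δ1 ≤ t → 0 < t ∧ t ^ 2 ≤ D.dA t n ∧ ‖bec n e (B t n)‖ ≤ C ∧ t ≤ ‖ale n (B t n)‖ ∧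
      ‖ale n (B t n)‖ ≤ C1 * t ∧ ‖bec n e (B t n)‖ ≤ C1 * t ∧ ‖et D j n e t‖ ≤ 20 * (C * t) ∧ |gm D j n t| ≤ 10 * (C * t) := by
    intro t ht
    have ht0 : 0 < t := hδ1.trans_le ht
    obtain ⟨a1, a2, a3, a4, a5, a6⟩ := hC t ht n
    obtain ⟨b1, b2, b3, b4⟩ := f14_sz hD hB ht0 hC1 (h1.le.trans ht) n he a1 a3 a5
    obtain ⟨c1, c2⟩ := hlin t ht
    obtain ⟨d1, d2⟩ := ab_le n he (fun i k => a6 j i k)
    refine ⟨ht0, b1, b2, b3, b4.trans c1, b2.trans c2, d2, ?_⟩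
    exact (Complex.abs_re_le_norm _).trans d1
  -- the derivative of `sg`
  have hder : ∀ t, δ1 ≤ t → HasDerivAt (sg D B j n e) (deriv (sg D B j n e) t) t ∧
      ‖deriv (sg D B j n e) t‖ ≤ C2 * Real.sqrt (kk D t n) / t := by
    intro t ht
    obtain ⟨ht0, b1, b2, b3, b4, b5, b6, b7⟩ := hall t ht
    obtain ⟨m, hm, hd⟩ := sg_der hD hB (h1.trans_le ht) j n he
    have hd' : HasDerivAt (sg D B j n e) ((m * conj (ale n (B t n) ^ 2 * et D j n e t - 2 * ale n (B t n) * bec n e (B t n) * (gm D j n t : ℂ) +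
        bec n e (B t n) ^ 2 * conj (et D j n e t))).im / D.dA t n ^ 2) t := hd
    rw [hd'.deriv]
    refine ⟨hd', ?_⟩
    have hmn : ‖m‖ = Real.sqrt (kk D t n) := by
      rw [← hm, Real.sqrt_sq (norm_nonneg m)]
    have h3 := f14_norm3 (ale n (B t n)) (bec n e (B t n)) (et D j n e t) (gm D j n t) (p := C1 * t) (q := 10 * (C * t))
      (r := C2 * t ^ 3) b4 b5 (by linarith) b7 (by positivity) (by positivity) (by rw [hC2]; apply le_of_eq; ring) m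
    have ha : 0 < D.dA t n := lt_of_lt_of_le (by positivity) b1
    rw [Real.norm_eq_abs, abs_div, abs_of_pos (pow_pos ha 2), div_le_iff₀ (pow_pos ha 2)]
    refine h3.trans ?_
    rw [hmn]
    have h4 : t ^ 4 ≤ D.dA t n ^ 2 := by
      calc t ^ 4 = (t ^ 2) ^ 2 := by ring
        _ ≤ D.dA t n ^ 2 := by gcongr
    calc Real.sqrt (kk D t n) * (C2 * t ^ 3) = C2 * Real.sqrt (kk D t n) / t * t ^ 4 := by
          field_simp
      _ ≤ C2 * Real.sqrt (kk D t n) / t * D.dA t n ^ 2 := by gcongr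
  have hosc : ‖sg D B j n e T - sg D B j n e s‖ ≤ C2 * (Cq + 1) / (s * Real.sqrt s) := by
    refine osc (G := fun t => fq D t n) (G' := fun t => t * (Real.sqrt (D.dA t n) * (kk D t n + D.e t n / 2)))
      (k := fun t => kk D t n) hδ1 hC2p (fun t ht => (hder t ht).1) (fun t ht => fq_der hD (hδ1.trans_le ht) n) ?_
      (fun t ht => (hder t ht).2) (fun t ht => hCq t (hδ1.trans_le ht) n) hs hsT
    intro t ht
    have ht0 : 0 < t := hδ1.trans_le ht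
    have k0 := kk_nonneg hD ht0 n
    have e0 := hD.e_nonneg t ht0.le n
    refine ⟨k0, ?_⟩
    have h3 : kk D t n ≤ kk D t n + D.e t n / 2 := by linarith
    have h4 := (hC t ht n).1
    calc t ^ 2 * kk D t n = t * (t * kk D t n) := by ring
      _ ≤ t * (Real.sqrt (D.dA t n) * (kk D t n + D.e t n / 2)) := by gcongr
  -- the value at `T`
  have htop : |sg D B j n e T| ≤ 10 * C ^ 2 / T ^ 2 := by
    obtain ⟨ht0, b1, b2, b3, b4, b5, b6, b7⟩ := hall T (hs.trans hsT)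
    have h3 := sg_top hD hB j n he
    have hz : 0 < ‖ale n (B T n)‖ := ht0.trans_le b3
    have haT : 0 < D.dA T n := lt_of_lt_of_le (by positivity) b1
    have haT2 : 0 ≤ 2 * D.dA T n := by positivity
    have h4 : |sg D B j n e T| * (2 * T ^ 2 * T) ≤ C * (20 * (C * T)) := by
      calc |sg D B j n e T| * (2 * T ^ 2 * T) ≤ |sg D B j n e T| * (2 * D.dA T n * ‖ale n (B T n)‖) := by gcongr
        _ ≤ ‖bec n e (B T n)‖ * ‖et D j n e T‖ := h3
        _ ≤ C * (20 * (C * T)) := by gcongr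
    rw [le_div_iff₀ (by positivity)]
    have h5 : (|sg D B j n e T| * T ^ 2) * (2 * T) ≤ (10 * C ^ 2) * (2 * T) := by nlinarith
    exact le_of_mul_le_mul_right h5 (by positivity)
  obtain ⟨hs0, b1, b2, b3, b4, b5, b6, b7⟩ := hall s hs
  have hsg : |sg D B j n e s| ≤ C5 / s := by
    have h3 : |sg D B j n e s| ≤ C2 * (Cq + 1) / (s * Real.sqrt s) + 10 * C ^ 2 / T ^ 2 := by
      have h4 : sg D B j n e s = sg D B j n e T - (sg D B j n e T - sg D B j n e s) := by ring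
      rw [h4]
      refine (abs_sub _ _).trans ?_
      rw [Real.norm_eq_abs] at hosc
      linarith
    refine h3.trans ?_
    have hsd : 0 < Real.sqrt δ1 := Real.sqrt_pos.2 hδ1
    have h5 : C2 * (Cq + 1) / (s * Real.sqrt s) ≤ C2 * (Cq + 1) / Real.sqrt δ1 / s := by
      rw [div_div, mul_comm (Real.sqrt δ1) s]
      have : Real.sqrt δ1 ≤ Real.sqrt s := Real.sqrt_le_sqrt hs
      gcongr
    have h6 : 10 * C ^ 2 / T ^ 2 ≤ 10 * C ^ 2 / δ1 / s := by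
      rw [div_div, sq T]
      have hT1 : δ1 ≤ T := hs.trans hsT
      have hT0 : 0 ≤ T := hδ1.le.trans hT1
      gcongr
    rw [hC5, add_div]
    linarith
  have ha : 0 < D.dA s n := lt_of_lt_of_le (by positivity) b1
  have hsd : δ ≤ s := h1.le.trans hs
  have hAs : |D.dA s n * sg D B j n e s| ≤ D.dA s n * (C5 / s) := by
    rw [abs_mul, abs_of_pos ha]
    gcongr
  have hw : ∀ σ : ℝ, ‖(((gm D j n s / 2 : ℝ) : ℂ) + σ * (((D.dA s n * sg D B j n e s : ℝ) : ℂ) * Complex.I))‖ ≤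
      5 * (C * s) + |σ| * (D.dA s n * (C5 / s)) := by
    intro σ
    refine (norm_add_le _ _).trans ?_
    rw [norm_mul, norm_mul, Complex.norm_I, mul_one, Complex.norm_real, Complex.norm_real, Complex.norm_real,
      Real.norm_eq_abs, Real.norm_eq_abs, Real.norm_eq_abs, abs_div, abs_two]
    have h3 : |gm D j n s| / 2 ≤ 5 * (C * s) := by linarith
    gcongr
  have hfin : C1 * s * (5 * (C * s) + 1 * (D.dA s n * (C5 / s))) + C1 * s * (20 * (C * s)) / 2 ≤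
      D.dA s n * (C1 * (15 * C + C5)) := by
    have e1 : C1 * s * (5 * (C * s) + 1 * (D.dA s n * (C5 / s))) + C1 * s * (20 * (C * s)) / 2 =
        15 * C1 * C * s ^ 2 + D.dA s n * (C1 * C5) := by
      field_simp
      ring
    rw [e1]
    have e2 : 15 * C1 * C * s ^ 2 ≤ 15 * C1 * C * D.dA s n := by gcongr
    nlinarith
  constructor
  · have hx := sg_x hD hB hsd j n he
    have h3 : D.dA s n * ‖ale n (LD j (B s) n)‖ ≤ D.dA s n * (C1 * (15 * C + C5)) := by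
      have h4 : D.dA s n * ‖ale n (LD j (B s) n)‖ = ‖(D.dA s n : ℂ) * ale n (LD j (B s) n)‖ := by
        rw [norm_mul, Complex.norm_real, Real.norm_eq_abs, abs_of_pos ha]
      rw [h4, hx]
      refine (norm_sub_le _ _).trans (le_trans (add_le_add ?_ ?_) hfin)
      · rw [norm_mul]
        have h5 := hw 1
        rw [Complex.ofReal_one, one_mul, abs_one] at h5
        gcongr
      · rw [norm_div, norm_mul, Complex.norm_conj, Complex.norm_ofNat]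
        gcongr
    exact le_of_mul_le_mul_left h3 ha
  · have hy := sg_y hD hB hsd j n he
    have h3 : D.dA s n * ‖bec n e (LD j (B s) n)‖ ≤ D.dA s n * (C1 * (15 * C + C5)) := by
      have h4 : D.dA s n * ‖bec n e (LD j (B s) n)‖ = ‖(D.dA s n : ℂ) * bec n e (LD j (B s) n)‖ := by
        rw [norm_mul, Complex.norm_real, Real.norm_eq_abs, abs_of_pos ha]
      rw [h4, hy]
      refine (norm_sub_le _ _).trans ?_
      rw [add_comm]
      refine le_trans (add_le_add ?_ ?_) hfin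
      · rw [norm_mul]
        have h5 := hw (-1)
        rw [abs_neg, abs_one] at h5
        have h6 : ((gm D j n s / 2 : ℝ) : ℂ) + (((-1 : ℝ)) : ℂ) * (((D.dA s n * sg D B j n e s : ℝ) : ℂ) * Complex.I) =
            ((gm D j n s / 2 : ℝ) : ℂ) - ((D.dA s n * sg D B j n e s : ℝ) : ℂ) * Complex.I := by
          push_cast
          ring
        rw [h6] at h5
        gcongr
      · rw [norm_div, norm_mul, Complex.norm_ofNat]
        gcongr
    exact le_of_mul_le_mul_left h3 ha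

end H17S.Fr
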