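import Pool.Agent.Lib.H17S.F.F0
import Pool.Agent.Lib.H17U.TC1

set_option autoImplicit false

/-!
Chunk F15 (M). A smooth function with bounded rotation derivatives is Lipschitz on the sphere.
Proof. `dist n m >= 1`: `|G n - G m| <= 2 M <= 2 M dist n m`. Otherwise let `v = m - n`, `c t = n + t v`, `t ∈ [0,1]`: `‖c t - n‖ = t ‖v‖`, `‖c t - m‖ = (1 - t) ‖v‖`, so one of them is `<= 1/2` and `‖c t‖ >= 1/2`. Let `h t = G (‖c t‖⁻¹ • c t)`, `y = ‖c t‖⁻¹ • c t` (a point of the sphere). Then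
`h' t = fderiv G y w`, `w = ‖c t‖⁻¹ • (v - ⟪y, v⟫ • y)`, `⟪y, w⟫ = 0`, `‖w‖ <= ‖c t‖⁻¹ ‖v‖ <= 2 ‖v‖`.
For `w` orthogonal to `y`, `‖y‖ = 1`: `w = ∑ j, (y × w)_j • rotv j y` (as `(y × w) × y = w`), so `fderiv G y w = ∑ j, (y × w)_j * rl j G y` (`rl j G y = fderiv G y (rotv j y)` by definition), `|(y × w)_j| <= 2 ‖w‖`... (crude: `|y_a w_b - y_b w_a| <= 2 ‖w‖`).
So `|h' t| <= 3 * 2 * 2 ‖v‖ * K = 12 K ‖v‖`, and the mean value theorem on `[0,1]` gives `|G m - G n| <= 12 K ‖v‖`. (`norm_image_sub_le_of_norm_deriv_le_segment'`.)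
-/

open MeasureTheory Filter Topology Set
open scoped ContDiff ComplexConjugate

namespace H17S.Fr

open NullPen (E3 S2 sm proj pd MatterData NullData)
open NullU (Frm Tng dtB rotB crs cf mh dB rl hh)

theorem f15_dir {G : E3 → ℝ} {K : ℝ} (hK : ∀ (j : Fin 3) (n : S2), |rl j G n| ≤ K) {y w : E3} (hy : ‖y‖ = 1)
    (hw : inner ℝ y w = 0) : |fderiv ℝ G y w| ≤ 6 * K * ‖w‖ := by
  have hyS : y ∈ Metric.sphere (0 : E3) 1 := by rw [mem_sphere_zero_iff_norm]; exact hy
  have hK0 : 0 ≤ K := (abs_nonneg _).trans (hK 0 ⟨y, hyS⟩)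
  have hy2 : y 0 ^ 2 + y 1 ^ 2 + y 2 ^ 2 = 1 := by
    have h2 := EuclideanSpace.norm_sq_eq y
    rw [hy, Fin.sum_univ_three] at h2
    simp only [Real.norm_eq_abs, sq_abs] at h2
    linarith
  have hyw : y 0 * w 0 + y 1 * w 1 + y 2 * w 2 = 0 := by
    rw [PiLp.inner_apply, Fin.sum_univ_three] at hw
    simp only [RCLike.inner_apply, conj_trivial] at hw
    linarith
  have hdec : w = ∑ j, crs (fun i => y i) (fun i => w i) j • NShell.rotv j y := by
    ext i
    rw [Fin.sum_univ_three]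
    simp only [NShell.rotv, crs, PiLp.add_apply, PiLp.smul_apply, PiLp.sub_apply, smul_eq_mul]
    fin_cases i
    all_goals simp [show (0 : Fin 3) + 1 = 1 from rfl, show (0 : Fin 3) + 2 = 2 from rfl,
      show (1 : Fin 3) + 1 = 2 from rfl, show (1 : Fin 3) + 2 = 0 from rfl,
      show (2 : Fin 3) + 1 = 0 from rfl, show (2 : Fin 3) + 2 = 1 from rfl]
    · linear_combination (-(w 0)) * hy2 + (y 0) * hyw
    · linear_combination (-(w 1)) * hy2 + (y 1) * hyw
    · linear_combination (-(w 2)) * hy2 + (y 2) * hyw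
  have hco : ∀ (v : E3) (i : Fin 3), |v i| ≤ ‖v‖ := fun v i => by
    have := PiLp.norm_apply_le v i
    rwa [Real.norm_eq_abs] at this
  have hcr : ∀ j : Fin 3, |crs (fun i => y i) (fun i => w i) j| ≤ 2 * ‖w‖ := by
    intro j
    unfold crs
    have h1 := abs_sub (y (j + 1) * w (j + 2)) (y (j + 2) * w (j + 1))
    rw [abs_mul, abs_mul] at h1
    have h2 : |y (j + 1)| * |w (j + 2)| ≤ 1 * ‖w‖ := mul_le_mul (hy ▸ hco y _) (hco w _) (abs_nonneg _) zero_le_one
    have h3 : |y (j + 2)| * |w (j + 1)| ≤ 1 * ‖w‖ := mul_le_mul (hy ▸ hco y _) (hco w _) (abs_nonneg _) zero_le_one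
    linarith
  have hL : fderiv ℝ G y w = ∑ j, crs (fun i => y i) (fun i => w i) j * rl j G y := by
    conv_lhs => rw [hdec]
    rw [map_sum]
    refine Finset.sum_congr rfl fun j _ => ?_
    rw [map_smul]
    rfl
  rw [hL]
  calc |∑ j, crs (fun i => y i) (fun i => w i) j * rl j G y| ≤ ∑ j, |crs (fun i => y i) (fun i => w i) j * rl j G y| :=
        Finset.abs_sum_le_sum_abs _ _
    _ ≤ ∑ j : Fin 3, 2 * ‖w‖ * K := by
        refine Finset.sum_le_sum fun j _ => ?_
        rw [abs_mul]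
        exact mul_le_mul (hcr j) (hK j ⟨y, hyS⟩) (abs_nonneg _) (by positivity)
    _ = 6 * K * ‖w‖ := by
        rw [Fin.sum_const, nsmul_eq_mul]
        push_cast
        ring

theorem lip_rl {G : E3 → ℝ} (hG : ContDiff ℝ ∞ G) {K M : ℝ} (hK : ∀ (j : Fin 3) (n : S2), |rl j G n| ≤ K) (hM : ∀ n : S2, |G n| ≤ M)
    (n m : S2) : |G n - G m| ≤ (12 * K + 2 * M) * dist n m := by
  have hK0 : 0 ≤ K := (abs_nonneg _).trans (hK 0 n)
  have hM0 : 0 ≤ M := (abs_nonneg _).trans (hM n)
  have hdist : dist n m = ‖(m : E3) - n‖ := by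
    rw [Subtype.dist_eq, dist_eq_norm, norm_sub_rev]
  rcases le_or_gt 1 (dist n m) with h1 | h1
  · have h2 := abs_sub (G n) (G m)
    have h3 := hM n
    have h4 := hM m
    have h5 : 0 ≤ 12 * K * dist n m := by positivity
    nlinarith
  · set v : E3 := (m : E3) - n with hv
    have hn1 : ‖(n : E3)‖ = 1 := by simp
    have hm1 : ‖(m : E3)‖ = 1 := by simp
    set b : ℝ := ‖v‖ ^ 2 with hb
    have hb0 : 0 ≤ b := by positivity
    have hv1 : ‖v‖ < 1 := by rw [← hdist]; exact h1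
    have hbv : b ≤ ‖v‖ := by
      rw [hb, pow_two]
      calc ‖v‖ * ‖v‖ ≤ ‖v‖ * 1 := mul_le_mul_of_nonneg_left hv1.le (norm_nonneg _)
        _ = ‖v‖ := mul_one _
    have hnv : inner ℝ (n : E3) v = -b / 2 := by
      have h2 : ‖(n : E3) + v‖ ^ 2 = 1 := by
        rw [hv, add_sub_cancel, hm1, one_pow]
      rw [norm_add_sq_real, hn1] at h2
      linarith
    set N : ℝ → ℝ := fun t => 1 - b * t + b * t ^ 2 with hN
    have hNlow : ∀ t ∈ Icc (0 : ℝ) 1, 3 / 4 ≤ N t := by
      intro t ht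
      have h3 : b ≤ 1 := hbv.trans hv1.le
      have h4 : t * (1 - t) ≤ 1 / 4 := by nlinarith [sq_nonneg (t - 1 / 2)]
      have h5 : 0 ≤ t * (1 - t) := mul_nonneg ht.1 (by linarith [ht.2])
      have h6 : b * (t * (1 - t)) ≤ 1 * (1 / 4) := mul_le_mul h3 h4 h5 zero_le_one
      simp only [hN]
      linarith
    have hNup : ∀ t ∈ Icc (0 : ℝ) 1, N t ≤ 1 := by
      intro t ht
      have h5 : 0 ≤ b * (t * (1 - t)) := mul_nonneg hb0 (mul_nonneg ht.1 (by linarith [ht.2]))
      simp only [hN]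
      linarith
    have hNd : ∀ t, HasDerivAt N (-b + 2 * b * t) t := by
      intro t
      have h3 := (((hasDerivAt_id t).const_mul b).const_sub 1).add ((hasDerivAt_pow 2 t).const_mul b)
      refine h3.congr_deriv ?_
      simp
      ring
    set ρ : ℝ → ℝ := fun t => (Real.sqrt (N t))⁻¹ with hρ
    have hρd : ∀ t ∈ Icc (0 : ℝ) 1, HasDerivAt ρ (-((-b + 2 * b * t) / (2 * N t)) * ρ t) t := by
      intro t ht
      have h3 := hNlow t ht
      have h4 : 0 < N t := by linarith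
      have h5 : 0 < Real.sqrt (N t) := Real.sqrt_pos.2 h4
      have h6 := ((hNd t).sqrt h4.ne').inv h5.ne'
      refine h6.congr_deriv ?_
      have h7 := Real.sq_sqrt h4.le
      simp only [hρ]
      rw [h7]
      field_simp
    set c : ℝ → E3 := fun t => (n : E3) + t • v with hc
    have hcd : ∀ t, HasDerivAt c v t := by
      intro t
      have h3 := ((hasDerivAt_id t).smul_const v).const_add (n : E3)
      exact h3.congr_deriv (one_smul ℝ v)
    have hcn : ∀ t, ‖c t‖ ^ 2 = N t := by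
      intro t
      simp only [hc, hN]
      rw [norm_add_sq_real, hn1, inner_smul_right, hnv, norm_smul, mul_pow, ← hb, Real.norm_eq_abs, sq_abs]
      ring
    have hcv : ∀ t, inner ℝ (c t) v = (-b + 2 * b * t) / 2 := by
      intro t
      simp only [hc]
      rw [inner_add_left, inner_smul_left, hnv, real_inner_self_eq_norm_sq, ← hb]
      simp
      ring
    set y : ℝ → E3 := fun t => ρ t • c t with hy
    set y' : ℝ → E3 := fun t => ρ t • v + (-((-b + 2 * b * t) / (2 * N t)) * ρ t) • c t with hy'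
    have hyd : ∀ t ∈ Icc (0 : ℝ) 1, HasDerivAt y (y' t) t := fun t ht => (hρd t ht).smul (hcd t)
    have hρN : ∀ t ∈ Icc (0 : ℝ) 1, ρ t ^ 2 * N t = 1 := by
      intro t ht
      have h3 := hNlow t ht
      have h4 : 0 < N t := by linarith
      simp only [hρ]
      rw [inv_pow, Real.sq_sqrt h4.le, inv_mul_cancel₀ h4.ne']
    have hρ0 : ∀ t, 0 ≤ ρ t := fun t => inv_nonneg.2 (Real.sqrt_nonneg _)
    have hρle : ∀ t ∈ Icc (0 : ℝ) 1, ρ t ≤ 5 / 4 := by
      intro t ht
      have h3 := hρN t ht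
      have h4 := hNlow t ht
      have h5 := hρ0 t
      by_contra hcon
      rw [not_le] at hcon
      nlinarith
    have hyn : ∀ t ∈ Icc (0 : ℝ) 1, ‖y t‖ = 1 := by
      intro t ht
      have h3 : ‖y t‖ ^ 2 = 1 := by
        simp only [hy]
        rw [norm_smul, mul_pow, hcn, Real.norm_eq_abs, sq_abs]
        exact hρN t ht
      have h4 := norm_nonneg (y t)
      nlinarith
    have hyo : ∀ t ∈ Icc (0 : ℝ) 1, inner ℝ (y t) (y' t) = 0 := by
      intro t ht
      have h3 := hNlow t ht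
      have h4 : N t ≠ 0 := by linarith
      simp only [hy, hy']
      rw [inner_add_right, inner_smul_left, inner_smul_right, inner_smul_left, inner_smul_right, hcv,
        real_inner_self_eq_norm_sq, hcn]
      simp only [conj_trivial]
      field_simp
      ring
    have hyb : ∀ t ∈ Icc (0 : ℝ) 1, ‖y' t‖ ≤ 2 * ‖v‖ := by
      intro t ht
      have h3 := hNlow t ht
      have h4 : 0 < N t := by linarith
      have h5 : ‖y' t‖ ≤ ‖ρ t • v‖ + ‖(-((-b + 2 * b * t) / (2 * N t)) * ρ t) • c t‖ := norm_add_le _ _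
      have h6 : ‖ρ t • v‖ ≤ 5 / 4 * ‖v‖ := by
        rw [norm_smul, Real.norm_eq_abs, abs_of_nonneg (hρ0 t)]
        exact mul_le_mul_of_nonneg_right (hρle t ht) (norm_nonneg _)
      have h7 : ‖(-((-b + 2 * b * t) / (2 * N t)) * ρ t) • c t‖ = |(-b + 2 * b * t) / (2 * N t)| := by
        have h8 : ρ t * ‖c t‖ = 1 := by
          have h9 : (ρ t * ‖c t‖) ^ 2 = 1 := by rw [mul_pow, hcn]; exact hρN t ht
          have h10 : 0 ≤ ρ t * ‖c t‖ := mul_nonneg (hρ0 t) (norm_nonneg _)
          nlinarith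
        rw [norm_smul, Real.norm_eq_abs, abs_mul, abs_neg, abs_of_nonneg (hρ0 t), mul_assoc, h8, mul_one]
      have h8 : |(-b + 2 * b * t) / (2 * N t)| ≤ 3 / 4 * ‖v‖ := by
        rw [abs_div, abs_of_pos (by positivity : 0 < 2 * N t), div_le_iff₀ (by positivity)]
        have h9 : |-b + 2 * b * t| ≤ b := by
          rw [abs_le]
          have h10 : 0 ≤ b * t := mul_nonneg hb0 ht.1
          have h11 : b * t ≤ b * 1 := mul_le_mul_of_nonneg_left ht.2 hb0
          constructor <;> linarith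
        have h10 : 3 / 4 * ‖v‖ * (2 * (3 / 4)) ≤ 3 / 4 * ‖v‖ * (2 * N t) :=
          mul_le_mul_of_nonneg_left (by linarith) (by positivity)
        have h12 := norm_nonneg v
        linarith
      linarith
    have hmv := norm_image_sub_le_of_norm_deriv_le_segment_01' (f := fun t => G (y t)) (f' := fun t => fderiv ℝ G (y t) (y' t))
      (C := 12 * K * ‖v‖) (fun t ht => by
        have h3 : HasFDerivAt G (fderiv ℝ G (y t)) (y t) := (hG.differentiable (by simp) _).hasFDerivAt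
        exact (h3.comp_hasDerivAt t (hyd t ht)).hasDerivWithinAt)
      (fun t ht => by
        have ht' : t ∈ Icc (0 : ℝ) 1 := ⟨ht.1, ht.2.le⟩
        have h3 := f15_dir hK (hyn t ht') (hyo t ht')
        have h4 := hyb t ht'
        rw [Real.norm_eq_abs]
        calc |fderiv ℝ G (y t) (y' t)| ≤ 6 * K * ‖y' t‖ := h3
          _ ≤ 6 * K * (2 * ‖v‖) := mul_le_mul_of_nonneg_left h4 (by positivity)
          _ = 12 * K * ‖v‖ := by ring)
    have hy1 : y 1 = m := by
      have e1 : N 1 = 1 := by simp only [hN]; ring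
      simp only [hy, hρ, hc]
      rw [e1, Real.sqrt_one, inv_one, one_smul, one_smul, hv, add_sub_cancel]
    have hy0 : y 0 = n := by
      have e1 : N 0 = 1 := by simp only [hN]; ring
      simp only [hy, hρ, hc]
      rw [e1, Real.sqrt_one, inv_one, one_smul, zero_smul, add_zero]
    simp only [hy1, hy0] at hmv
    rw [Real.norm_eq_abs, abs_sub_comm] at hmv
    rw [hdist]
    have h3 : 0 ≤ 2 * M * ‖v‖ := by positivity
    linarith

end H17S.Fr
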