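import Pool.Agent.Lib.H17S.F.F11
import Pool.Agent.Lib.H17S.F.F14
import Pool.Agent.Lib.H17S.F.F15

set_option autoImplicit false

/-!
Chunk F16 (M). Lipschitz bound for the frame at infinity.
Proof. `Bi` satisfies `bd` (constant `C1`) and `near` (constant `C2`) with respect to frames for `δ'` (`δ/2 < δ`). Let `C3` be the constant of `ld_bd` (with `δ/2`, `δ1 = δ`). Fix `s >= δ`, `i`, `k` and `T >= max s 1`, `B` a frame for `δ/2, T` (`NullU.exists_frame`; `δ/2 < T`).
`G y = B s y i k - s * proj y i k` is smooth (`NullU.tc3_Bsm`). On the sphere `|G n| <= C2 (1 + s)/T + C1 <= 2 C2 + C1 =: M` (`1 + s <= 2 T`).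
`rl j G n = LD j (B s) n i k + (∑ m, kx j i m * A m k - ∑ m, A i m * kx j m k)`, `A = B s n - s proj n` (definition of `LD` and `ld_proj`; `rl` is linear: `NullU.TC1_rl_sub`), so `|rl j G n| <= 2 C3 + 6 M =: K` (`ent_le` with `ld_tng` and `exists_ut`; `kx_abs`).
`lip_rl`: `|G n - G m| <= (12 K + 2 M) dist n m`. With `near`: `|(Bi s n - s proj n) - (Bi s m - s proj m)| <= 2 C2 (1 + s)/T + (12 K + 2 M) dist n m`, and `T -> ∞` (`le_of_tendsto` or `le_of_forall_pos_le_add`).
-/

open MeasureTheory Filter Topology Set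
open scoped ContDiff ComplexConjugate

namespace H17S.Fr

open NullPen (E3 S2 sm proj pd MatterData NullData)
open NullU (Frm Tng dtB rotB crs cf mh dB rl hh)

variable {D : MatterData}

theorem f16_rl {δ T : ℝ} {B : ℝ → E3 → Fin 3 → Fin 3 → ℝ} (hB : Frm D δ T B) (s : ℝ) (j : Fin 3) (n : E3) (i k : Fin 3) :
    rl j (fun y => B s y i k - s * proj y i k) n = LD j (B s) n i k +
      ((∑ m, kx j i m * (B s n m k - s * proj n m k)) - ∑ m, (B s n i m - s * proj n i m) * kx j m k) := by
  have h1 : DifferentiableAt ℝ (fun y => B s y i k) n := (NullU.tc3_Bsm hB s i k).differentiable (by simp) n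
  have h2 : DifferentiableAt ℝ (fun y : E3 => proj y i k) n := (NullPen.t0_proj i k).differentiable (by simp) n
  have h3 : rl j (fun y => s * proj y i k) n = s * rl j (fun y => proj y i k) n := by
    unfold rl
    rw [fderiv_const_mul h2]
    rfl
  have h4 := ld_proj j n i k
  rw [NullU.TC1_rl_sub h1 (h2.const_mul s), h3]
  unfold LD at h4 ⊢
  simp only [Fin.sum_univ_three] at h4 ⊢
  linear_combination (-s) * h4

theorem f16_sum {A K : Fin 3 → ℝ} {M : ℝ} (hA : ∀ m, |A m| ≤ M) (hK : ∀ m, |K m| ≤ 1) : |∑ m, K m * A m| ≤ 3 * M := by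
  have hM : 0 ≤ M := (abs_nonneg _).trans (hA 0)
  calc |∑ m, K m * A m| ≤ ∑ m, |K m * A m| := Finset.abs_sum_le_sum_abs _ _
    _ ≤ ∑ _m : Fin 3, M := by
        refine Finset.sum_le_sum fun m _ => ?_
        rw [abs_mul]
        calc |K m| * |A m| ≤ 1 * M := mul_le_mul (hK m) (hA m) (abs_nonneg _) (by norm_num)
          _ = M := one_mul M
    _ = 3 * M := by
        rw [Fin.sum_const, nsmul_eq_mul]
        simp

theorem bi_lip (hD : D.IsNull) (hA : D.AsympFlat) {δ : ℝ} (hδ : 0 < δ) {Bi : ℝ → S2 → Fin 3 → Fin 3 → ℝ} {C1 C2 : ℝ}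
    (hbd : ∀ s, δ ≤ s → ∀ n : S2, ∀ i j, |Bi s n i j - s * proj n i j| ≤ C1)
    (hnear : ∀ T, 1 ≤ T → ∀ B, Frm D (δ / 2) T B → ∀ s, δ ≤ s → s ≤ T → ∀ n : S2, ∀ i j, |B s n i j - Bi s n i j| ≤ C2 * (1 + s) / T) :
    ∃ C : ℝ, 0 ≤ C ∧ ∀ s, δ ≤ s → ∀ n m : S2, ∀ i j,
      |(Bi s n i j - s * proj n i j) - (Bi s m i j - s * proj m i j)| ≤ C * dist n m := by
  obtain ⟨C3, hC3, hld⟩ := ld_bd hD hA (δ := δ / 2) (δ1 := δ) (by linarith) (by linarith)
  set M : ℝ := 2 * |C2| + |C1| with hM
  have hM0 : 0 ≤ M := by positivity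
  set C : ℝ := 12 * (2 * C3 + 6 * M) + 2 * M with hC
  have hC0 : 0 ≤ C := by positivity
  refine ⟨C, hC0, fun s hs n m i k => ?_⟩
  have hs0 : 0 < s := by linarith
  have key : ∀ T, 1 ≤ T → s ≤ T → |(Bi s n i k - s * proj n i k) - (Bi s m i k - s * proj m i k)| ≤
      C * dist n m + 2 * (|C2| * (1 + s) / T) := by
    intro T hT1 hsT
    obtain ⟨B, hB⟩ := NullU.exists_frame hD (δ := δ / 2) (T := T) (by linarith) (by linarith)
    have hT0 : 0 < T := by linarith
    have hn : ∀ x : S2, ∀ a b, |B s x a b - Bi s x a b| ≤ |C2| * (1 + s) / T := by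
      intro x a b
      refine (hnear T hT1 B hB s hs hsT x a b).trans ?_
      gcongr
      exact le_abs_self _
    have hq : |C2| * (1 + s) / T ≤ 2 * |C2| := by
      rw [div_le_iff₀ hT0]
      have h5 := abs_nonneg C2
      nlinarith
    have hA1 : ∀ x : S2, ∀ a b, |B s x a b - s * proj x a b| ≤ M := by
      intro x a b
      have h5 := hn x a b
      have h6 := (hbd s hs x a b).trans (le_abs_self C1)
      have e : B s x a b - s * proj x a b = (B s x a b - Bi s x a b) + (Bi s x a b - s * proj x a b) := by ring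
      rw [e]
      refine (abs_add_le _ _).trans ?_
      rw [hM]
      linarith
    have hG : ContDiff ℝ ∞ (fun y : E3 => B s y i k - s * proj y i k) :=
      (NullU.tc3_Bsm hB s i k).sub (contDiff_const.mul (NullPen.t0_proj i k))
    have hK : ∀ (j : Fin 3) (x : S2), |rl j (fun y : E3 => B s y i k - s * proj y i k) x| ≤ 2 * C3 + 6 * M := by
      intro j x
      rw [f16_rl hB]
      obtain ⟨e, he⟩ := exists_ut x
      have hT := ld_tng (fun a b => NullU.tc3_Bsm hB s a b) (fun y => hB.tng s (by linarith) y) j x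
      have h5 := ent_le x he hT i k
      have h6 := hld T B hB s hs hsT j x e he
      have h7 : |∑ l, kx j i l * (B s x l k - s * proj x l k)| ≤ 3 * M :=
        f16_sum (fun l => hA1 x l k) (fun l => kx_abs j i l)
      have h8 : |∑ l, (B s x i l - s * proj x i l) * kx j l k| ≤ 3 * M := by
        have e1 : ∑ l, (B s x i l - s * proj x i l) * kx j l k = ∑ l, kx j l k * (B s x i l - s * proj x i l) :=
          Finset.sum_congr rfl fun l _ => mul_comm _ _
        rw [e1]
        exact f16_sum (fun l => hA1 x i l) (fun l => kx_abs j l k)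
      refine (abs_add_le _ _).trans ?_
      have h9 := abs_sub (∑ l, kx j i l * (B s x l k - s * proj x l k)) (∑ l, (B s x i l - s * proj x i l) * kx j l k)
      linarith [h6.1, h6.2]
    have h5 := lip_rl hG hK (fun x => hA1 x i k) n m
    have h6 := hn n i k
    have h7 := hn m i k
    have h8 : |B s n i k - s * proj n i k - (B s m i k - s * proj m i k)| ≤ C * dist n m := h5
    have e : (Bi s n i k - s * proj n i k) - (Bi s m i k - s * proj m i k) =
        (B s n i k - s * proj n i k - (B s m i k - s * proj m i k)) + ((B s m i k - Bi s m i k) - (B s n i k - Bi s n i k)) := by ring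
    rw [e]
    refine (abs_add_le _ _).trans ?_
    have h9 := abs_sub (B s m i k - Bi s m i k) (B s n i k - Bi s n i k)
    linarith
  refine le_of_forall_pos_le_add fun ε hε => ?_
  have hb : 0 ≤ 2 * (|C2| * (1 + s)) / ε := by positivity
  have h1 := key (1 + s + 2 * (|C2| * (1 + s)) / ε) (by linarith) (by linarith)
  refine h1.trans ?_
  have hT0 : 0 < 1 + s + 2 * (|C2| * (1 + s)) / ε := by linarith
  have h2 : 2 * (|C2| * (1 + s) / (1 + s + 2 * (|C2| * (1 + s)) / ε)) ≤ ε := by
    rw [← mul_div_assoc, div_le_iff₀ hT0]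
    have e : ε * (1 + s + 2 * (|C2| * (1 + s)) / ε) = ε * (1 + s) + 2 * (|C2| * (1 + s)) := by
      field_simp
    rw [e]
    have : 0 ≤ ε * (1 + s) := by positivity
    linarith
  linarith

end H17S.Fr
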