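import Pool.Agent.Lib.H17S.F.F1

set_option autoImplicit false

/-!
Chunk F2 (S/M, many small). The complex coordinates `ale n M` (conformal part) and `bec n e M` (anticonformal part). No analysis.
All statements follow from F1 by `Complex.ext` (with `f = nx n e`, `c11 = dt3 e (mv3 M e)`, `c12 = dt3 e (mv3 M f)`, `c21 = dt3 f (mv3 M e)`, `c22 = dt3 f (mv3 M f)`):
`ale n M = ⟨(c11 + c22)/2, (c21 - c12)/2⟩` (`f2_ale`, from `f1_tr`, `f1_J`), `bec n e M = ⟨(c11 - c22)/2, (c21 + c12)/2⟩` (definition), products: `f1_mul` with `p, q` in `{e, f}`, transposition `f1_tp`, rotation `f1_rot1`, `f1_rot2`.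
`dtB_ab`, `sq_ab`: `f1_dt`, `f1_sq` (`‖z‖^2 = re^2 + im^2`, `Complex.sq_norm`, `Complex.normSq_apply`). `ent_le`: with `P i = e i + I f i` (`‖P i‖ ^ 2 = proj n i i <= 1`, `ut_id`) `f1_mat` says
`M i j = Re (conj (P i) (al P j + be conj (P j)))`. `ab_ext`: `f1_mat` for `M` and `N` (the four coefficients are determined by `ale`, `bec`).
`ale_sym`: in the sum for the imaginary part the terms cancel in pairs (`Fin.sum_univ_three`). `ale_proj`: `tr proj = 2`, `ale_sym`; `bec_proj`: `mv3 (proj n) e = e`, `mv3 (proj n) f = f`.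
`ab_le`: crude, each coordinate of `n`, `e`, `f` is `<= 1` in absolute value. `vc_mul`: `ut_vec` for `w`. `qv`: `∑ i, ∑ j, V i M i j V j = dt3 V (mv3 M V)`, `ut_vec` for `V`.
-/

open MeasureTheory Filter Topology Set
open scoped ContDiff ComplexConjugate

namespace H17S.Fr

open NullPen (E3 S2 sm proj pd MatterData NullData)
open NullU (Frm Tng dtB rotB crs cf mh dB rl hh)

theorem f2_r (p q w : Fin 3 → ℝ) (a b : ℝ) :
    dt3 w (fun i => a * p i + b * q i) = a * dt3 w p + b * dt3 w q := by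
  simp only [dt3, Fin.sum_univ_three]
  ring

theorem f2_l (p q w : Fin 3 → ℝ) (a b : ℝ) :
    dt3 (fun i => a * p i + b * q i) w = a * dt3 p w + b * dt3 q w := by
  simp only [dt3, Fin.sum_univ_three]
  ring

theorem f2_m (M : Fin 3 → Fin 3 → ℝ) (p q : Fin 3 → ℝ) (a b : ℝ) :
    mv3 M (fun i => a * p i + b * q i) = fun i => a * mv3 M p i + b * mv3 M q i := by
  funext i
  simp only [mv3, Fin.sum_univ_three]
  ring

theorem f2_ale (n : S2) {e : Fin 3 → ℝ} (he : Ut n e) {M : Fin 3 → Fin 3 → ℝ} (hM : Tng n M) :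
    ale n M = ⟨(dt3 e (mv3 M e) + dt3 (nx n e) (mv3 M (nx n e))) / 2, (dt3 (nx n e) (mv3 M e) - dt3 e (mv3 M (nx n e))) / 2⟩ := by
  unfold ale
  rw [f1_tr n he hM, f1_J n he hM]

theorem tng_mm3 (n : S2) {M N : Fin 3 → Fin 3 → ℝ} (hM : Tng n M) (hN : Tng n N) : Tng n (mm3 M N) := by
  constructor
  · intro i
    have h0 := hN.r 0
    have h1 := hN.r 1
    have h2 := hN.r 2
    simp only [mm3, Fin.sum_univ_three] at *
    linear_combination M i 0 * h0 + M i 1 * h1 + M i 2 * h2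
  · intro j
    have h0 := hM.l 0
    have h1 := hM.l 1
    have h2 := hM.l 2
    simp only [mm3, Fin.sum_univ_three] at *
    linear_combination N 0 j * h0 + N 1 j * h1 + N 2 j * h2

theorem tng_tp (n : S2) {M : Fin 3 → Fin 3 → ℝ} (hM : Tng n M) : Tng n (tp M) := by
  constructor
  · intro i
    rw [← hM.l i]
    exact Finset.sum_congr rfl fun j _ => mul_comm _ _
  · intro j
    rw [← hM.r j]
    exact Finset.sum_congr rfl fun i _ => mul_comm _ _

theorem f2_n1 (n : S2) : (n : E3) 0 ^ 2 + (n : E3) 1 ^ 2 + (n : E3) 2 ^ 2 = 1 := by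
  have h := nsq1 n
  rwa [Fin.sum_univ_three] at h

theorem f2_pr (n : E3) (i j : Fin 3) : proj n i j = (if i = j then 1 else 0) - n i * n j := rfl

theorem tng_proj (n : S2) : Tng n (proj n) := by
  have h := f2_n1 n
  constructor
  · intro i
    simp only [f2_pr, Fin.sum_univ_three]
    fin_cases i
    · simp
      linear_combination (-(n : E3) 0) * h
    · simp
      linear_combination (-(n : E3) 1) * h
    · simp
      linear_combination (-(n : E3) 2) * h
  · intro i
    simp only [f2_pr, Fin.sum_univ_three]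
    fin_cases i
    · simp
      linear_combination (-(n : E3) 0) * h
    · simp
      linear_combination (-(n : E3) 1) * h
    · simp
      linear_combination (-(n : E3) 2) * h

theorem tng_lin (n : S2) {M N : Fin 3 → Fin 3 → ℝ} (hM : Tng n M) (hN : Tng n N) (a b : ℝ) :
    Tng n (fun i j => a * M i j + b * N i j) := by
  constructor
  · intro i
    have h0 := hM.r i
    have h1 := hN.r i
    simp only [Fin.sum_univ_three] at *
    linear_combination a * h0 + b * h1
  · intro i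
    have h0 := hM.l i
    have h1 := hN.l i
    simp only [Fin.sum_univ_three] at *
    linear_combination a * h0 + b * h1

theorem ale_mul (n : S2) {e : Fin 3 → ℝ} (he : Ut n e) {M N : Fin 3 → Fin 3 → ℝ} (hM : Tng n M) (hN : Tng n N) :
    ale n (mm3 M N) = ale n M * ale n N + bec n e M * conj (bec n e N) := by
  rw [f2_ale n he (tng_mm3 n hM hN), f2_ale n he hM, f2_ale n he hN, f1_mul n he hM hN, f1_mul n he hM hN,
    f1_mul n he hM hN, f1_mul n he hM hN]
  unfold bec
  apply Complex.ext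
  · simp only [Complex.add_re, Complex.mul_re, Complex.conj_re, Complex.conj_im]
    ring
  · simp only [Complex.add_im, Complex.mul_im, Complex.conj_re, Complex.conj_im]
    ring

theorem bec_mul (n : S2) {e : Fin 3 → ℝ} (he : Ut n e) {M N : Fin 3 → Fin 3 → ℝ} (hM : Tng n M) (hN : Tng n N) :
    bec n e (mm3 M N) = ale n M * bec n e N + bec n e M * conj (ale n N) := by
  rw [f2_ale n he hM, f2_ale n he hN]
  unfold bec
  rw [f1_mul n he hM hN, f1_mul n he hM hN, f1_mul n he hM hN, f1_mul n he hM hN]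
  apply Complex.ext
  · simp only [Complex.add_re, Complex.mul_re, Complex.conj_re, Complex.conj_im]
    ring
  · simp only [Complex.add_im, Complex.mul_im, Complex.conj_re, Complex.conj_im]
    ring

theorem ale_tp (n : S2) (M : Fin 3 → Fin 3 → ℝ) : ale n (tp M) = conj (ale n M) := by
  unfold ale tp
  apply Complex.ext
  · simp only [Complex.conj_re]
  · simp only [Complex.conj_im, Fin.sum_univ_three]
    simp only [Fin.isValue, zero_add, Fin.reduceAdd]
    ring

theorem bec_tp (n : S2) (e : Fin 3 → ℝ) (M : Fin 3 → Fin 3 → ℝ) : bec n e (tp M) = bec n e M := by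
  unfold bec
  rw [f1_tp, f1_tp, f1_tp, f1_tp]
  apply Complex.ext
  · rfl
  · simp only
    ring

theorem ale_rot (n : S2) {M : Fin 3 → Fin 3 → ℝ} (hM : Tng n M) (c σ : ℝ) : ale n (rotB n c σ M) = (⟨c, σ⟩ : ℂ) * ale n M := by
  have h := f2_n1 n
  have h0 := hM.r 0
  have h1 := hM.r 1
  have h2 := hM.r 2
  unfold ale rotB crs
  apply Complex.ext
  · simp only [Complex.mul_re, Fin.sum_univ_three]
    simp only [Fin.isValue, zero_add, Fin.reduceAdd]
    ring
  · simp only [Complex.mul_im, Fin.sum_univ_three] at *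
    simp only [Fin.isValue, zero_add, Fin.reduceAdd] at *
    linear_combination (σ / 2 * (M 0 0 + M 1 1 + M 2 2)) * h - σ / 2 * ((n : E3) 0 * h0 + (n : E3) 1 * h1 + (n : E3) 2 * h2)

theorem bec_rot (n : S2) {e : Fin 3 → ℝ} (he : Ut n e) (M : Fin 3 → Fin 3 → ℝ) (c σ : ℝ) :
    bec n e (rotB n c σ M) = (⟨c, σ⟩ : ℂ) * bec n e M := by
  unfold bec
  rw [f1_rot1 n he, f1_rot1 n he, f1_rot2 n he, f1_rot2 n he]
  apply Complex.ext
  · simp only [Complex.mul_re]
    ring
  · simp only [Complex.mul_im]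
    ring

theorem ale_lin (n : E3) (M N : Fin 3 → Fin 3 → ℝ) (a b : ℝ) :
    ale n (fun i j => a * M i j + b * N i j) = (a : ℂ) * ale n M + (b : ℂ) * ale n N := by
  unfold ale
  apply Complex.ext
  · simp only [Complex.add_re, Complex.mul_re, Complex.ofReal_re, Complex.ofReal_im, Fin.sum_univ_three]
    ring
  · simp only [Complex.add_im, Complex.mul_im, Complex.ofReal_re, Complex.ofReal_im, Fin.sum_univ_three]
    ring

theorem f2_lin (M N : Fin 3 → Fin 3 → ℝ) (a b : ℝ) (p q : Fin 3 → ℝ) :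
    dt3 p (mv3 (fun i j => a * M i j + b * N i j) q) = a * dt3 p (mv3 M q) + b * dt3 p (mv3 N q) := by
  simp only [dt3, mv3, Fin.sum_univ_three]
  ring

theorem bec_lin (n : E3) (e : Fin 3 → ℝ) (M N : Fin 3 → Fin 3 → ℝ) (a b : ℝ) :
    bec n e (fun i j => a * M i j + b * N i j) = (a : ℂ) * bec n e M + (b : ℂ) * bec n e N := by
  unfold bec
  rw [f2_lin, f2_lin, f2_lin, f2_lin]
  apply Complex.ext
  · simp only [Complex.add_re, Complex.mul_re, Complex.ofReal_re, Complex.ofReal_im]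
    ring
  · simp only [Complex.add_im, Complex.mul_im, Complex.ofReal_re, Complex.ofReal_im]
    ring

theorem ale_sym (n : E3) {M : Fin 3 → Fin 3 → ℝ} (hs : ∀ i j, M i j = M j i) : (ale n M).im = 0 := by
  unfold ale
  simp only [Fin.sum_univ_three]
  simp only [Fin.isValue, zero_add, Fin.reduceAdd]
  rw [hs 1 0, hs 2 0, hs 2 1]
  ring

theorem ale_proj (n : S2) : ale n (proj n) = 1 := by
  apply Complex.ext
  · have h := f2_n1 n
    unfold ale
    simp only [f2_pr, Fin.sum_univ_three, Complex.one_re]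
    simp
    linear_combination (-1 / 2 : ℝ) * h
  · rw [ale_sym, Complex.one_im]
    intro i j
    rw [f2_pr, f2_pr, mul_comm]
    by_cases hij : i = j
    · rw [if_pos hij, if_pos hij.symm]
    · rw [if_neg hij, if_neg (fun h => hij h.symm)]

theorem f2_prv (n : S2) {w : Fin 3 → ℝ} (hw : ∑ i, (n : E3) i * w i = 0) : mv3 (proj n) w = w := by
  funext i
  simp only [mv3, f2_pr, Fin.sum_univ_three] at *
  fin_cases i
  · simp
    linear_combination (-(n : E3) 0) * hw
  · simp
    linear_combination (-(n : E3) 1) * hw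
  · simp
    linear_combination (-(n : E3) 2) * hw

theorem f2_u {n : E3} {e : Fin 3 → ℝ} (he : Ut n e) : dt3 e e = 1 := by
  rw [← he.unit]
  exact Finset.sum_congr rfl fun i _ => (sq _).symm

theorem f2_c (p q : Fin 3 → ℝ) : dt3 p q = dt3 q p :=
  Finset.sum_congr rfl fun _ _ => mul_comm _ _

theorem bec_proj (n : S2) {e : Fin 3 → ℝ} (he : Ut n e) : bec n e (proj n) = 0 := by
  have hf := ut_nx n he
  unfold bec
  rw [f2_prv n he.tan, f2_prv n hf.tan, f2_u he, f2_u hf, ut_orth n he, f2_c, ut_orth n he]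
  apply Complex.ext
  · simp
  · simp

theorem f2_nq (z : ℂ) : ‖z‖ ^ 2 = z.re ^ 2 + z.im ^ 2 := by
  rw [Complex.sq_norm, Complex.normSq_apply]
  ring

theorem dtB_ab (n : S2) {e : Fin 3 → ℝ} (he : Ut n e) {M : Fin 3 → Fin 3 → ℝ} (hM : Tng n M) :
    dtB M = ‖ale n M‖ ^ 2 - ‖bec n e M‖ ^ 2 := by
  rw [f2_nq, f2_nq, f2_ale n he hM, f1_dt n he hM]
  unfold bec
  simp only
  ring

theorem sq_ab (n : S2) {e : Fin 3 → ℝ} (he : Ut n e) {M : Fin 3 → Fin 3 → ℝ} (hM : Tng n M) :
    ∑ i, ∑ j, M i j ^ 2 = 2 * (‖ale n M‖ ^ 2 + ‖bec n e M‖ ^ 2) := by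
  rw [f2_nq, f2_nq, f2_ale n he hM, f1_sq n he hM]
  unfold bec
  simp only
  ring

theorem f2_P (n : S2) {e : Fin 3 → ℝ} (he : Ut n e) (i : Fin 3) : ‖(⟨e i, nx n e i⟩ : ℂ)‖ ≤ 1 := by
  have h1 := ut_id n he i i
  have h2 : ‖(⟨e i, nx n e i⟩ : ℂ)‖ ^ 2 ≤ 1 := by
    rw [f2_nq]
    simp only
    rw [f2_pr, if_pos rfl] at h1
    nlinarith [sq_nonneg ((n : E3) i)]
  nlinarith [norm_nonneg (⟨e i, nx n e i⟩ : ℂ)]

theorem ent_le (n : S2) {e : Fin 3 → ℝ} (he : Ut n e) {M : Fin 3 → Fin 3 → ℝ} (hM : Tng n M) (i j : Fin 3) :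
    |M i j| ≤ ‖ale n M‖ + ‖bec n e M‖ := by
  have h1 : M i j = (conj (⟨e i, nx n e i⟩ : ℂ) * (ale n M * ⟨e j, nx n e j⟩ + bec n e M * conj (⟨e j, nx n e j⟩ : ℂ))).re := by
    rw [f1_mat n he hM i j, f2_ale n he hM]
    unfold bec
    simp only [Complex.add_re, Complex.mul_re, Complex.conj_re, Complex.conj_im, Complex.add_im, Complex.mul_im]
    ring
  rw [h1]
  refine (Complex.abs_re_le_norm _).trans ?_
  have hi := f2_P n he i
  have hj := f2_P n he j
  rw [norm_mul, RCLike.norm_conj]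
  calc ‖(⟨e i, nx n e i⟩ : ℂ)‖ * ‖ale n M * ⟨e j, nx n e j⟩ + bec n e M * conj (⟨e j, nx n e j⟩ : ℂ)‖
      ≤ 1 * ‖ale n M * ⟨e j, nx n e j⟩ + bec n e M * conj (⟨e j, nx n e j⟩ : ℂ)‖ :=
        mul_le_mul_of_nonneg_right hi (norm_nonneg _)
    _ ≤ ‖ale n M * ⟨e j, nx n e j⟩‖ + ‖bec n e M * conj (⟨e j, nx n e j⟩ : ℂ)‖ := by
        rw [one_mul]
        exact norm_add_le _ _
    _ = ‖ale n M‖ * ‖(⟨e j, nx n e j⟩ : ℂ)‖ + ‖bec n e M‖ * ‖(⟨e j, nx n e j⟩ : ℂ)‖ := by
        rw [norm_mul, norm_mul, RCLike.norm_conj]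
    _ ≤ ‖ale n M‖ * 1 + ‖bec n e M‖ * 1 :=
        add_le_add (mul_le_mul_of_nonneg_left hj (norm_nonneg _)) (mul_le_mul_of_nonneg_left hj (norm_nonneg _))
    _ = _ := by ring

theorem ab_ext (n : S2) {e : Fin 3 → ℝ} (he : Ut n e) {M N : Fin 3 → Fin 3 → ℝ} (hM : Tng n M) (hN : Tng n N)
    (h1 : ale n M = ale n N) (h2 : bec n e M = bec n e N) (i j : Fin 3) : M i j = N i j := by
  rw [f2_ale n he hM, f2_ale n he hN] at h1
  unfold bec at h2
  have a1 := congrArg Complex.re h1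
  have a2 := congrArg Complex.im h1
  have a3 := congrArg Complex.re h2
  have a4 := congrArg Complex.im h2
  simp only at a1 a2 a3 a4
  have b1 : dt3 e (mv3 M e) = dt3 e (mv3 N e) := by linarith
  have b2 : dt3 e (mv3 M (nx n e)) = dt3 e (mv3 N (nx n e)) := by linarith
  have b3 : dt3 (nx n e) (mv3 M e) = dt3 (nx n e) (mv3 N e) := by linarith
  have b4 : dt3 (nx n e) (mv3 M (nx n e)) = dt3 (nx n e) (mv3 N (nx n e)) := by linarith
  rw [f1_mat n he hM i j, f1_mat n he hN i j, b1, b2, b3, b4]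

theorem f2_le1 {n : E3} {e : Fin 3 → ℝ} (he : Ut n e) (i : Fin 3) : |e i| ≤ 1 := by
  have h1 := he.unit
  have h2 : e i ^ 2 ≤ ∑ i, e i ^ 2 := Finset.single_le_sum (f := fun i => e i ^ 2) (fun j _ => sq_nonneg _) (Finset.mem_univ i)
  rw [h1] at h2
  exact abs_le_one_iff_mul_self_le_one.2 (by nlinarith)

theorem f2_nle (n : S2) (i : Fin 3) : |(n : E3) i| ≤ 1 := by
  have h1 := nsq1 n
  have h2 : (n : E3) i ^ 2 ≤ ∑ i, (n : E3) i ^ 2 :=
    Finset.single_le_sum (f := fun i => (n : E3) i ^ 2) (fun j _ => sq_nonneg _) (Finset.mem_univ i)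
  rw [h1] at h2
  exact abs_le_one_iff_mul_self_le_one.2 (by nlinarith)

theorem f2_bd {M : Fin 3 → Fin 3 → ℝ} {K : ℝ} (hK : ∀ i j, |M i j| ≤ K) {p q : Fin 3 → ℝ} (hp : ∀ i, |p i| ≤ 1)
    (hq : ∀ i, |q i| ≤ 1) : |dt3 p (mv3 M q)| ≤ 9 * K := by
  have hK0 : 0 ≤ K := (abs_nonneg _).trans (hK 0 0)
  have h1 : ∀ i, |mv3 M q i| ≤ 3 * K := by
    intro i
    unfold mv3
    refine (Finset.abs_sum_le_sum_abs _ _).trans ?_
    calc ∑ j, |M i j * q j| ≤ ∑ _j : Fin 3, K := by
          apply Finset.sum_le_sum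
          intro j _
          rw [abs_mul]
          calc |M i j| * |q j| ≤ K * 1 := mul_le_mul (hK i j) (hq j) (abs_nonneg _) hK0
            _ = K := mul_one K
      _ = 3 * K := by simp
  unfold dt3
  refine (Finset.abs_sum_le_sum_abs _ _).trans ?_
  calc ∑ i, |p i * mv3 M q i| ≤ ∑ _i : Fin 3, 3 * K := by
        apply Finset.sum_le_sum
        intro i _
        rw [abs_mul]
        calc |p i| * |mv3 M q i| ≤ 1 * (3 * K) := mul_le_mul (hp i) (h1 i) (abs_nonneg _) zero_le_one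
          _ = 3 * K := one_mul _
    _ = 9 * K := by simp; ring

theorem ab_le (n : S2) {e : Fin 3 → ℝ} (he : Ut n e) {M : Fin 3 → Fin 3 → ℝ} {K : ℝ} (hK : ∀ i j, |M i j| ≤ K) :
    ‖ale n M‖ ≤ 10 * K ∧ ‖bec n e M‖ ≤ 20 * K := by
  have hK0 : 0 ≤ K := (abs_nonneg _).trans (hK 0 0)
  constructor
  · refine (Complex.norm_le_abs_re_add_abs_im _).trans ?_
    have h1 : |(ale n M).re| ≤ 3 * K := by
      unfold ale
      simp only
      rw [abs_div, abs_two]
      have h2 : |∑ i, M i i| ≤ 3 * K := by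
        refine (Finset.abs_sum_le_sum_abs _ _).trans ?_
        calc ∑ i, |M i i| ≤ ∑ _i : Fin 3, K := Finset.sum_le_sum fun i _ => hK i i
          _ = 3 * K := by simp
      linarith [abs_nonneg (∑ i, M i i)]
    have h3 : |(ale n M).im| ≤ 6 * K := by
      unfold ale
      simp only
      rw [abs_div, abs_two]
      have h2 : |∑ i, ((n : E3) (i + 1) * M i (i + 2) - (n : E3) (i + 2) * M i (i + 1))| ≤ 6 * K := by
        refine (Finset.abs_sum_le_sum_abs _ _).trans ?_
        calc ∑ i, |(n : E3) (i + 1) * M i (i + 2) - (n : E3) (i + 2) * M i (i + 1)| ≤ ∑ _i : Fin 3, 2 * K := by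
              apply Finset.sum_le_sum
              intro i _
              refine (abs_sub _ _).trans ?_
              rw [abs_mul, abs_mul]
              have e1 : |(n : E3) (i + 1)| * |M i (i + 2)| ≤ 1 * K :=
                mul_le_mul (f2_nle n _) (hK _ _) (abs_nonneg _) zero_le_one
              have e2 : |(n : E3) (i + 2)| * |M i (i + 1)| ≤ 1 * K :=
                mul_le_mul (f2_nle n _) (hK _ _) (abs_nonneg _) zero_le_one
              linarith
          _ = 6 * K := by simp; ring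
      linarith [abs_nonneg (∑ i, ((n : E3) (i + 1) * M i (i + 2) - (n : E3) (i + 2) * M i (i + 1)))]
    linarith
  · have h1 := f2_le1 he
    have h2 := f2_le1 (ut_nx n he)
    have c11 := f2_bd hK h1 h1
    have c12 := f2_bd hK h1 h2
    have c21 := f2_bd hK h2 h1
    have c22 := f2_bd hK h2 h2
    refine (Complex.norm_le_abs_re_add_abs_im _).trans ?_
    unfold bec
    simp only
    rw [abs_div, abs_div, abs_two]
    have e1 := abs_sub (dt3 e (mv3 M e)) (dt3 (nx n e) (mv3 M (nx n e)))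
    have e2 := abs_add_le (dt3 (nx n e) (mv3 M e)) (dt3 e (mv3 M (nx n e)))
    linarith

theorem f2_dec (n : S2) {e : Fin 3 → ℝ} (he : Ut n e) {w : Fin 3 → ℝ} (hw : ∑ i, (n : E3) i * w i = 0) :
    w = fun i => dt3 e w * e i + dt3 (nx n e) w * nx n e i := funext fun i => ut_vec n he hw i

theorem vc_mul (n : S2) {e : Fin 3 → ℝ} (he : Ut n e) {M : Fin 3 → Fin 3 → ℝ} (hM : Tng n M) {w : Fin 3 → ℝ}
    (hw : ∑ i, (n : E3) i * w i = 0) : vc n e (mv3 M w) = ale n M * vc n e w + bec n e M * conj (vc n e w) := by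
  have h1 : ∀ p, dt3 p (mv3 M w) = dt3 e w * dt3 p (mv3 M e) + dt3 (nx n e) w * dt3 p (mv3 M (nx n e)) := by
    intro p
    conv_lhs => rw [f2_dec n he hw, f2_m, f2_r]
  rw [f2_ale n he hM]
  unfold vc bec
  rw [h1, h1]
  apply Complex.ext
  · simp only [Complex.add_re, Complex.mul_re, Complex.conj_re, Complex.conj_im]
    ring
  · simp only [Complex.add_im, Complex.mul_im, Complex.conj_re, Complex.conj_im]
    ring

theorem f2_eq_aC (n : E3) (M : Fin 3 → Fin 3 → ℝ) : ale n M = aC n M := by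
  unfold ale aC
  have h : (∑ i, ∑ j, jm n i j * M i j) = ∑ i, (n (i + 1) * M i (i + 2) - n (i + 2) * M i (i + 1)) := by
    apply Finset.sum_congr rfl
    intro i _
    unfold jm cr crs
    simp only [sub_mul, Finset.sum_sub_distrib, mul_assoc]
    simp
  rw [h]
  apply Complex.ext
  · simp
  · simp

theorem f2_nn (n : S2) {e : Fin 3 → ℝ} (he : Ut n e) : nx n (nx n e) = fun i => - e i := by
  have h := f2_n1 n
  have ht := he.tan
  funext i
  rw [Fin.sum_univ_three] at ht
  unfold nx crs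
  fin_cases i
  · simp only [Fin.zero_eta, Fin.isValue, zero_add, Fin.reduceAdd]
    linear_combination (n : E3) 0 * ht - e 0 * h
  · simp only [Fin.mk_one, Fin.isValue, zero_add, Fin.reduceAdd]
    linear_combination (n : E3) 1 * ht - e 1 * h
  · simp only [Fin.reduceFinMk, Fin.isValue, zero_add, Fin.reduceAdd]
    linear_combination (n : E3) 2 * ht - e 2 * h

theorem f2_qC (n : S2) {e : Fin 3 → ℝ} (he : Ut n e) {M : Fin 3 → Fin 3 → ℝ} (hM : Tng n M) {V : Fin 3 → ℝ}
    (hV : ∑ i, (n : E3) i * V i = 0) : qC n M V = vc n e V ^ 2 * conj (bec n e M) := by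
  have hf := ut_nx n he
  obtain ⟨a, ha⟩ : ∃ a, a = dt3 e V := ⟨_, rfl⟩
  obtain ⟨b, hb⟩ : ∃ b, b = dt3 (nx n e) V := ⟨_, rfl⟩
  have hVd : V = fun i => a * e i + b * nx n e i := by
    rw [ha, hb]
    exact f2_dec n he hV
  have h1 : ∀ p, dt3 p (mv3 M V) = a * dt3 p (mv3 M e) + b * dt3 p (mv3 M (nx n e)) := by
    intro p
    rw [hVd, f2_m, f2_r]
  have hcr : cr n V = fun i => a * nx n e i + (-b) * e i := by
    have h2 : nx n (nx n e) = fun i => - e i := f2_nn n he
    funext i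
    have h3 : nx n (nx n e) i = - e i := congrFun h2 i
    have h4 : cr n V i = a * nx n e i + b * nx n (nx n e) i := by
      rw [hVd]
      unfold cr nx crs
      ring
    rw [h4, h3]
    ring
  have e1 : ∑ i, ∑ j, V i * M i j * V j = dt3 V (mv3 M V) := by
    unfold dt3 mv3
    apply Finset.sum_congr rfl
    intro i _
    rw [Finset.mul_sum]
    exact Finset.sum_congr rfl fun j _ => by ring
  have e2 : ∑ i, ∑ j, cr n V i * M i j * V j = dt3 (cr n V) (mv3 M V) := by
    unfold dt3 mv3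
    apply Finset.sum_congr rfl
    intro i _
    rw [Finset.mul_sum]
    exact Finset.sum_congr rfl fun j _ => by ring
  have e3 : dt3 V (mv3 M V) = a * dt3 e (mv3 M V) + b * dt3 (nx n e) (mv3 M V) := by
    conv_lhs => rw [hVd]
    rw [f2_l, ← hVd]
  have e4 : dt3 (cr n V) (mv3 M V) = a * dt3 (nx n e) (mv3 M V) + (-b) * dt3 e (mv3 M V) := by
    rw [hcr, f2_l]
  have e5 : nsq V = a ^ 2 + b ^ 2 := by
    have h5 : nsq V = dt3 V V := Finset.sum_congr rfl fun i _ => sq _
    have h6 : dt3 V V = a * dt3 e V + b * dt3 (nx n e) V := by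
      conv_lhs => rw [hVd]
      rw [f2_l, ← hVd]
    rw [h5, h6, ← ha, ← hb]
    ring
  unfold qC
  rw [← f2_eq_aC, f2_ale n he hM, e1, e2, e3, e4, e5, h1, h1]
  unfold vc bec
  rw [← ha, ← hb]
  apply Complex.ext
  · simp only [Complex.sub_re, Complex.mul_re, Complex.conj_re, Complex.conj_im, Complex.ofReal_re, Complex.ofReal_im,
      Complex.I_re, Complex.I_im, sq, Complex.mul_im]
    ring
  · simp only [Complex.sub_im, Complex.mul_im, Complex.conj_re, Complex.conj_im, Complex.ofReal_re, Complex.ofReal_im,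
      Complex.I_re, Complex.I_im, sq, Complex.mul_re]
    ring

end H17S.Fr
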