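import Pool.Agent.Lib.H17S.F.F0

set_option autoImplicit false

/-!
Chunk F3 (M, many small). One generator: calculus of `r = sqrt dA`. Write `a = D.dA`, `u = D.exL`, `k = kk D`.
Library: `NullU.dA_der` (`a' = u a`), `D.IsNull.ray` (`u' = - chiSq - e`), `NullU.dA_pos`, `NullU.ray_data` (gives `RayU`, see `H17U/NR.lean`: `rp_ge : 2 <= u sqrt a`, `u_pos`, `asy : |sqrt a - s| <= C` for `s >= 1`),
`NullU.be_nonneg`, `NullU.r_ge` (`s + be <= sqrt a`), `NullU.chiSq_ge` (with a frame from `NullU.exists_frame`, as in the proof of `NullU.ray_data` in `H17U/RD.lean`), `NullU.dA_cont_at`, `NullU.dA_cont`.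
`kk_nonneg`: `chiSq_ge`. `rr_der`: derivative of `sqrt`. `fq_der`: `r' = u r/2`, `r'' = (r/2)(u' + u^2/2) = (r/2)(- chiSq - e + u^2/2) = - r (k + e/2)`, so `(r - s r')' = - s r'' = s r (k + e/2)`.
`rs_mono`: `(r - s)' = r' - 1 >= 0`. `rs_bd`: for `s <= 1` by monotonicity, for `s >= 1` by `asy`; `0 <= r - s` from `r_ge`, `be_nonneg`. `fq_mono`: `fq' >= 0` (`k, e >= 0`).
`fq_bd`: upper bound: `fq <= r - s <= C` (`r' >= 1`). Lower bound `fq >= 0`: `r'` is antitone, so for `0 < ε < s` (mean value theorem) `r s - r ε >= (s - ε) r' s`, hence `r s - s r' s >= r ε - ε r' s >= - ε r' s`, and `ε -> 0`.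
`b0_ex`: `s ↦ r s - s` is monotone and bounded on `(0,∞)`: `b0 n` is its supremum (`tendsto_atTop_ciSup` or monotone convergence); at `s = 0` the inequality holds by continuity (`dA_cont`).
`rp_lim`: `0 <= s (r' s - 1)`, and by the mean value theorem on `[s/2, s]` (`r'` antitone) `r s - r (s/2) >= (s/2) r' s`, so `s (r' s - 1) <= 2 ((r s - s) - (r (s/2) - s/2)) -> 2 (b0 - b0) = 0`. Squeeze.
-/

open MeasureTheory Filter Topology Set
open scoped ContDiff ComplexConjugate

namespace H17S.Fr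

open NullPen (E3 S2 sm proj pd MatterData NullData)
open NullU (Frm Tng dtB rotB crs cf mh dB rl hh)

variable {D : MatterData}

private theorem f3_mono {f f' : ℝ → ℝ} (hd : ∀ s, 0 < s → HasDerivAt f (f' s) s) (hp : ∀ s, 0 < s → 0 ≤ f' s) {x y : ℝ}
    (hx : 0 < x) (hxy : x ≤ y) : f x ≤ f y := by
  refine monotoneOn_of_deriv_nonneg (convex_Icc x y) (fun s hs => ?_) (fun s hs => ?_) (fun s hs => ?_)
    (left_mem_Icc.2 hxy) (right_mem_Icc.2 hxy) hxy
  · exact (hd s (hx.trans_le hs.1)).continuousAt.continuousWithinAt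
  · rw [interior_Icc] at hs
    exact (hd s (hx.trans hs.1)).differentiableAt.differentiableWithinAt
  · rw [interior_Icc] at hs
    rw [(hd s (hx.trans hs.1)).deriv]
    exact hp s (hx.trans hs.1)

theorem kk_nonneg (hD : D.IsNull) {s : ℝ} (hs : 0 < s) (n : S2) : 0 ≤ kk D s n := by
  obtain ⟨B, hB⟩ := NullU.exists_frame hD (δ := s / 2) (T := s) (by linarith) (by linarith)
  have h1 := NullU.chiSq_ge hD hB (s := s) (by linarith) n
  unfold kk
  linarith

theorem rr_der (hD : D.IsNull) {s : ℝ} (hs : 0 < s) (n : S2) :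
    HasDerivAt (fun t => Real.sqrt (D.dA t n)) (D.exL s n * Real.sqrt (D.dA s n) / 2) s := by
  have h1 := NullU.dA_pos hD n hs.le
  have h2 := (NullU.dA_der hD n hs).sqrt h1.ne'
  have e : D.exL s n * D.dA s n / (2 * Real.sqrt (D.dA s n)) = D.exL s n * Real.sqrt (D.dA s n) / 2 := by
    have h3 := Real.sqrt_pos.2 h1
    have h4 := Real.mul_self_sqrt h1.le
    rw [div_eq_div_iff (by positivity) (by norm_num)]
    linear_combination (-2 * D.exL s n) * h4
  rwa [e] at h2

theorem rp_der (hD : D.IsNull) {s : ℝ} (hs : 0 < s) (n : S2) :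
    HasDerivAt (fun t => D.exL t n * Real.sqrt (D.dA t n) / 2) (-(Real.sqrt (D.dA s n) * (kk D s n + D.e s n / 2))) s := by
  have h1 := ((hD.ray s hs n).mul (rr_der hD hs n)).div_const 2
  refine h1.congr_deriv ?_
  unfold kk
  ring

theorem fq_der (hD : D.IsNull) {s : ℝ} (hs : 0 < s) (n : S2) :
    HasDerivAt (fun t => fq D t n) (s * (Real.sqrt (D.dA s n) * (kk D s n + D.e s n / 2))) s := by
  have h1 := (rr_der hD hs n).sub ((hasDerivAt_id s).mul (rp_der hD hs n))
  refine h1.congr_deriv ?_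
  simp only [id]
  ring

theorem rp_ge (hD : D.IsNull) (hA : D.AsympFlat) {s : ℝ} (hs : 0 < s) (n : S2) : 1 ≤ D.exL s n * Real.sqrt (D.dA s n) / 2 := by
  obtain ⟨C, _, h⟩ := NullU.ray_data hD hA
  have h1 := (h n).rp_ge hs
  linarith

theorem rs_mono (hD : D.IsNull) (hA : D.AsympFlat) {s t : ℝ} (hs : 0 < s) (hst : s ≤ t) (n : S2) :
    Real.sqrt (D.dA s n) - s ≤ Real.sqrt (D.dA t n) - t := by
  exact f3_mono (f := fun s => Real.sqrt (D.dA s n) - s) (f' := fun s => D.exL s n * Real.sqrt (D.dA s n) / 2 - 1)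
    (fun s hs => (rr_der hD hs n).sub (hasDerivAt_id s)) (fun s hs => sub_nonneg.2 (rp_ge hD hA hs n)) hs hst

theorem rs_bd (hD : D.IsNull) (hA : D.AsympFlat) : ∃ C : ℝ, 0 ≤ C ∧ ∀ s, 0 < s → ∀ n : S2,
    s ≤ Real.sqrt (D.dA s n) ∧ Real.sqrt (D.dA s n) ≤ s + C := by
  obtain ⟨C, hC, h⟩ := NullU.ray_data hD hA
  refine ⟨C, hC, fun s hs n => ⟨?_, ?_⟩⟩
  · have h1 := NullU.r_ge hD hA hs n
    have h2 := NullU.be_nonneg hD hA hs n
    linarith
  · have h1 := rs_mono hD hA hs (le_max_left s 1) n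
    have h2 := (abs_le.1 ((h n).asy (max s 1) (le_max_right s 1))).2
    linarith

theorem fq_bd (hD : D.IsNull) (hA : D.AsympFlat) : ∃ C : ℝ, 0 ≤ C ∧ ∀ s, 0 < s → ∀ n : S2, 0 ≤ fq D s n ∧ fq D s n ≤ C := by
  obtain ⟨C, hC, h⟩ := rs_bd hD hA
  refine ⟨C, hC, fun s hs n => ⟨?_, ?_⟩⟩
  · have h0 : ∀ t, 0 < t → 0 ≤ D.exL t n * Real.sqrt (D.dA t n) / 2 := fun t ht => by
      have := rp_ge hD hA ht n
      linarith
    have hk : ∀ t, 0 < t → 0 ≤ Real.sqrt (D.dA t n) * (kk D t n + D.e t n / 2) := fun t ht =>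
      mul_nonneg (Real.sqrt_nonneg _) (add_nonneg (kk_nonneg hD ht n) (div_nonneg (hD.e_nonneg t ht.le n) (by norm_num)))
    have hm : ∀ ε, 0 < ε → ε ≤ s → fq D ε n ≤ fq D s n := fun ε hε hεs =>
      f3_mono (f := fun t => fq D t n) (f' := fun t => t * (Real.sqrt (D.dA t n) * (kk D t n + D.e t n / 2)))
        (fun t ht => fq_der hD ht n) (fun t ht => mul_nonneg ht.le (hk t ht)) hε hεs
    have ha : ∀ ε, 0 < ε → ε ≤ s → D.exL s n * Real.sqrt (D.dA s n) / 2 ≤ D.exL ε n * Real.sqrt (D.dA ε n) / 2 := fun ε hε hεs => by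
      have := f3_mono (f := fun t => -(D.exL t n * Real.sqrt (D.dA t n) / 2)) (f' := fun t => -(-(Real.sqrt (D.dA t n) * (kk D t n + D.e t n / 2))))
        (fun t ht => (rp_der hD ht n).neg) (fun t ht => by rw [neg_neg]; exact hk t ht) hε hεs
      linarith
    have hl : ∀ ε, 0 < ε → ε ≤ s → -(ε * (D.exL s n * Real.sqrt (D.dA s n) / 2)) ≤ fq D s n := by
      intro ε hε hεs
      have h5 : Real.sqrt (D.dA ε n) - (D.exL s n * Real.sqrt (D.dA s n) / 2) * ε ≤
          Real.sqrt (D.dA s n) - (D.exL s n * Real.sqrt (D.dA s n) / 2) * s := by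
        refine monotoneOn_of_deriv_nonneg (f := fun t => Real.sqrt (D.dA t n) - (D.exL s n * Real.sqrt (D.dA s n) / 2) * t)
          (convex_Icc ε s) (fun t ht => ?_) (fun t ht => ?_) (fun t ht => ?_)
          (left_mem_Icc.2 hεs) (right_mem_Icc.2 hεs) hεs
        · exact ((rr_der hD (hε.trans_le ht.1) n).sub ((hasDerivAt_id t).const_mul _)).continuousAt.continuousWithinAt
        · rw [interior_Icc] at ht
          exact ((rr_der hD (hε.trans ht.1) n).sub ((hasDerivAt_id t).const_mul _)).differentiableAt.differentiableWithinAt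
        · rw [interior_Icc] at ht
          have ht0 : 0 < t := hε.trans ht.1
          have h6 := (rr_der hD ht0 n).sub ((hasDerivAt_id t).const_mul (D.exL s n * Real.sqrt (D.dA s n) / 2))
          have h8 : HasDerivAt (fun t => Real.sqrt (D.dA t n) - (D.exL s n * Real.sqrt (D.dA s n) / 2) * t)
              (D.exL t n * Real.sqrt (D.dA t n) / 2 - D.exL s n * Real.sqrt (D.dA s n) / 2 * 1) t := h6
          rw [h8.deriv]
          have h7 : D.exL s n * Real.sqrt (D.dA s n) / 2 ≤ D.exL t n * Real.sqrt (D.dA t n) / 2 := by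
            have := f3_mono (f := fun t => -(D.exL t n * Real.sqrt (D.dA t n) / 2)) (f' := fun t => -(-(Real.sqrt (D.dA t n) * (kk D t n + D.e t n / 2))))
              (fun t ht => (rp_der hD ht n).neg) (fun t ht => by rw [neg_neg]; exact hk t ht) ht0 ht.2.le
            linarith
          linarith
      have h6 := Real.sqrt_nonneg (D.dA ε n)
      unfold fq
      nlinarith
    refine le_of_forall_pos_lt_add (fun δ hδ => ?_)
    have hr := h0 s hs
    set R := D.exL s n * Real.sqrt (D.dA s n) / 2 with hR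
    have h7 := hl (min s (δ / (2 * (R + 1)))) (lt_min hs (by positivity)) (min_le_left _ _)
    have h8 : min s (δ / (2 * (R + 1))) * R ≤ δ / 2 := by
      calc min s (δ / (2 * (R + 1))) * R ≤ (δ / (2 * (R + 1))) * (R + 1) :=
            mul_le_mul (min_le_right _ _) (by linarith) hr (by positivity)
        _ = δ / 2 := by field_simp
    linarith
  · have h1 := (h s hs n).2
    have h2 := rp_ge hD hA hs n
    unfold fq
    nlinarith

theorem b0_ex (hD : D.IsNull) (hA : D.AsympFlat) : ∃ (C : ℝ) (b0 : S2 → ℝ), 0 ≤ C ∧ ∀ n : S2,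
    Tendsto (fun s => Real.sqrt (D.dA s n) - s) atTop (𝓝 (b0 n)) ∧ (∀ s, 0 ≤ s → Real.sqrt (D.dA s n) - s ≤ b0 n) ∧ |b0 n| ≤ C := by
  obtain ⟨C, hC, h⟩ := rs_bd hD hA
  have hmono : ∀ n : S2, Monotone (fun s : ℝ => Real.sqrt (D.dA (max s 1) n) - max s 1) := fun n s t hst =>
    rs_mono hD hA (lt_of_lt_of_le one_pos (le_max_right s 1)) (max_le_max_right 1 hst) n
  have hbdd : ∀ n : S2, BddAbove (range (fun s : ℝ => Real.sqrt (D.dA (max s 1) n) - max s 1)) := fun n =>
    ⟨C, by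
      rintro _ ⟨s, rfl⟩
      have := (h (max s 1) (lt_of_lt_of_le one_pos (le_max_right s 1)) n).2

      linarith⟩
  have hlim : ∀ n : S2, Tendsto (fun s => Real.sqrt (D.dA s n) - s) atTop
      (𝓝 (⨆ s : ℝ, (Real.sqrt (D.dA (max s 1) n) - max s 1))) := by
    intro n
    have h1 := tendsto_atTop_ciSup (hmono n) (hbdd n)
    refine h1.congr' ?_
    filter_upwards [eventually_ge_atTop (1 : ℝ)] with s hs
    rw [max_eq_left hs]
  have hpos : ∀ n : S2, ∀ s : ℝ, 0 < s → Real.sqrt (D.dA s n) - s ≤ ⨆ s : ℝ, (Real.sqrt (D.dA (max s 1) n) - max s 1) := by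
    intro n s hs
    refine (rs_mono hD hA hs (le_max_left s 1) n).trans ?_
    exact le_ciSup (hbdd n) s
  refine ⟨C, fun n => ⨆ s : ℝ, (Real.sqrt (D.dA (max s 1) n) - max s 1), hC, fun n => ⟨hlim n, ?_, ?_⟩⟩
  · intro s hs
    rcases hs.eq_or_lt with h0 | h0
    · subst h0
      have hc : ContinuousWithinAt (fun s : ℝ => Real.sqrt (D.dA s n) - s) (Ici 0) 0 := by
        have h1 : ContinuousWithinAt (fun p : ℝ × S2 => D.dA p.1 p.2) (Ici 0 ×ˢ univ) (0, n) :=
          NullU.dA_cont hD (0, n) ⟨mem_Ici.2 le_rfl, mem_univ _⟩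
        have h2 : ContinuousWithinAt (fun s : ℝ => ((s, n) : ℝ × S2)) (Ici 0) 0 := by
          have : Continuous (fun s : ℝ => ((s, n) : ℝ × S2)) := by fun_prop
          exact this.continuousWithinAt
        have h3 : ContinuousWithinAt (fun s : ℝ => D.dA s n) (Ici 0) 0 :=
          ContinuousWithinAt.comp (g := fun p : ℝ × S2 => D.dA p.1 p.2) (f := fun s : ℝ => ((s, n) : ℝ × S2)) h1 h2
            (fun s hs => ⟨hs, mem_univ _⟩)
        exact h3.sqrt.sub continuousWithinAt_id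
      have h4 : Tendsto (fun s : ℝ => Real.sqrt (D.dA s n) - s) (𝓝[>] 0) (𝓝 (Real.sqrt (D.dA 0 n) - 0)) :=
        hc.tendsto.mono_left (nhdsWithin_mono _ Ioi_subset_Ici_self)
      refine le_of_tendsto h4 ?_
      filter_upwards [self_mem_nhdsWithin] with s hs
      exact hpos n s hs
    · exact hpos n s h0
  · rw [abs_le]
    constructor
    · have h1 := hpos n 1 one_pos
      have h2 := (h 1 one_pos n).1
      linarith
    · refine ciSup_le fun s => ?_
      have := (h (max s 1) (lt_of_lt_of_le one_pos (le_max_right s 1)) n).2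
      linarith

theorem rp_lim (hD : D.IsNull) (hA : D.AsympFlat) (n : S2) :
    Tendsto (fun s => s * (D.exL s n * Real.sqrt (D.dA s n) / 2 - 1)) atTop (𝓝 0) := by
  obtain ⟨C, b0, hC, hb⟩ := b0_ex hD hA
  have hk : ∀ t, 0 < t → 0 ≤ Real.sqrt (D.dA t n) * (kk D t n + D.e t n / 2) := fun t ht =>
    mul_nonneg (Real.sqrt_nonneg _) (add_nonneg (kk_nonneg hD ht n) (div_nonneg (hD.e_nonneg t ht.le n) (by norm_num)))
  have h1 : Tendsto (fun s : ℝ => 2 * ((Real.sqrt (D.dA s n) - s) - (Real.sqrt (D.dA (s / 2) n) - s / 2))) atTop (𝓝 0) := by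
    have h2 := (hb n).1
    have h3 : Tendsto (fun s : ℝ => s / 2) atTop atTop := tendsto_id.atTop_div_const (by norm_num)
    have h4 := (h2.sub (h2.comp h3)).const_mul 2
    simpa using h4
  refine tendsto_of_tendsto_of_tendsto_of_le_of_le' tendsto_const_nhds h1 ?_ ?_
  · filter_upwards [eventually_gt_atTop (0 : ℝ)] with s hs
    exact mul_nonneg hs.le (sub_nonneg.2 (rp_ge hD hA hs n))
  · filter_upwards [eventually_gt_atTop (0 : ℝ)] with s hs
    have hs2 : 0 < s / 2 := by linarith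
    have h5 : Real.sqrt (D.dA (s / 2) n) - (D.exL s n * Real.sqrt (D.dA s n) / 2) * (s / 2) ≤
        Real.sqrt (D.dA s n) - (D.exL s n * Real.sqrt (D.dA s n) / 2) * s := by
      have hεs : s / 2 ≤ s := by linarith
      refine monotoneOn_of_deriv_nonneg (f := fun t => Real.sqrt (D.dA t n) - (D.exL s n * Real.sqrt (D.dA s n) / 2) * t)
        (convex_Icc (s / 2) s) (fun t ht => ?_) (fun t ht => ?_) (fun t ht => ?_)
        (left_mem_Icc.2 hεs) (right_mem_Icc.2 hεs) hεs
      · exact ((rr_der hD (hs2.trans_le ht.1) n).sub ((hasDerivAt_id t).const_mul _)).continuousAt.continuousWithinAt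
      · rw [interior_Icc] at ht
        exact ((rr_der hD (hs2.trans ht.1) n).sub ((hasDerivAt_id t).const_mul _)).differentiableAt.differentiableWithinAt
      · rw [interior_Icc] at ht
        have ht0 : 0 < t := hs2.trans ht.1
        have h6 := (rr_der hD ht0 n).sub ((hasDerivAt_id t).const_mul (D.exL s n * Real.sqrt (D.dA s n) / 2))
        have h8 : HasDerivAt (fun t => Real.sqrt (D.dA t n) - (D.exL s n * Real.sqrt (D.dA s n) / 2) * t)
            (D.exL t n * Real.sqrt (D.dA t n) / 2 - D.exL s n * Real.sqrt (D.dA s n) / 2 * 1) t := h6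
        rw [h8.deriv]
        have h7 : D.exL s n * Real.sqrt (D.dA s n) / 2 ≤ D.exL t n * Real.sqrt (D.dA t n) / 2 := by
          have := f3_mono (f := fun t => -(D.exL t n * Real.sqrt (D.dA t n) / 2)) (f' := fun t => -(-(Real.sqrt (D.dA t n) * (kk D t n + D.e t n / 2))))
            (fun t ht => (rp_der hD ht n).neg) (fun t ht => by rw [neg_neg]; exact hk t ht) ht0 ht.2.le
          linarith
        linarith
    nlinarith

end H17S.Fr
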