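import Mathlib

set_option autoImplicit false

/-!
Chunk F4 (S/M, PURE MATHLIB). Oscillation estimate.
Proof. Let `l = 1/(s √s)` and `H τ = (c/2) (l G τ - (1/l) / (3 τ^3))` on `[s, t]`. `H' τ = (c/2) (l G' τ + (1/l)/τ^4) >= (c/2) (l τ^2 k + (1/l)/τ^4) >= c √(k τ) / τ` (AM-GM: `l τ^2 k + 1/(l τ^4) - 2 √k/τ = (√l τ √k - 1/(√l τ^2))^2 >= 0`)
`>= ‖f' τ‖`. Hence `‖f t - f s‖ <= H t - H s` (`image_norm_le_of_norm_deriv_right_le_deriv_boundary` applied to `τ ↦ f τ - f s`, or `norm_image_sub_le...`), and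
`H t - H s <= (c/2)(l C + (1/l)/(3 s^3)) = (c/2) (C/(s√s) + s√s/(3 s^3)) <= c (C + 1)/(s √s)` (`√s^2 = s`).
`osc_lim`: Cauchy criterion: `f` has a limit `L` at infinity and `‖L - f s‖ <= c (C + 1)/(s √s)` (pass to the limit `t -> ∞` in `osc`, `le_of_tendsto`).
-/

open MeasureTheory Filter Topology Set

namespace H17S.Fr

theorem f4_amgm {l a b : ℝ} (hl : 0 < l) : 2 * a * b ≤ l * a ^ 2 + (1 / l) * b ^ 2 := by
  have h1 : 0 ≤ (l * a - b) ^ 2 / l := by positivity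
  have h2 : (l * a - b) ^ 2 / l = l * a ^ 2 + (1 / l) * b ^ 2 - 2 * a * b := by
    field_simp
    ring
  linarith

theorem osc {E : Type*} [NormedAddCommGroup E] [NormedSpace ℝ E] {f f' : ℝ → E} {G G' k : ℝ → ℝ} {δ c C : ℝ} (hδ : 0 < δ)
    (hc : 0 ≤ c) (hf : ∀ s, δ ≤ s → HasDerivAt f (f' s) s) (hG : ∀ s, δ ≤ s → HasDerivAt G (G' s) s)
    (hk : ∀ s, δ ≤ s → 0 ≤ k s ∧ s ^ 2 * k s ≤ G' s) (hb : ∀ s, δ ≤ s → ‖f' s‖ ≤ c * Real.sqrt (k s) / s)
    (hG0 : ∀ s, δ ≤ s → 0 ≤ G s ∧ G s ≤ C) {s t : ℝ} (hs : δ ≤ s) (hst : s ≤ t) :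
    ‖f t - f s‖ ≤ c * (C + 1) / (s * Real.sqrt s) := by
  have hs0 : 0 < s := hδ.trans_le hs
  set u := Real.sqrt s with hu
  have hu0 : 0 < u := Real.sqrt_pos.2 hs0
  have hsu : s = u ^ 2 := (Real.sq_sqrt hs0.le).symm
  set l := 1 / (s * u) with hl
  have hl0 : 0 < l := by positivity
  have hC : 0 ≤ C := (hG0 s hs).1.trans (hG0 s hs).2
  set H : ℝ → ℝ := fun τ => c / 2 * (l * G τ - (1 / l) * (1 / (3 * τ ^ 3))) with hH
  have hd : ∀ x, δ ≤ x → HasDerivAt H (c / 2 * (l * G' x + (1 / l) * (1 / x ^ 2) ^ 2)) x := by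
    intro x hx
    have hx0 : 0 < x := hδ.trans_le hx
    have h1 : HasDerivAt (fun τ : ℝ => 1 / (3 * τ ^ 3)) (-(1 / x ^ 2) ^ 2) x := by
      have h2 := (((hasDerivAt_pow 3 x).const_mul 3).inv (by positivity : 3 * x ^ 3 ≠ 0))
      refine (h2.congr_deriv ?_).congr_of_eventuallyEq (Eventually.of_forall fun τ => ?_)
      · push_cast
        field_simp
      · simp only [one_div]
        rfl
    have h3 := (((hG x hx).const_mul l).sub (h1.const_mul (1 / l))).const_mul (c / 2)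
    refine h3.congr_deriv ?_
    ring
  have key := image_norm_le_of_norm_deriv_right_le_deriv_boundary' (f := fun τ => f τ - f s) (f' := f') (a := s) (b := t)
    (B := fun τ => H τ - H s) (B' := fun x => c / 2 * (l * G' x + (1 / l) * (1 / x ^ 2) ^ 2))
    (fun x hx => ((hf x (hs.trans hx.1)).continuousAt.sub continuousAt_const).continuousWithinAt)
    (fun x hx => ((hf x (hs.trans hx.1)).sub_const (f s)).hasDerivWithinAt)
    (by simp)
    (fun x hx => ((hd x (hs.trans hx.1)).continuousAt.sub continuousAt_const).continuousWithinAt)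
    (fun x hx => ((hd x (hs.trans hx.1)).sub_const (H s)).hasDerivWithinAt)
    (by
      intro x hx
      have hx0 : 0 < x := hs0.trans_le hx.1
      have hδx := hs.trans hx.1
      obtain ⟨k0, kG⟩ := hk x hδx
      refine (hb x hδx).trans ?_
      have h1 := f4_amgm (l := l) (a := x * Real.sqrt (k x)) (b := 1 / x ^ 2) hl0
      have h2 : (x * Real.sqrt (k x)) ^ 2 = x ^ 2 * k x := by
        rw [mul_pow, Real.sq_sqrt k0]
      rw [h2] at h1
      have h3 : 2 * (x * Real.sqrt (k x)) * (1 / x ^ 2) = 2 * (Real.sqrt (k x) / x) := by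
        field_simp
      rw [h3] at h1
      have h4 : l * (x ^ 2 * k x) ≤ l * G' x := mul_le_mul_of_nonneg_left kG hl0.le
      have h5 : c * Real.sqrt (k x) / x = c / 2 * (2 * (Real.sqrt (k x) / x)) := by ring
      rw [h5]
      apply mul_le_mul_of_nonneg_left _ (by positivity)
      linarith)
  have h1 := key (x := t) ⟨hst, le_rfl⟩
  refine h1.trans ?_
  have ht0 : 0 < t := hs0.trans_le hst
  have h2 : H t - H s ≤ c / 2 * (l * C + (1 / l) * (1 / (3 * s ^ 3))) := by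
    have e1 : H t - H s = c / 2 * (l * (G t - G s) - (1 / l) * (1 / (3 * t ^ 3)) + (1 / l) * (1 / (3 * s ^ 3))) := by
      simp only [hH]
      ring
    rw [e1]
    apply mul_le_mul_of_nonneg_left _ (by positivity)
    have e2 : 0 ≤ (1 / l) * (1 / (3 * t ^ 3)) := by positivity
    have e3 : l * (G t - G s) ≤ l * C := by
      apply mul_le_mul_of_nonneg_left _ hl0.le
      linarith [(hG0 t (hs.trans hst)).2, (hG0 s hs).1]
    linarith
  refine h2.trans ?_
  have e4 : c / 2 * (l * C + (1 / l) * (1 / (3 * s ^ 3))) = c * (C / 2 + 1 / 6) / (s * u) := by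
    rw [hl, hsu]
    field_simp
    ring
  rw [e4]
  apply div_le_div_of_nonneg_right _ (by positivity)
  apply mul_le_mul_of_nonneg_left _ hc
  linarith

theorem osc_lim {E : Type*} [NormedAddCommGroup E] [NormedSpace ℝ E] [CompleteSpace E] {f : ℝ → E} {δ K : ℝ} (hδ : 0 < δ)
    (h : ∀ s t, δ ≤ s → s ≤ t → ‖f t - f s‖ ≤ K / (s * Real.sqrt s)) :
    ∃ L, Tendsto f atTop (𝓝 L) ∧ ∀ s, δ ≤ s → ‖f s - L‖ ≤ K / (s * Real.sqrt s) := by
  have h0 : Tendsto (fun s : ℝ => K / (s * Real.sqrt s)) atTop (𝓝 0) :=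
    (tendsto_id.atTop_mul_atTop₀ Real.tendsto_sqrt_atTop).const_div_atTop K
  have hC : CauchySeq f := by
    rw [Metric.cauchySeq_iff']
    intro ε hε
    obtain ⟨N, hN1, hN2⟩ := ((h0.eventually (gt_mem_nhds hε)).and (eventually_ge_atTop δ)).exists
    refine ⟨N, fun n hn => ?_⟩
    rw [dist_eq_norm]
    exact lt_of_le_of_lt (h N n hN2 hn) hN1
  obtain ⟨L, hL⟩ := cauchySeq_tendsto_of_complete hC
  refine ⟨L, hL, fun s hs => ?_⟩
  have h1 : Tendsto (fun t => ‖f s - f t‖) atTop (𝓝 ‖f s - L‖) := (tendsto_const_nhds.sub hL).norm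
  refine le_of_tendsto h1 ?_
  filter_upwards [eventually_ge_atTop s] with t ht
  rw [norm_sub_rev]
  exact h s t hs ht

end H17S.Fr
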