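import Pool.Agent.Lib.H17S.F.F0

set_option autoImplicit false

/-!
Chunk F5 (S). Calculus of the complex coordinates.
Proof. `ale n M` and `bec n e M` are complex numbers `⟨x, y⟩ = (x : ℂ) + (y : ℂ) * I` whose parts are finite linear combinations of the entries `M i j` (coefficients polynomials in `n`, `e`): `HasDerivAt.fun_sum`, `const_mul`,
`HasDerivAt.ofReal_comp`, `Complex.continuous_ofReal`.
-/

open MeasureTheory Filter Topology Set
open scoped ContDiff ComplexConjugate

namespace H17S.Fr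

open NullPen (E3 S2 sm proj pd MatterData NullData)
open NullU (Frm Tng dtB rotB crs cf mh dB rl hh)

theorem f5_mk_der {x y : ℝ → ℝ} {x' y' s : ℝ} (hx : HasDerivAt x x' s) (hy : HasDerivAt y y' s) :
    HasDerivAt (fun t => (⟨x t, y t⟩ : ℂ)) ⟨x', y'⟩ s := by
  have h := (hx.ofReal_comp).add ((hy.ofReal_comp).mul_const Complex.I)
  refine (h.congr_deriv ?_).congr_of_eventuallyEq (Eventually.of_forall fun t => ?_)
  · exact (Complex.mk_eq_add_mul_I x' y').symm
  · exact Complex.mk_eq_add_mul_I (x t) (y t)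

theorem f5_mk_con {X : Type*} [TopologicalSpace X] {x y : X → ℝ} {S : Set X} (hx : ContinuousOn x S)
    (hy : ContinuousOn y S) : ContinuousOn (fun t => (⟨x t, y t⟩ : ℂ)) S := by
  have h : ContinuousOn (fun t => (x t : ℂ) + (y t : ℂ) * Complex.I) S :=
    (Complex.continuous_ofReal.comp_continuousOn hx).add
      ((Complex.continuous_ofReal.comp_continuousOn hy).mul continuousOn_const)
  exact h.congr fun t _ => Complex.mk_eq_add_mul_I (x t) (y t)

theorem f5_dm_der (u v : Fin 3 → ℝ) {M : ℝ → Fin 3 → Fin 3 → ℝ} {M' : Fin 3 → Fin 3 → ℝ} {s : ℝ}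
    (h : ∀ i j, HasDerivAt (fun t => M t i j) (M' i j) s) :
    HasDerivAt (fun t => dt3 u (mv3 (M t) v)) (dt3 u (mv3 M' v)) s := by
  unfold dt3 mv3
  exact HasDerivAt.fun_sum fun i _ => (HasDerivAt.fun_sum fun j _ => (h i j).mul_const _).const_mul _

theorem f5_dm_con {X : Type*} [TopologicalSpace X] (u v : Fin 3 → ℝ) {M : X → Fin 3 → Fin 3 → ℝ} {S : Set X}
    (h : ∀ i j, ContinuousOn (fun t => M t i j) S) :
    ContinuousOn (fun t => dt3 u (mv3 (M t) v)) S := by
  unfold dt3 mv3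
  exact continuousOn_finsetSum _ fun i _ =>
    continuousOn_const.mul (continuousOn_finsetSum _ fun j _ => (h i j).mul continuousOn_const)

theorem ale_der (n : E3) {M : ℝ → Fin 3 → Fin 3 → ℝ} {M' : Fin 3 → Fin 3 → ℝ} {s : ℝ}
    (h : ∀ i j, HasDerivAt (fun t => M t i j) (M' i j) s) : HasDerivAt (fun t => ale n (M t)) (ale n M') s := by
  refine f5_mk_der ?_ ?_
  · exact (HasDerivAt.fun_sum fun i _ => h i i).div_const 2
  · exact (HasDerivAt.fun_sum fun i _ => ((h i (i + 2)).const_mul _).sub ((h i (i + 1)).const_mul _)).div_const 2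

theorem bec_der (n : E3) (e : Fin 3 → ℝ) {M : ℝ → Fin 3 → Fin 3 → ℝ} {M' : Fin 3 → Fin 3 → ℝ} {s : ℝ}
    (h : ∀ i j, HasDerivAt (fun t => M t i j) (M' i j) s) : HasDerivAt (fun t => bec n e (M t)) (bec n e M') s := by
  refine f5_mk_der ?_ ?_
  · exact ((f5_dm_der _ _ h).sub (f5_dm_der _ _ h)).div_const 2
  · exact ((f5_dm_der _ _ h).add (f5_dm_der _ _ h)).div_const 2

theorem ale_con {X : Type*} [TopologicalSpace X] {f : X → E3} {M : X → Fin 3 → Fin 3 → ℝ} {S : Set X} (hf : ContinuousOn f S)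
    (hM : ∀ i j, ContinuousOn (fun x => M x i j) S) : ContinuousOn (fun x => ale (f x) (M x)) S := by
  have hc : ∀ i : Fin 3, ContinuousOn (fun x => (f x) i) S := fun i =>
    (by fun_prop : Continuous fun y : E3 => y i).comp_continuousOn hf
  refine f5_mk_con ?_ ?_
  · exact (continuousOn_finsetSum _ fun i _ => hM i i).div_const 2
  · refine ContinuousOn.div_const ?_ 2
    refine continuousOn_finsetSum _ fun i _ => ?_
    exact ((hc (i + 1)).mul (hM i (i + 2))).sub ((hc (i + 2)).mul (hM i (i + 1)))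

theorem bec_con {X : Type*} [TopologicalSpace X] (n : E3) (e : Fin 3 → ℝ) {M : X → Fin 3 → Fin 3 → ℝ} {S : Set X}
    (hM : ∀ i j, ContinuousOn (fun x => M x i j) S) : ContinuousOn (fun x => bec n e (M x)) S := by
  refine f5_mk_con ?_ ?_
  · exact ((f5_dm_con _ _ hM).sub (f5_dm_con _ _ hM)).div_const 2
  · exact ((f5_dm_con _ _ hM).add (f5_dm_con _ _ hM)).div_const 2

end H17S.Fr
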