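import Pool.Agent.Lib.H17S.F.F2
import Pool.Agent.Lib.H17S.F.F5

set_option autoImplicit false

/-!
Chunk F6 (M, many small). Parallel frames in complex coordinates. `z = ale n (B s n)`, `b = bec n e (B s n)`.
Proof. `fr_chi`: `M = mh n (B s n) (dB B s n)`: `NullU.mh_tng`, `NullU.mh_symm` (with `Frm.sym`), `NullU.exL_fr`, `NullU.chiSq_fr`, `NullU.mh_mul`; `NullU.dt_pos`, `NullU.dB_tng`. 
`fz_norm`, `fb_norm`: `∑ B^2 = tr g` (`NullU.gtr_fr`) `= 2 (‖z‖^2 + ‖b‖^2)` (`sq_ab`), `dtB B = dA = ‖z‖^2 - ‖b‖^2` (`dtB_ab`, `Frm.dt`), `hh = tr g + 2 dA`. `fz_ge`: `‖z‖^2 = dA + ‖b‖^2`. `fz_pos`: `NullU.dA_pos`.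
`fr_par`: with `M` from `fr_chi`, `m = bec n e M`, `ale n M = exL/2` (real part `tr/2`, imaginary part zero by `ale_sym`), `ale_mul`, `bec_mul`; `‖m‖^2 = (chiSq - exL^2/2)/2 = kk` from `sq_ab`.
`fz_der`, `fb_der`: `ale_der`, `bec_der` and `NullU.dB_der`. `fr_con`: `Frm.sm` is smooth in `(s, y)`.
-/

open MeasureTheory Filter Topology Set
open scoped ContDiff ComplexConjugate

namespace H17S.Fr

open NullPen (E3 S2 sm proj pd MatterData NullData)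
open NullU (Frm Tng dtB rotB crs cf mh dB rl hh)

variable {D : MatterData} {δ T : ℝ} {B : ℝ → E3 → Fin 3 → Fin 3 → ℝ}

theorem fr_chi (hD : D.IsNull) (hB : Frm D δ T B) {s : ℝ} (hs : δ < s) (n : S2) : ∃ M : Fin 3 → Fin 3 → ℝ, Tng n M ∧
    (∀ i j, M i j = M j i) ∧ (∑ k, M k k = D.exL s n) ∧ (∑ i, ∑ j, M i j ^ 2 = D.chiSq s n) ∧
    ∀ i j, dB B s n i j = mm3 M (B s n) i j := by
  have hn := NullU.fx_norm n
  have h1 := hB.tng s hs.le n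
  have h2 := NullU.dB_tng hB hs n
  have h3 := NullU.dt_pos hD hB hs.le n
  refine ⟨mh n (B s n) (dB B s n), NullU.mh_tng hn h1 h2, NullU.mh_symm hn h1 h2 h3 (hB.sym s hs n),
    (NullU.exL_fr hD hB hs n).symm, (NullU.chiSq_fr hD hB hs n).symm, fun i j => ?_⟩
  exact (NullU.mh_mul hn h1 h2 h3 i j).symm

theorem f6_two (hB : Frm D δ T B) {s : ℝ} (hs : δ ≤ s) (n : S2) {e : Fin 3 → ℝ} (he : Ut n e) :
    (∑ i, D.g s n i i = 2 * (‖ale n (B s n)‖ ^ 2 + ‖bec n e (B s n)‖ ^ 2)) ∧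
      D.dA s n = ‖ale n (B s n)‖ ^ 2 - ‖bec n e (B s n)‖ ^ 2 := by
  have h1 := hB.tng s hs n
  constructor
  · rw [NullU.gtr_fr hB hs n, sq_ab n he h1]
  · rw [← hB.dt s hs n, dtB_ab n he h1]

theorem fz_norm (hB : Frm D δ T B) {s : ℝ} (hs : δ ≤ s) (n : S2) : ‖ale n (B s n)‖ ^ 2 = hh D s n / 4 := by
  obtain ⟨e, he⟩ := exists_ut n
  obtain ⟨h1, h2⟩ := f6_two hB hs n he
  unfold hh
  rw [h1, h2]
  ring

theorem fb_norm (hB : Frm D δ T B) {s : ℝ} (hs : δ ≤ s) (n : S2) {e : Fin 3 → ℝ} (he : Ut n e) :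
    ‖bec n e (B s n)‖ ^ 2 = ((∑ i, D.g s n i i) - 2 * D.dA s n) / 4 := by
  obtain ⟨h1, h2⟩ := f6_two hB hs n he
  rw [h1, h2]
  ring

theorem fz_ge (hB : Frm D δ T B) {s : ℝ} (hs : δ ≤ s) (n : S2) : Real.sqrt (D.dA s n) ≤ ‖ale n (B s n)‖ := by
  obtain ⟨e, he⟩ := exists_ut n
  obtain ⟨-, h2⟩ := f6_two hB hs n he
  apply Real.sqrt_le_iff.2 ⟨norm_nonneg _, ?_⟩
  rw [h2]
  have h3 : 0 ≤ ‖bec n e (B s n)‖ ^ 2 := by positivity
  linarith

theorem fz_pos (hD : D.IsNull) (hB : Frm D δ T B) {s : ℝ} (hs : δ ≤ s) (n : S2) : 0 < ‖ale n (B s n)‖ :=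
  lt_of_lt_of_le (Real.sqrt_pos.2 (NullU.dA_pos hD n (hB.pos.le.trans hs))) (fz_ge hB hs n)

theorem fr_par (hD : D.IsNull) (hB : Frm D δ T B) {s : ℝ} (hs : δ < s) (n : S2) {e : Fin 3 → ℝ} (he : Ut n e) :
    ∃ m : ℂ, ‖m‖ ^ 2 = kk D s n ∧
      ale n (dB B s n) = ((D.exL s n / 2 : ℝ) : ℂ) * ale n (B s n) + m * conj (bec n e (B s n)) ∧
      bec n e (dB B s n) = ((D.exL s n / 2 : ℝ) : ℂ) * bec n e (B s n) + m * conj (ale n (B s n)) := by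
  obtain ⟨M, h1, h2, h3, h4, h5⟩ := fr_chi hD hB hs n
  have h6 : ale n M = ((D.exL s n / 2 : ℝ) : ℂ) := by
    apply Complex.ext
    · rw [Complex.ofReal_re, ← h3]
      rfl
    · rw [Complex.ofReal_im]
      exact ale_sym n h2
  have h7 : dB B s n = mm3 M (B s n) := by
    funext i j
    exact h5 i j
  have hT := hB.tng s hs.le n
  refine ⟨bec n e M, ?_, ?_, ?_⟩
  · have h8 := sq_ab n he h1
    rw [h4, h6, Complex.norm_real, Real.norm_eq_abs, sq_abs] at h8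
    unfold kk
    linarith
  · rw [h7, ale_mul n he h1 hT, h6]
  · rw [h7, bec_mul n he h1 hT, h6]

theorem fz_der (hB : Frm D δ T B) (s : ℝ) (n : S2) : HasDerivAt (fun t => ale n (B t n)) (ale n (dB B s n)) s :=
  ale_der n fun i j => NullU.dB_der hB s n i j

theorem fb_der (hB : Frm D δ T B) (s : ℝ) (n : S2) (e : Fin 3 → ℝ) :
    HasDerivAt (fun t => bec n e (B t n)) (bec n e (dB B s n)) s :=
  bec_der n e fun i j => NullU.dB_der hB s n i j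

theorem fr_con (hB : Frm D δ T B) (i j : Fin 3) : Continuous (fun p : ℝ × S2 => B p.1 p.2 i j) :=
  (hB.sm i j).continuous.comp (f := fun p : ℝ × S2 => ((p.1, (p.2 : E3)) : ℝ × E3))
    (continuous_fst.prodMk (continuous_subtype_val.comp continuous_snd))

end H17S.Fr
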