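import Pool.Agent.Lib.H17S.F.F4
import Pool.Agent.Lib.H17S.F.F6
import Pool.Agent.Lib.H17S.F.F7

set_option autoImplicit false

/-!
Chunk F8 (M). The phase of the conformal part of a parallel frame converges.
Proof. Fix `n` and `e` (`exists_ut`), `z s = ale n (B s n)`, `b s = bec n e (B s n)`, `ρ s = ‖z s‖ = sqrt (hh D s n)/2 > 0` (`fz_norm`, `fz_pos`), `f s = z s/ρ s`. `ρ` is differentiable (`ρ^2 = re^2 + im^2`; `ρ ρ' = Re (conj z z')`), so
`f' = (z' - (ρ'/ρ) z)/ρ = z (conj z z' - Re (conj z z'))/ρ^3 = I z Im (conj z z')/ρ^3`, `‖f'‖ = |Im (conj z z')|/ρ^2`. By `fr_par` `z' = (u/2) z + m conj b`, so `|Im (conj z z')| = |Im (conj z m conj b)| <= ρ ‖m‖ ‖b‖` and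
`‖f'‖ <= ‖m‖ ‖b‖/ρ <= sqrt (kk) (sqrt C/2)/s` (`fb_norm`, `dat_bd`: `‖b‖^2 <= C/4`; `ρ >= sqrt dA >= s` by `fz_ge`). `osc` (F4), with `f' := deriv f`, `G = fq D · n`, `G' = s (sqrt dA (kk + e/2)) >= s^2 kk` (`fq_der`, `kk_nonneg`, `e_nonneg`),
`fq_bd`, and `osc_lim`: limit `φ n` with `‖f s - φ n‖ <= K/(s sqrt s)`, `K` independent of `n`; `‖φ n‖ = 1` as `‖f s‖ = 1`. Continuity of `φ`: uniform limit (along `s = 1, 2, ...`) of the continuous functions
`n ↦ ale n (B s n)/‖ale n (B s n)‖` (`ale_con`, `fr_con`, `fz_pos`), `TendstoUniformly.continuous`.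
-/

open MeasureTheory Filter Topology Set
open scoped ContDiff ComplexConjugate

namespace H17S.Fr

open NullPen (E3 S2 sm proj pd MatterData NullData)
open NullU (Frm Tng dtB rotB crs cf mh dB rl hh)

variable {D : MatterData} {δ T : ℝ} {B : ℝ → E3 → Fin 3 → Fin 3 → ℝ}

theorem f8_der {z : ℝ → ℂ} {z' : ℂ} {s : ℝ} (hz : HasDerivAt z z' s) (h0 : z s ≠ 0) :
    ∃ f' : ℂ, HasDerivAt (fun t => z t / (‖z t‖ : ℂ)) f' s ∧ ‖f'‖ = |(conj (z s) * z').im| / ‖z s‖ ^ 2 := by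
  have hρ : 0 < ‖z s‖ := norm_pos_iff.2 h0
  have h1 : HasDerivAt (fun t => ‖z t‖ ^ 2) (2 * (conj (z s) * z').re) s := by
    have h2 := hz.norm_sq
    have h3 : inner ℝ (z s) z' = (conj (z s) * z').re := by
      rw [Complex.inner, mul_comm]
    rw [h3] at h2
    exact h2
  have h4 : HasDerivAt (fun t => ‖z t‖) ((conj (z s) * z').re / ‖z s‖) s := by
    have h5 := h1.sqrt (by positivity)
    have h6 : (fun t => Real.sqrt (‖z t‖ ^ 2)) = fun t => ‖z t‖ := by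
      funext t
      exact Real.sqrt_sq (norm_nonneg _)
    rw [h6, Real.sqrt_sq hρ.le] at h5
    refine h5.congr_deriv ?_
    field_simp
  have h7 : HasDerivAt (fun t => (‖z t‖ : ℂ)) (((conj (z s) * z').re / ‖z s‖ : ℝ) : ℂ) s := h4.ofReal_comp
  have hρc : (‖z s‖ : ℂ) ≠ 0 := Complex.ofReal_ne_zero.2 hρ.ne'
  refine ⟨_, hz.div h7 hρc, ?_⟩
  have h8 : (z' * (‖z s‖ : ℂ) - z s * (((conj (z s) * z').re / ‖z s‖ : ℝ) : ℂ)) =
      z s * (((conj (z s) * z').im : ℝ) : ℂ) * Complex.I / (‖z s‖ : ℂ) := by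
    have h9 : (‖z s‖ : ℂ) ^ 2 = z s * conj (z s) := by
      rw [Complex.mul_conj, Complex.normSq_eq_norm_sq]
      push_cast
      ring
    have h10 : conj (z s) * z' = (((conj (z s) * z').re : ℝ) : ℂ) + (((conj (z s) * z').im : ℝ) : ℂ) * Complex.I :=
      (Complex.re_add_im _).symm
    rw [Complex.ofReal_div, eq_div_iff hρc]
    have h11 : (z' * (‖z s‖ : ℂ) - z s * ((((conj (z s) * z').re : ℝ) : ℂ) / (‖z s‖ : ℂ))) * (‖z s‖ : ℂ) =
        z' * (‖z s‖ : ℂ) ^ 2 - z s * (((conj (z s) * z').re : ℝ) : ℂ) := by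
      field_simp
    rw [h11, h9]
    have h12 : z' * (z s * conj (z s)) = z s * (conj (z s) * z') := by ring
    rw [h12]
    linear_combination (z s) * h10
  rw [h8, norm_div, norm_div, norm_mul, norm_mul, Complex.norm_I, norm_pow, Complex.norm_real, Complex.norm_real, norm_norm,
    Real.norm_eq_abs]
  field_simp

theorem f8_im {z m b : ℂ} {u : ℝ} : |(conj z * ((u : ℂ) * z + m * conj b)).im| ≤ ‖z‖ * ‖m‖ * ‖b‖ := by
  have h1 : conj z * ((u : ℂ) * z + m * conj b) = ((u * ‖z‖ ^ 2 : ℝ) : ℂ) + conj z * m * conj b := by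
    have h9 : conj z * z = ((‖z‖ ^ 2 : ℝ) : ℂ) := by
      rw [mul_comm, Complex.mul_conj, Complex.normSq_eq_norm_sq]
    push_cast at h9 ⊢
    linear_combination (u : ℂ) * h9
  rw [h1, Complex.add_im, Complex.ofReal_im, zero_add]
  refine (Complex.abs_im_le_norm _).trans (le_of_eq ?_)
  rw [norm_mul, norm_mul, Complex.norm_conj, Complex.norm_conj]

theorem f8_bd (hD : D.IsNull) (hA : D.AsympFlat) (hB : Frm D δ T B) {δ1 : ℝ} (h1 : δ < δ1) :
    ∃ K : ℝ, 0 ≤ K ∧ ∀ n : S2, ∀ s t, δ1 ≤ s → s ≤ t →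
      ‖ale n (B t n) / (‖ale n (B t n)‖ : ℂ) - ale n (B s n) / (‖ale n (B s n)‖ : ℂ)‖ ≤ K / (s * Real.sqrt s) := by
  have hδ1 : 0 < δ1 := hB.pos.trans h1
  obtain ⟨C, hC, hd⟩ := dat_bd hD hA hδ1
  obtain ⟨C', hC', hq⟩ := fq_bd hD hA
  refine ⟨Real.sqrt C / 2 * (C' + 1), by positivity, fun n s t hs hst => ?_⟩
  obtain ⟨e, he⟩ := exists_ut n
  have hf : ∀ r, δ1 ≤ r → ∃ f' : ℂ, HasDerivAt (fun t => ale n (B t n) / (‖ale n (B t n)‖ : ℂ)) f' r ∧
      ‖f'‖ ≤ Real.sqrt C / 2 * Real.sqrt (kk D r n) / r := by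
    intro r hr
    have hr0 : 0 < r := hδ1.trans_le hr
    have hδr : δ < r := h1.trans_le hr
    have hz := fz_pos hD hB hδr.le n
    obtain ⟨f', hf1, hf2⟩ := f8_der (fz_der hB r n) (norm_pos_iff.1 hz)
    refine ⟨f', hf1, ?_⟩
    obtain ⟨m, hm1, hm2, -⟩ := fr_par hD hB hδr n he
    rw [hf2, hm2]
    have hb := fb_norm hB hδr.le n he
    obtain ⟨d1, -, -, d2, d3, -⟩ := hd r hr n
    have hρ : r ≤ ‖ale n (B r n)‖ := d1.trans (fz_ge hB hδr.le n)
    have hmn : ‖m‖ = Real.sqrt (kk D r n) := by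
      rw [← hm1, Real.sqrt_sq (norm_nonneg _)]
    have hbn : ‖bec n e (B r n)‖ ≤ Real.sqrt C / 2 := by
      have h2 : ‖bec n e (B r n)‖ ^ 2 ≤ (Real.sqrt C / 2) ^ 2 := by
        rw [hb, div_pow, Real.sq_sqrt (by linarith)]
        linarith
      exact le_of_sq_le_sq h2 (by positivity)
    have h3 : |(conj (ale n (B r n)) * (((D.exL r n / 2 : ℝ) : ℂ) * ale n (B r n) + m * conj (bec n e (B r n)))).im| ≤
        ‖ale n (B r n)‖ * ‖m‖ * ‖bec n e (B r n)‖ := f8_im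
    rw [div_le_iff₀ (by positivity)]
    refine h3.trans ?_
    rw [hmn]
    have h4 : Real.sqrt C / 2 * Real.sqrt (kk D r n) / r * ‖ale n (B r n)‖ ^ 2 =
        ‖ale n (B r n)‖ * Real.sqrt (kk D r n) * (Real.sqrt C / 2) * (‖ale n (B r n)‖ / r) := by ring
    rw [h4]
    have h5 : 1 ≤ ‖ale n (B r n)‖ / r := (one_le_div hr0).2 hρ
    have h6 : ‖ale n (B r n)‖ * Real.sqrt (kk D r n) * ‖bec n e (B r n)‖ ≤
        ‖ale n (B r n)‖ * Real.sqrt (kk D r n) * (Real.sqrt C / 2) := mul_le_mul_of_nonneg_left hbn (by positivity)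
    refine h6.trans ?_
    exact le_mul_of_one_le_right (by positivity) h5
  choose! f' hf1 hf2 using hf
  refine osc (f := fun t => ale n (B t n) / (‖ale n (B t n)‖ : ℂ)) (f' := f') (G := fun r => fq D r n)
    (G' := fun r => r * (Real.sqrt (D.dA r n) * (kk D r n + D.e r n / 2))) (k := fun r => kk D r n) hδ1 (by positivity)
    hf1 (fun r hr => fq_der hD (hδ1.trans_le hr) n) (fun r hr => ?_) hf2 (fun r hr => hq r (hδ1.trans_le hr) n) hs hst
  have hr0 : 0 < r := hδ1.trans_le hr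
  have h2 := kk_nonneg hD hr0 n
  refine ⟨h2, ?_⟩
  have h3 := (hd r hr n).1
  have h4 := hD.e_nonneg r hr0.le n
  have h5 : r * kk D r n ≤ Real.sqrt (D.dA r n) * (kk D r n + D.e r n / 2) :=
    mul_le_mul h3 (by linarith) h2 (Real.sqrt_nonneg _)
  have h6 := mul_le_mul_of_nonneg_left h5 hr0.le
  calc r ^ 2 * kk D r n = r * (r * kk D r n) := by ring
    _ ≤ _ := h6

theorem f8_zero {K : ℝ} : Tendsto (fun s : ℝ => K / (s * Real.sqrt s)) atTop (𝓝 0) :=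
  (tendsto_id.atTop_mul_atTop₀ Real.tendsto_sqrt_atTop).const_div_atTop K

theorem ph_lim (hD : D.IsNull) (hA : D.AsympFlat) (hB : Frm D δ T B) {δ1 : ℝ} (h1 : δ < δ1) :
    ∃ (K : ℝ) (φ : S2 → ℂ), 0 ≤ K ∧ Continuous φ ∧ (∀ n, ‖φ n‖ = 1) ∧
      ∀ s, δ1 ≤ s → ∀ n : S2, ‖ale n (B s n) / (‖ale n (B s n)‖ : ℂ) - φ n‖ ≤ K / (s * Real.sqrt s) := by
  have hδ1 : 0 < δ1 := hB.pos.trans h1
  obtain ⟨K, hK, h⟩ := f8_bd hD hA hB h1
  have h2 : ∀ n : S2, ∃ L, Tendsto (fun s => ale n (B s n) / (‖ale n (B s n)‖ : ℂ)) atTop (𝓝 L) ∧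
      ∀ s, δ1 ≤ s → ‖ale n (B s n) / (‖ale n (B s n)‖ : ℂ) - L‖ ≤ K / (s * Real.sqrt s) := fun n =>
    osc_lim hδ1 (h n)
  choose φ hφ1 hφ2 using h2
  refine ⟨K, φ, hK, ?_, fun n => ?_, fun s hs n => hφ2 n s hs⟩
  · have hu : TendstoUniformly (fun (s : ℝ) (n : S2) => ale n (B s n) / (‖ale n (B s n)‖ : ℂ)) φ atTop := by
      rw [Metric.tendstoUniformly_iff]
      intro ε hε
      filter_upwards [eventually_ge_atTop δ1, (f8_zero (K := K)).eventually_lt_const hε] with s hs hs2 n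
      rw [dist_eq_norm, norm_sub_rev]
      exact (hφ2 n s hs).trans_lt hs2
    refine hu.continuous (Eventually.frequently ?_)
    filter_upwards [eventually_ge_atTop δ1] with s hs
    have hc : Continuous (fun n : S2 => ale n (B s n)) := by
      rw [← continuousOn_univ]
      refine ale_con (f := fun n : S2 => (n : E3)) continuous_subtype_val.continuousOn fun i j => ?_
      exact ((fr_con hB i j).comp (f := fun n : S2 => ((s, n) : ℝ × S2)) (by fun_prop)).continuousOn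
    refine hc.div (Complex.continuous_ofReal.comp hc.norm) fun n => ?_
    exact Complex.ofReal_ne_zero.2 (fz_pos hD hB (h1.le.trans hs) n).ne'
  · have h3 : Tendsto (fun s => ‖ale n (B s n) / (‖ale n (B s n)‖ : ℂ)‖) atTop (𝓝 ‖φ n‖) := (hφ1 n).norm
    have h4 : Tendsto (fun s => ‖ale n (B s n) / (‖ale n (B s n)‖ : ℂ)‖) atTop (𝓝 1) := by
      refine tendsto_const_nhds.congr' ?_
      filter_upwards [eventually_ge_atTop δ1] with s hs
      have h5 := fz_pos hD hB (h1.le.trans hs) n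
      rw [norm_div, Complex.norm_real, Real.norm_eq_abs, abs_of_pos h5, div_self h5.ne']
    exact tendsto_nhds_unique h3 h4

end H17S.Fr
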