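import Pool.Agent.Lib.H17S.F.F2
import Pool.Agent.Lib.H17S.F.F3
import Pool.Agent.Lib.H17S.F.F5

set_option autoImplicit false

/-!
Chunk F18 (S). The scaled path in terms of the frame at infinity.
`t s = tst δ τ + s/τ >= δ` (`tst δ τ = δ + (1 - τ)/τ`; `t s > δ` for `s > 0`). `bt_eq`: unfold `Bt`, `tst`; `τ ≠ 0`: the terms `(1 - τ + s) proj` cancel.
`pA_eq`, `pB_eq`: `bt_eq` and linearity (`ale_lin`, `bec_lin` with `b = 0`). `pa_eq`: `‖p.A‖^2 - ‖p.B‖^2 = τ^2 dtB (Bi (t s) n) = τ^2 dA (t s) n` (`dtB_ab`, `FInf.tng`, `FInf.dt`).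
`ale_rc`: `ale n M = (exL/2 : ℝ)` for a symmetric matrix with trace `exL`.
-/

open MeasureTheory Filter Topology Set
open scoped ComplexConjugate

namespace H17S.Fr

open NullPen (E3 S2 sm proj MatterData)

variable {D : MatterData}

theorem t_ge {δ τ : ℝ} (hτ : 0 < τ) (hτ1 : τ ≤ 1) {s : ℝ} (hs : 0 ≤ s) : δ ≤ tst δ τ + s / τ := by
  have h1 : 0 ≤ (1 - τ) / τ := div_nonneg (by linarith) hτ.le
  have h2 : 0 ≤ s / τ := div_nonneg hs hτ.le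
  unfold tst
  linarith

theorem t_gt {δ τ : ℝ} (hτ : 0 < τ) (hτ1 : τ ≤ 1) {s : ℝ} (hs : 0 < s) : δ < tst δ τ + s / τ := by
  have h1 : 0 ≤ (1 - τ) / τ := div_nonneg (by linarith) hτ.le
  have h2 : 0 < s / τ := div_pos hs hτ
  unfold tst
  linarith

theorem bt_eq (Bi : ℝ → S2 → Fin 3 → Fin 3 → ℝ) (δ : ℝ) {τ : ℝ} (hτ : 0 < τ) (s : ℝ) (n : S2) (i j : Fin 3) :
    Bt Bi δ τ s n i j = τ * Bi (tst δ τ + s / τ) n i j := by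
  have e : δ + (1 - τ + s) / τ = tst δ τ + s / τ := by
    unfold tst
    rw [add_div]
    ring
  unfold Bt
  rw [e]
  field_simp
  ring

theorem bt_fun (Bi : ℝ → S2 → Fin 3 → Fin 3 → ℝ) (δ : ℝ) {τ : ℝ} (hτ : 0 < τ) (s : ℝ) (n : S2) :
    Bt Bi δ τ s n = fun i j => τ * Bi (tst δ τ + s / τ) n i j + 0 * Bi (tst δ τ + s / τ) n i j := by
  funext i j
  rw [bt_eq Bi δ hτ]
  ring

theorem pA_eq {δ C : ℝ} {Bi : ℝ → S2 → Fin 3 → Fin 3 → ℝ} (b0 : S2 → ℝ) (h2 : FInf2 D δ C Bi) {τ : ℝ} (hτ : 0 < τ) (n : S2)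
    (e : Fin 3 → ℝ) (s : ℝ) : (pth h2 b0 τ n e).A s = (τ : ℂ) * ale n (Bi (tst δ τ + s / τ) n) := by
  show ale n (Bt Bi δ τ s n) = _
  rw [bt_fun Bi δ hτ, ale_lin]
  simp

theorem pB_eq {δ C : ℝ} {Bi : ℝ → S2 → Fin 3 → Fin 3 → ℝ} (b0 : S2 → ℝ) (h2 : FInf2 D δ C Bi) {τ : ℝ} (hτ : 0 < τ) (n : S2)
    (e : Fin 3 → ℝ) (s : ℝ) : (pth h2 b0 τ n e).B s = (τ : ℂ) * bec n e (Bi (tst δ τ + s / τ) n) := by
  show bec n e (Bt Bi δ τ s n) = _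
  rw [bt_fun Bi δ hτ, bec_lin]
  simp

theorem pa_eq {δ C : ℝ} {Bi : ℝ → S2 → Fin 3 → Fin 3 → ℝ} {b0 : S2 → ℝ}
    (h1 : FInf D δ C Bi b0) (h2 : FInf2 D δ C Bi) {τ : ℝ} (hτ : 0 < τ) (hτ1 : τ ≤ 1) (n : S2) {e : Fin 3 → ℝ} (he : Ut n e)
    {s : ℝ} (hs : 0 ≤ s) : (pth h2 b0 τ n e).a s = τ ^ 2 * D.dA (tst δ τ + s / τ) n := by
  have ht := t_ge (δ := δ) hτ hτ1 hs
  rw [← h1.dt _ ht n, dtB_ab n he (h1.tng _ ht n)]
  unfold Pa.a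
  rw [pA_eq b0 h2 hτ, pB_eq b0 h2 hτ, norm_mul, norm_mul, Complex.norm_real, Real.norm_of_nonneg hτ.le]
  ring

theorem ale_rc (n : S2) {M : Fin 3 → Fin 3 → ℝ} (hs : ∀ i j, M i j = M j i) {u : ℝ} (ht : ∑ k, M k k = u) :
    ale n M = ((u / 2 : ℝ) : ℂ) := by
  apply Complex.ext
  · rw [Complex.ofReal_re]
    show (∑ i, M i i) / 2 = u / 2
    rw [ht]
  · rw [Complex.ofReal_im]
    exact ale_sym n hs

/-- The matrix `chF` has the properties of `FInf2.der`. -/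
theorem chF_spec {δ C : ℝ} {Bi : ℝ → S2 → Fin 3 → Fin 3 → ℝ} (h2 : FInf2 D δ C Bi) {s : ℝ} (hs : δ < s) (n : S2) :
    NullU.Tng n (chF h2 s n) ∧ (∀ i j, chF h2 s n i j = chF h2 s n j i) ∧ (∑ k, chF h2 s n k k = D.exL s n) ∧
      (∑ i, ∑ j, chF h2 s n i j ^ 2 = D.chiSq s n) ∧ ∀ i j, HasDerivAt (fun t => Bi t n i j) (mm3 (chF h2 s n) (Bi s n) i j) s := by
  have h : chF h2 s n = (h2.der s hs n).choose := by
    unfold chF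
    rw [dif_pos hs]
  rw [h]
  exact (h2.der s hs n).choose_spec

end H17S.Fr
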