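import Pool.Agent.Lib.H17S.F.P0

set_option autoImplicit false

/-!
Chunk F19 (S/M). The differential equations of the path (fields `cA, cB, cu, dA, dB, du` of `Pa.Ok`, see `Def.lean`). `t s = tst δ τ + s/τ`, `t' = 1/τ`.
`p_cA`, `p_cB`: `ale_con`, `bec_con` (F5; constant `n`) with `FInf.cont` composed with `s ↦ (t s, n)`, entries `bt_eq`. `p_cu`: `NullU.exL_cont` composed.
`p_dA`: for `s > 0`, `t s > δ` (`t_gt`), `M = chF h2 (t s) n` (`chF_spec`): the entries of `Bi (t ·) n` have the derivative `mm3 M Bi/τ` (chain rule), so by `pA_eq` `p.A' = τ (1/τ) ale n (mm3 M Bi) = ale n M * ale n Bi + bec n e M * conj (bec n e Bi)` (`ale_der`, `ale_mul`, `FInf.tng`),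
`ale n M = exL/2` (`ale_rc`), and `A1 = (u/2) A + m1 conj B` with `u = exL/τ`, `m1 = bec n e M/τ`, `A = τ ale n Bi`, `B = τ bec n e Bi`: equal (`Pa.A1` unfold). `p_dB` in the same way with `bec_der`, `bec_mul`.
`p_du`: `D.IsNull.ray` at `t s > 0` and the chain rule: `u' = (1/τ^2) (- chiSq - e)`, `chiSq = ∑ M^2 = 2 ((exL/2)^2 + ‖bec n e M‖^2)` (`sq_ab`, `ale_rc`), `p.m1 = bec n e M/τ`, `p.e = e/τ^2`.
-/

open MeasureTheory Filter Topology Set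
open scoped ComplexConjugate

namespace H17S.Fr

open NullPen (E3 S2 sm proj MatterData)

variable {D : MatterData} {δ C : ℝ} {Bi : ℝ → S2 → Fin 3 → Fin 3 → ℝ} {b0 : S2 → ℝ}

theorem f19_t (δ τ s : ℝ) : HasDerivAt (fun s => tst δ τ + s / τ) (1 / τ) s :=
  ((hasDerivAt_id s).div_const τ).const_add _

theorem f19_ct (h1 : FInf D δ C Bi b0) {τ : ℝ} (hτ : 0 < τ) (hτ1 : τ ≤ 1) (n : S2) (i j : Fin 3) :
    ContinuousOn (fun s => Bi (tst δ τ + s / τ) n i j) (Ici 0) := by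
  have hc : Continuous (fun s : ℝ => ((tst δ τ + s / τ, n) : ℝ × S2)) := by fun_prop
  have h := (h1.cont i j).comp hc.continuousOn (s := Ici 0) (fun s (hs : 0 ≤ s) => ⟨t_ge (δ := δ) hτ hτ1 hs, mem_univ _⟩)
  exact h

theorem p_cA (h1 : FInf D δ C Bi b0) (h2 : FInf2 D δ C Bi) {τ : ℝ} (hτ : 0 < τ) (hτ1 : τ ≤ 1) (n : S2) {e : Fin 3 → ℝ} (he : Ut n e) :
    ContinuousOn (pth h2 b0 τ n e).A (Ici 0) := by
  have h3 : (pth h2 b0 τ n e).A = fun s => (τ : ℂ) * ale n (Bi (tst δ τ + s / τ) n) :=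
    funext fun s => pA_eq b0 h2 hτ n e s
  rw [h3]
  exact continuousOn_const.mul (ale_con (f := fun _ => (n : E3)) (M := fun s => Bi (tst δ τ + s / τ) n) continuousOn_const
    (fun i j => f19_ct h1 hτ hτ1 n i j))

theorem p_cB (h1 : FInf D δ C Bi b0) (h2 : FInf2 D δ C Bi) {τ : ℝ} (hτ : 0 < τ) (hτ1 : τ ≤ 1) (n : S2) {e : Fin 3 → ℝ} (he : Ut n e) :
    ContinuousOn (pth h2 b0 τ n e).B (Ici 0) := by
  have h3 : (pth h2 b0 τ n e).B = fun s => (τ : ℂ) * bec n e (Bi (tst δ τ + s / τ) n) :=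
    funext fun s => pB_eq b0 h2 hτ n e s
  rw [h3]
  exact continuousOn_const.mul (bec_con (n : E3) e (M := fun s => Bi (tst δ τ + s / τ) n)
    (fun i j => f19_ct h1 hτ hτ1 n i j))

theorem p_cu (hD : D.IsNull) (h1 : FInf D δ C Bi b0) (h2 : FInf2 D δ C Bi) {τ : ℝ} (hτ : 0 < τ) (hτ1 : τ ≤ 1) (n : S2)
    {e : Fin 3 → ℝ} (he : Ut n e) : ContinuousOn (pth h2 b0 τ n e).u (Ici 0) := by
  have hc : Continuous (fun s : ℝ => ((tst δ τ + s / τ, n) : ℝ × S2)) := by fun_prop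
  have h := (NullU.exL_cont hD).comp hc.continuousOn (s := Ici 0)
    (fun s (hs : 0 ≤ s) => ⟨h1.pos.le.trans (t_ge (δ := δ) hτ hτ1 hs), mem_univ _⟩)
  exact h.div_const τ

/-- The derivative of the frame along the path. -/
theorem f19_der (h2 : FInf2 D δ C Bi) {τ : ℝ} (hτ : 0 < τ) (hτ1 : τ ≤ 1) (n : S2) {s : ℝ} (hs : 0 < s) (i j : Fin 3) :
    HasDerivAt (fun s => Bi (tst δ τ + s / τ) n i j)
      ((1 / τ) * mm3 (chF h2 (tst δ τ + s / τ) n) (Bi (tst δ τ + s / τ) n) i j + 0 *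
        mm3 (chF h2 (tst δ τ + s / τ) n) (Bi (tst δ τ + s / τ) n) i j) s := by
  obtain ⟨-, -, -, -, hd⟩ := chF_spec h2 (t_gt (δ := δ) hτ hτ1 hs) n
  have h3 := HasDerivAt.comp s (hd i j) (f19_t δ τ s)
  refine h3.congr_deriv ?_
  ring

theorem p_dA (h1 : FInf D δ C Bi b0) (h2 : FInf2 D δ C Bi) {τ : ℝ} (hτ : 0 < τ) (hτ1 : τ ≤ 1) (n : S2) {e : Fin 3 → ℝ} (he : Ut n e)
    {s : ℝ} (hs : 0 < s) : HasDerivAt (pth h2 b0 τ n e).A ((pth h2 b0 τ n e).A1 s) s := by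
  have h3 : (pth h2 b0 τ n e).A = fun s => (τ : ℂ) * ale n (Bi (tst δ τ + s / τ) n) :=
    funext fun s => pA_eq b0 h2 hτ n e s
  obtain ⟨tM, sM, rM, qM, -⟩ := chF_spec h2 (t_gt (δ := δ) hτ hτ1 hs) n
  have tB := h1.tng _ (t_ge (δ := δ) hτ hτ1 hs.le) n
  have h4 := (ale_der (n : E3) (fun i j => f19_der h2 hτ hτ1 n hs i j)).const_mul (τ : ℂ)
  rw [ale_lin, ale_mul n he tM tB, ale_rc n sM rM] at h4
  have e1 : (pth h2 b0 τ n e).A1 s = ((D.exL (tst δ τ + s / τ) n / τ / 2 : ℝ) : ℂ) * ((τ : ℂ) * ale n (Bi (tst δ τ + s / τ) n)) +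
      bec n e (chF h2 (tst δ τ + s / τ) n) / (τ : ℂ) * conj ((τ : ℂ) * bec n e (Bi (tst δ τ + s / τ) n)) := by
    rw [← pA_eq b0 h2 hτ n e s, ← pB_eq b0 h2 hτ n e s]
    rfl
  have hτc : (τ : ℂ) ≠ 0 := by exact_mod_cast hτ.ne'
  rw [h3, e1]
  refine h4.congr_deriv ?_
  rw [map_mul, Complex.conj_ofReal]
  push_cast
  field_simp
  ring

theorem p_dB (h1 : FInf D δ C Bi b0) (h2 : FInf2 D δ C Bi) {τ : ℝ} (hτ : 0 < τ) (hτ1 : τ ≤ 1) (n : S2) {e : Fin 3 → ℝ} (he : Ut n e)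
    {s : ℝ} (hs : 0 < s) : HasDerivAt (pth h2 b0 τ n e).B ((pth h2 b0 τ n e).B1 s) s := by
  have h3 : (pth h2 b0 τ n e).B = fun s => (τ : ℂ) * bec n e (Bi (tst δ τ + s / τ) n) :=
    funext fun s => pB_eq b0 h2 hτ n e s
  obtain ⟨tM, sM, rM, qM, -⟩ := chF_spec h2 (t_gt (δ := δ) hτ hτ1 hs) n
  have tB := h1.tng _ (t_ge (δ := δ) hτ hτ1 hs.le) n
  have h4 := (bec_der (n : E3) e (fun i j => f19_der h2 hτ hτ1 n hs i j)).const_mul (τ : ℂ)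
  rw [bec_lin, bec_mul n he tM tB, ale_rc n sM rM] at h4
  have e1 : (pth h2 b0 τ n e).B1 s = ((D.exL (tst δ τ + s / τ) n / τ / 2 : ℝ) : ℂ) * ((τ : ℂ) * bec n e (Bi (tst δ τ + s / τ) n)) +
      bec n e (chF h2 (tst δ τ + s / τ) n) / (τ : ℂ) * conj ((τ : ℂ) * ale n (Bi (tst δ τ + s / τ) n)) := by
    rw [← pA_eq b0 h2 hτ n e s, ← pB_eq b0 h2 hτ n e s]
    rfl
  have hτc : (τ : ℂ) ≠ 0 := by exact_mod_cast hτ.ne'
  rw [h3, e1]
  refine h4.congr_deriv ?_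
  rw [map_mul, Complex.conj_ofReal]
  push_cast
  field_simp
  ring

theorem p_du (hD : D.IsNull) (h1 : FInf D δ C Bi b0) (h2 : FInf2 D δ C Bi) {τ : ℝ} (hτ : 0 < τ) (hτ1 : τ ≤ 1) (n : S2)
    {e : Fin 3 → ℝ} (he : Ut n e) {s : ℝ} (hs : 0 < s) : HasDerivAt (pth h2 b0 τ n e).u
      (- (pth h2 b0 τ n e).u s ^ 2 / 2 - 2 * ‖(pth h2 b0 τ n e).m1 s‖ ^ 2 - (pth h2 b0 τ n e).e s) s := by
  obtain ⟨tM, sM, rM, qM, -⟩ := chF_spec h2 (t_gt (δ := δ) hτ hτ1 hs) n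
  have ht : 0 < tst δ τ + s / τ := h1.pos.trans (t_gt (δ := δ) hτ hτ1 hs)
  have h3 := (HasDerivAt.comp s (hD.ray _ ht n) (f19_t δ τ s)).div_const τ
  have h4 := sq_ab n he tM
  rw [qM, ale_rc n sM rM, Complex.norm_real, Real.norm_eq_abs, sq_abs] at h4
  have e1 : (pth h2 b0 τ n e).u s = D.exL (tst δ τ + s / τ) n / τ := rfl
  have e2 : (pth h2 b0 τ n e).m1 s = bec n e (chF h2 (tst δ τ + s / τ) n) / (τ : ℂ) := rfl
  have e3 : (pth h2 b0 τ n e).e s = D.e (tst δ τ + s / τ) n / τ ^ 2 := rfl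
  have e4 : (pth h2 b0 τ n e).u = fun s => D.exL (tst δ τ + s / τ) n / τ := rfl
  rw [e1, e2, e3, e4, norm_div, Complex.norm_real, Real.norm_eq_abs, abs_of_pos hτ]
  refine h3.congr_deriv ?_
  rw [h4]
  field_simp
  ring

end H17S.Fr
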