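import Pool.Agent.Lib.H17S.F.P0

set_option autoImplicit false

/-!
Chunk F20 (S/M). Signs and limits for the path (fields `e_nonneg, a_pos, u_pos, bdd, im, lim, lim1` of `Pa.Ok`, see `Def.lean`). `t s = tst δ τ + s/τ -> ∞`.
`p_e`: `D.IsNull.e_nonneg`. `p_apos`: `pa_eq`, `NullU.dA_pos`. `p_upos`: `NullU.u_pos` (`t s >= δ > 0`).
`p_bdd`: `pA_eq`, `ale_lin`, `ale_proj`: `p.A s - s = ale n (τ Bi (t s) - s proj)`, the entries of `τ Bi t - s proj = τ (Bi t - t proj) + (τ t - s) proj` are bounded by `C + 2 |τ tst δ τ|` (`FInf.bd`; `τ t - s = τ tst δ τ`; `|proj n i j| <= 2`), then `ab_le`. The same for `B` with `bec_proj`.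
`p_im`: `FInf2.im` composed with `t s -> ∞`, times `τ`. `p_lim`: `sqrt (p.a s) = τ sqrt (dA (t s))` (`pa_eq`), `sqrt (p.a s) - s = τ (sqrt (dA t) - t) + τ tst δ τ -> τ (b0 n + tst δ τ) = p.bN` (`FInf.lim_b`).
`p_lim1`: `p.u s * sqrt (p.a s)/2 - 1 = exL sqrt dA/2 - 1` at `t s`, `s = τ (t s - tst δ τ)`, and `rp_lim` (F3): `t (r' - 1) -> 0` (hence also `r' - 1 -> 0`).
-/

open MeasureTheory Filter Topology Set
open scoped ComplexConjugate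

namespace H17S.Fr

open NullPen (E3 S2 sm proj MatterData)

variable {D : MatterData} {δ C : ℝ} {Bi : ℝ → S2 → Fin 3 → Fin 3 → ℝ} {b0 : S2 → ℝ}

theorem p2_tlim {τ : ℝ} (hτ : 0 < τ) (δ : ℝ) : Tendsto (fun s : ℝ => tst δ τ + s / τ) atTop atTop :=
  tendsto_atTop_add_const_left _ _ (tendsto_id.atTop_div_const hτ)

theorem p_e (hD : D.IsNull) (h1 : FInf D δ C Bi b0) (h2 : FInf2 D δ C Bi) {τ : ℝ} (hτ : 0 < τ) (hτ1 : τ ≤ 1) (n : S2)
    {e : Fin 3 → ℝ} (he : Ut n e) {s : ℝ} (hs : 0 < s) : 0 ≤ (pth h2 b0 τ n e).e s := by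
  have ht := t_ge (δ := δ) hτ hτ1 hs.le
  have hp := h1.pos
  show 0 ≤ D.e (tst δ τ + s / τ) n / τ ^ 2
  exact div_nonneg (hD.e_nonneg _ (by linarith) n) (by positivity)

theorem p_apos (hD : D.IsNull) (h1 : FInf D δ C Bi b0) (h2 : FInf2 D δ C Bi) {τ : ℝ} (hτ : 0 < τ) (hτ1 : τ ≤ 1) (n : S2)
    {e : Fin 3 → ℝ} (he : Ut n e) {s : ℝ} (hs : 0 ≤ s) : 0 < (pth h2 b0 τ n e).a s := by
  rw [pa_eq h1 h2 hτ hτ1 n he hs]
  have ht := t_ge (δ := δ) hτ hτ1 hs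
  have hp := h1.pos
  have h3 := NullU.dA_pos hD n (s := tst δ τ + s / τ) (by linarith)
  positivity

theorem p_upos (hD : D.IsNull) (hA : D.AsympFlat) (h1 : FInf D δ C Bi b0) (h2 : FInf2 D δ C Bi) {τ : ℝ} (hτ : 0 < τ) (hτ1 : τ ≤ 1) (n : S2)
    {e : Fin 3 → ℝ} (he : Ut n e) {s : ℝ} (hs : 0 ≤ s) : 0 < (pth h2 b0 τ n e).u s := by
  have ht := t_ge (δ := δ) hτ hτ1 hs
  have hp := h1.pos
  have h3 := NullU.u_pos hD hA (s := tst δ τ + s / τ) (by linarith) n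
  show 0 < D.exL (tst δ τ + s / τ) n / τ
  exact div_pos h3 hτ

theorem p2_proj (n : S2) (i j : Fin 3) : |proj n i j| ≤ 2 := by
  have h1 := nsq1 n
  simp only [Fin.sum_univ_three] at h1
  have h : ∀ i : Fin 3, |(n : E3) i| ≤ 1 := by
    intro i
    rw [← sq_le_one_iff_abs_le_one]
    fin_cases i
    · show (n : E3) 0 ^ 2 ≤ 1
      nlinarith [sq_nonneg ((n : E3) 1), sq_nonneg ((n : E3) 2)]
    · show (n : E3) 1 ^ 2 ≤ 1
      nlinarith [sq_nonneg ((n : E3) 0), sq_nonneg ((n : E3) 2)]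
    · show (n : E3) 2 ^ 2 ≤ 1
      nlinarith [sq_nonneg ((n : E3) 1), sq_nonneg ((n : E3) 0)]
  have h3 : |(n : E3) i * (n : E3) j| ≤ 1 := by
    rw [abs_mul]
    exact mul_le_one₀ (h i) (abs_nonneg _) (h j)
  unfold NullPen.proj
  split_ifs with hij
  · rw [abs_le] at h3 ⊢
    constructor <;> linarith
  · rw [abs_le] at h3 ⊢
    constructor <;> linarith

theorem p2_ent (h1 : FInf D δ C Bi b0) {τ : ℝ} (hτ : 0 < τ) (hτ1 : τ ≤ 1) (n : S2) {s : ℝ} (hs : 0 ≤ s) (i j : Fin 3) :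
    |τ * Bi (tst δ τ + s / τ) n i j + (-s) * proj n i j| ≤ C + 2 * |τ * tst δ τ| := by
  have ht := t_ge (δ := δ) hτ hτ1 hs
  have h3 := h1.bd _ ht n i j
  have e : τ * Bi (tst δ τ + s / τ) n i j + (-s) * proj n i j =
      τ * (Bi (tst δ τ + s / τ) n i j - (tst δ τ + s / τ) * proj n i j) + (τ * tst δ τ) * proj n i j := by
    have : τ * (s / τ) = s := by field_simp
    linear_combination proj n i j * this
  rw [e]
  have h4 := h1.C_nonneg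
  calc _ ≤ |τ * (Bi (tst δ τ + s / τ) n i j - (tst δ τ + s / τ) * proj n i j)| + |(τ * tst δ τ) * proj n i j| := abs_add_le _ _
    _ ≤ C + 2 * |τ * tst δ τ| := by
        rw [abs_mul τ, abs_mul (τ * tst δ τ), abs_of_pos hτ]
        have h5 : τ * |Bi (tst δ τ + s / τ) n i j - (tst δ τ + s / τ) * proj n i j| ≤ 1 * C :=
          mul_le_mul hτ1 h3 (abs_nonneg _) (by norm_num)
        have h6 := mul_le_mul_of_nonneg_left (p2_proj n i j) (abs_nonneg (τ * tst δ τ))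
        linarith

theorem p_bdd (h1 : FInf D δ C Bi b0) (h2 : FInf2 D δ C Bi) {τ : ℝ} (hτ : 0 < τ) (hτ1 : τ ≤ 1) (n : S2) {e : Fin 3 → ℝ} (he : Ut n e) :
    ∃ C', ∀ s, 0 ≤ s → ‖(pth h2 b0 τ n e).A s - (s : ℂ)‖ ≤ C' ∧ ‖(pth h2 b0 τ n e).B s‖ ≤ C' := by
  refine ⟨20 * (C + 2 * |τ * tst δ τ|), fun s hs => ?_⟩
  have h3 := ab_le n he (p2_ent h1 hτ hτ1 n hs)
  rw [ale_lin, bec_lin, ale_proj, bec_proj n he] at h3
  have h0 : 0 ≤ C + 2 * |τ * tst δ τ| := by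
    have := h1.C_nonneg
    positivity
  rw [pA_eq b0 h2 hτ, pB_eq b0 h2 hτ]
  refine ⟨?_, ?_⟩
  · have e1 : (τ : ℂ) * ale n (Bi (tst δ τ + s / τ) n) - (s : ℂ) =
        (τ : ℂ) * ale n (Bi (tst δ τ + s / τ) n) + ((-s : ℝ) : ℂ) * 1 := by
      push_cast
      ring
    rw [e1]
    linarith [h3.1]
  · have e1 : (τ : ℂ) * bec n e (Bi (tst δ τ + s / τ) n) =
        (τ : ℂ) * bec n e (Bi (tst δ τ + s / τ) n) + ((-s : ℝ) : ℂ) * 0 := by
      ring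
    rw [e1]
    exact h3.2

theorem p_im (h1 : FInf D δ C Bi b0) (h2 : FInf2 D δ C Bi) {τ : ℝ} (hτ : 0 < τ) (hτ1 : τ ≤ 1) (n : S2) {e : Fin 3 → ℝ} (he : Ut n e) :
    Tendsto (fun s => ((pth h2 b0 τ n e).A s).im) atTop (𝓝 0) := by
  have h3 := ((h2.im n).comp (p2_tlim hτ δ)).const_mul τ
  rw [mul_zero] at h3
  refine h3.congr fun s => ?_
  rw [pA_eq b0 h2 hτ]
  simp

theorem p2_sqrt (h1 : FInf D δ C Bi b0) (h2 : FInf2 D δ C Bi) {τ : ℝ} (hτ : 0 < τ) (hτ1 : τ ≤ 1) (n : S2) {e : Fin 3 → ℝ} (he : Ut n e)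
    {s : ℝ} (hs : 0 ≤ s) : Real.sqrt ((pth h2 b0 τ n e).a s) = τ * Real.sqrt (D.dA (tst δ τ + s / τ) n) := by
  rw [pa_eq h1 h2 hτ hτ1 n he hs, Real.sqrt_mul (by positivity), Real.sqrt_sq hτ.le]

theorem p_lim (h1 : FInf D δ C Bi b0) (h2 : FInf2 D δ C Bi) {τ : ℝ} (hτ : 0 < τ) (hτ1 : τ ≤ 1) (n : S2) {e : Fin 3 → ℝ} (he : Ut n e) :
    Tendsto (fun s => Real.sqrt ((pth h2 b0 τ n e).a s) - s) atTop (𝓝 (pth h2 b0 τ n e).bN) := by
  have h3 := (((h1.lim_b n).comp (p2_tlim hτ δ)).add_const (tst δ τ)).const_mul τ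
  refine (h3.congr' ?_)
  filter_upwards [eventually_ge_atTop (0 : ℝ)] with s hs
  rw [p2_sqrt h1 h2 hτ hτ1 n he hs]
  have : τ * (s / τ) = s := by field_simp
  simp only [Function.comp_apply]
  linear_combination (-1 : ℝ) * this

theorem p_lim1 (hD : D.IsNull) (hA : D.AsympFlat) (h1 : FInf D δ C Bi b0) (h2 : FInf2 D δ C Bi) {τ : ℝ} (hτ : 0 < τ) (hτ1 : τ ≤ 1) (n : S2)
    {e : Fin 3 → ℝ} (he : Ut n e) :
    Tendsto (fun s => s * ((pth h2 b0 τ n e).u s * Real.sqrt ((pth h2 b0 τ n e).a s) / 2 - 1)) atTop (𝓝 0) := by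
  have h3 := rp_lim hD hA n
  have h4 : Tendsto (fun s => D.exL s n * Real.sqrt (D.dA s n) / 2 - 1) atTop (𝓝 0) := by
    have h5 := h3.mul tendsto_inv_atTop_zero
    rw [mul_zero] at h5
    refine h5.congr' ?_
    filter_upwards [eventually_gt_atTop (0 : ℝ)] with s hs
    field_simp
  have h5 := ((h3.sub (h4.const_mul (tst δ τ))).comp (p2_tlim hτ δ)).const_mul τ
  rw [mul_zero, sub_zero, mul_zero] at h5
  refine h5.congr' ?_
  filter_upwards [eventually_ge_atTop (0 : ℝ)] with s hs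
  rw [p2_sqrt h1 h2 hτ hτ1 n he hs]
  have e1 : (pth h2 b0 τ n e).u s = D.exL (tst δ τ + s / τ) n / τ := rfl
  rw [e1]
  simp only [Function.comp_apply]
  have e2 : D.exL (tst δ τ + s / τ) n / τ * (τ * Real.sqrt (D.dA (tst δ τ + s / τ) n)) / 2 =
      D.exL (tst δ τ + s / τ) n * Real.sqrt (D.dA (tst δ τ + s / τ) n) / 2 := by
    field_simp
  rw [e2]
  have : τ * (s / τ) = s := by field_simp
  linear_combination (D.exL (tst δ τ + s / τ) n * Real.sqrt (D.dA (tst δ τ + s / τ) n) / 2 - 1) * this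

end H17S.Fr
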